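import Pool.Agent.Lib.H57TX.C4
import Pool.Agent.Lib.H57N.C5

/-! # H57TX, chunk C5: THE CYCLIC FIELD B -/

open NumberField IsDedekindDomain

namespace H57TX

open H57N (md Cg Zf c4_unr c4_ine c5_mem p4_below)

/-- A field whose elements are fixed by the automorphisms fixing the roots of unity of order d is unramified at the primes which do not divide d. -/
theorem c5_sub {m d r : ℕ} [NeZero m] (hd : d ∣ m) (B : IntermediateField ℚ (Zf m)) (B' : IntermediateField ℚ B)
    (hfix : ∀ σ : Zf m ≃ₐ[ℚ] Zf m, (∀ x : Zf m, x ^ d = 1 → σ x = x) → ∀ x : B', σ ((x : B) : Zf m) = ((x : B) : Zf m))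
    (hr : r.Prime) (hrd : ¬ r ∣ d) (w : HeightOneSpectrum (𝓞 B')) (hw : (r : 𝓞 B') ∈ w.asIdeal) : w.asIdeal.ramificationIdx ℤ = 1 := by
  have hce : IsCyclotomicExtension {m} ℚ (Zf m) := CyclotomicField.isCyclotomicExtension m ℚ
  have hd0 : NeZero d := ⟨fun h => (NeZero.ne m) (by rw [h] at hd; exact Nat.eq_zero_of_zero_dvd hd)⟩
  have hζ : IsPrimitiveRoot ((IsCyclotomicExtension.zeta m ℚ (Zf m)) ^ (m / d)) d :=
    (IsCyclotomicExtension.zeta_spec m ℚ (Zf m)).pow (NeZero.pos _) (Nat.div_mul_cancel hd).symm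
  generalize hζe : (IsCyclotomicExtension.zeta m ℚ (Zf m)) ^ (m / d) = ζ at hζ
  have hcyl : IsCyclotomicExtension {d} ℚ (IntermediateField.adjoin ℚ {ζ}) :=
    IsPrimitiveRoot.intermediateField_adjoin_isCyclotomicExtension ℚ hζ
  have hmem : ∀ x : B', ((algebraMap B (Zf m)).comp (algebraMap B' B)) x ∈ IntermediateField.adjoin ℚ {ζ} := by
    intro x
    apply c5_mem hd hζ
    intro σ hσ
    exact hfix σ hσ x
  let _ : Algebra B' (IntermediateField.adjoin ℚ {ζ}) :=
    (((algebraMap B (Zf m)).comp (algebraMap B' B)).codRestrict (IntermediateField.adjoin ℚ {ζ}) hmem).toAlgebra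
  exact c4_unr (m := d) (IntermediateField.adjoin ℚ {ζ}) B' hr hrd w hw

theorem c5_exists {p n t l : ℕ} {Q : Finset ℕ} {lev : ℕ → ℕ} (h : Prm p n t l Q lev) :
    ∃ (B : Type) (_ : Field B) (_ : NumberField B) (B' : IntermediateField ℚ B), Cy p n t l Q lev B B' := by
  obtain ⟨ρ, hρs, hρl, hρq⟩ := c2_gal h
  have hne : NeZero (md l Q) := md_ne h
  have hce : IsCyclotomicExtension {md l Q} ℚ (Zf (md l Q)) := CyclotomicField.isCyclotomicExtension (md l Q) ℚ
  have hg : IsGalois ℚ (Zf (md l Q)) := IsCyclotomicExtension.isGalois {md l Q} ℚ (Zf (md l Q))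
  obtain ⟨B, hgal, hcyc, hdeg, hfix, hlow⟩ := c2_fields h.hp (Zf (md l Q)) ρ hρs
  obtain ⟨B', hgal', hdeg', hfix'⟩ := hlow t (Nat.le_add_left t n)
  rw [Nat.add_sub_cancel] at hdeg'
  have hl0 : NeZero l := ⟨h.hl.ne_zero⟩
  have hldvd : l ∣ md l Q := Dvd.intro _ rfl
  -- the primitive root of unity of order l
  have hζ : IsPrimitiveRoot ((IsCyclotomicExtension.zeta (md l Q) ℚ (Zf (md l Q))) ^ (∏ q ∈ Q, q)) l :=
    (IsCyclotomicExtension.zeta_spec (md l Q) ℚ (Zf (md l Q))).pow (NeZero.pos _) (by rw [md, mul_comm])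
  generalize hζe : (IsCyclotomicExtension.zeta (md l Q) ℚ (Zf (md l Q))) ^ (∏ q ∈ Q, q) = ζ at hζ
  have hcyl : IsCyclotomicExtension {l} ℚ (IntermediateField.adjoin ℚ {ζ}) :=
    IsPrimitiveRoot.intermediateField_adjoin_isCyclotomicExtension ℚ hζ
  have hmem : ∀ x : B', ((algebraMap B (Zf (md l Q))).comp (algebraMap B' B)) x ∈ IntermediateField.adjoin ℚ {ζ} := by
    intro x
    apply c5_mem hldvd hζ
    intro σ hσ
    exact hfix' σ (hρl σ hσ) x
  let _ : Algebra B' (IntermediateField.adjoin ℚ {ζ}) :=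
    (((algebraMap B (Zf (md l Q))).comp (algebraMap B' B)).codRestrict (IntermediateField.adjoin ℚ {ζ}) hmem).toAlgebra
  have hnd : ∀ r : ℕ, r.Prime → r ≠ l → r ∉ Q → ¬ r ∣ md l Q := by
    intro r hr hrl hrQ hdvd
    rw [md, hr.dvd_mul] at hdvd
    rcases hdvd with h1 | h1
    · exact hrl ((Nat.prime_dvd_prime_iff_eq hr h.hl).1 h1)
    · obtain ⟨q, hq, h2⟩ := (Prime.dvd_finsetProd_iff hr.prime _).1 h1
      exact hrQ (by rw [(Nat.prime_dvd_prime_iff_eq hr (h.hq q hq).1).1 h2]; exact hq)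
  refine ⟨B, inferInstance, inferInstance, B', ?_⟩
  exact
    { gal := hgal
      cyc := hcyc
      deg := hdeg
      gal' := hgal'
      deg' := hdeg'
      unr := fun w r hr hw hrl hrQ => c4_unr (m := md l Q) (Zf (md l Q)) B hr (hnd r hr hrl hrQ) w hw
      unr' := fun w r hr hw hrl => c4_unr (m := l) (IntermediateField.adjoin ℚ {ζ}) B' hr
        (fun h1 => hrl ((Nat.prime_dvd_prime_iff_eq hr h.hl).1 h1)) w hw
      ram := fun w q hq hw => by
        have h1 := c4_ram h ρ (fun q hq => (hρq q hq).1) B (fun σ hσ => (hfix σ).1 hσ) w q hq hw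
        have hwp := w.isPrime
        have h2 : 0 < w.asIdeal.ramificationIdx ℤ := Ideal.ramificationIdx_pos w.asIdeal ℤ
        obtain ⟨d1, d2, d3⟩ := c4_div h hq
        have hlev := h.hlev q hq
        obtain ⟨B1, hgal1, hdeg1, hfix1⟩ := hlow (lev q) (by omega)
        obtain ⟨u, hu⟩ := p4_below (B := B1) w
        have hqu : (q : 𝓞 B1) ∈ u.asIdeal := by
          rw [hu, Ideal.under_def, Ideal.mem_comap, map_natCast]
          exact hw
        have hdq : md l Q / q ∣ md l Q := Nat.div_dvd_of_dvd (Dvd.intro _ d1.symm)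
        have h3 : u.asIdeal.ramificationIdx ℤ = 1 :=
          c5_sub hdq B B1 (fun σ hσ x => hfix1 σ ((hρq q hq).2 σ hσ) x) (h.hq q hq).1 d2 u hqu
        have h4 := c4_up w u hu h3
        have h5 := Module.finrank_mul_finrank ℚ B1 B
        rw [hdeg, hdeg1] at h5
        have h6 : p ^ (n + t) = p ^ (n + t - lev q) * p ^ lev q := by rw [← pow_add]; congr 1; omega
        have h7 : Module.finrank B1 B = p ^ lev q :=
          Nat.eq_of_mul_eq_mul_left (Nat.pow_pos h.hp.pos) (h5.trans h6)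
        rw [h7] at h4
        exact le_antisymm h4 (Nat.le_of_dvd h2 h1)
      ine := fun w q hq hw => by
        have h1 := h.hq q hq
        have h2 := c4_ine h.hl h1.1 h1.2.2.1 h1.2.2.2 (IntermediateField.adjoin ℚ {ζ}) B' w hw
        rw [hdeg'] at h2
        exact h2 }

end H57TX
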