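import Pool.Agent.Lib.H57TX.Defs
import Pool.Agent.Lib.H57N.P3
import Pool.Agent.Lib.H57N.P4

/-! # H57TX, chunk P3: ramification in the compositum -/

open NumberField IsDedekindDomain

namespace H57TX

open H57N (Cmp p1_res p1_gal p3_card p3_cardZ p4_towerZ)

variable {C B E : Type} [Field C] [NumberField C] [Field B] [NumberField B] [Field E] [NumberField E] [Algebra C E] [Algebra B E]

/-- The ramification index over C divides the ramification index of the prime of B over the rationals. -/
theorem p3_dvd [IsGalois ℚ B] (h : Cmp C B E) (P : HeightOneSpectrum (𝓞 E)) (w : HeightOneSpectrum (𝓞 B))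
    (hw : w.asIdeal = P.asIdeal.under (𝓞 B)) : P.asIdeal.ramificationIdx (𝓞 C) ∣ w.asIdeal.ramificationIdx ℤ := by
  obtain ⟨res, hinj, hres⟩ := p1_res h
  have hG := p1_gal h
  rw [← p3_card hG P, ← p3_cardZ w]
  let φ : P.asIdeal.inertia (E ≃ₐ[C] E) →* w.asIdeal.inertia (B ≃ₐ[ℚ] B) :=
    { toFun := fun g => ⟨res g.1, by
        intro y
        rw [hw]
        show algebraMap (𝓞 B) (𝓞 E) (res g.1 • y - y) ∈ P.asIdeal
        have h2 : algebraMap (𝓞 B) (𝓞 E) (res g.1 • y) = g.1 • algebraMap (𝓞 B) (𝓞 E) y := by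
          apply NumberField.RingOfIntegers.ext
          exact (hres g _).symm
        rw [map_sub, h2]
        exact g.2 _⟩
      map_one' := Subtype.ext (map_one res)
      map_mul' := fun a b => Subtype.ext (map_mul res a.1 b.1) }
  refine Subgroup.card_dvd_of_injective φ ?_
  intro a b hab
  exact Subtype.ext (hinj (congrArg Subtype.val hab))

/-- If u = P ∩ C is unramified over the rationals, then P has over C the ramification index of w over the rationals. -/
theorem p3_eq [IsGalois ℚ B] (h : Cmp C B E) (P : HeightOneSpectrum (𝓞 E)) (w : HeightOneSpectrum (𝓞 B))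
    (hw : w.asIdeal = P.asIdeal.under (𝓞 B)) (u : HeightOneSpectrum (𝓞 C)) (hu : u.asIdeal = P.asIdeal.under (𝓞 C))
    (hu1 : u.asIdeal.ramificationIdx ℤ = 1) : P.asIdeal.ramificationIdx (𝓞 C) = w.asIdeal.ramificationIdx ℤ := by
  refine Nat.dvd_antisymm (p3_dvd h P w hw) ?_
  have h1 := (p4_towerZ P u hu).1
  have h2 := (p4_towerZ P w hw).1
  rw [hu1, one_mul] at h1
  rw [← h1, h2]
  exact Dvd.intro _ rfl

end H57TX
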