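import Mathlib
import Pool.Agent.Lib.H13V.Stm
import Pool.Agent.Lib.H28T.CE
import Pool.Agent.Lib.H57N.P2
import Pool.Agent.Lib.H57N.P3
import Pool.Agent.Lib.H57N.P4
import Pool.Agent.Lib.H57N.E2
import Pool.Agent.Lib.H57TX.P3

/-! # H57TX, chunk E1: K = M B and K' = M B'; p is unramified in K -/

open NumberField IsDedekindDomain WeierstrassCurve

namespace H57TX

open H28T
open H55P H55R
open H55K H55K.TQ
open H57N (Cmp p1_gal p2_cop p2_deg p3_gal p3_unr p4_below p4_char p4_tower p4_towerZ e2_iff)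

variable {p n t l : ℕ} {Q : Finset ℕ} {lev : ℕ → ℕ} {B : Type} [Field B] [NumberField B] {B' : IntermediateField ℚ B}

theorem e1_cyc (h : Cy p n t l Q lev B B') (M K' K : Type) [Field M] [NumberField M] [Field K'] [NumberField K'] [Field K] [NumberField K]
    [Algebra M K'] [Algebra K' K] [Algebra M K] [IsScalarTower M K' K] [Algebra B' K'] [Algebra B K] (hK' : Cmp M B' K') (hK : Cmp M B K)
    (hd : ∀ r : ℕ, r.Prime → (r : ℤ) ∣ discr M → r ≠ l ∧ r ∉ Q) : H13V.CycT p n t M K' K := by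
  haveI := h.gal
  haveI := h.gal'
  have c1 : IsCoprime (discr M) (discr B) := p2_cop M B fun r hr hrd w hw => h.unr w r hr hw (hd r hr hrd).1 (hd r hr hrd).2
  have c2 : IsCoprime (discr M) (discr B') := p2_cop M B' fun r hr hrd w hw => h.unr' w r hr hw (hd r hr hrd).1
  obtain ⟨d1, e, he⟩ := p2_deg hK c1
  obtain ⟨d2, e', he'⟩ := p2_deg hK' c2
  haveI := h.cyc
  exact ⟨inferInstance, p1_gal hK, isCyclic_of_surjective e.symm e.symm.surjective, d1.trans h.deg, d2.trans h.deg'⟩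

theorem e1_ext {F : Type} [Field F] [NumberField F] {G : HeightOneSpectrum (𝓞 F) → Prop} (h : Cy p n t l Q lev B B') (N L : Type) [Field N]
    [NumberField N] [Field L] [NumberField L] [Algebra F N] [Algebra N L] [Algebra F L] [IsScalarTower F N L] [Algebra B' L] (hL : Cmp N B' L)
    (hN : ExtG G p N) (hd : ∀ r : ℕ, r.Prime → (r : ℤ) ∣ discr N → r ≠ l ∧ r ∉ Q) (hG : GoodL G l) : ExtG G p L := by
  haveI := h.gal'
  haveI := hN.1
  have c2 : IsCoprime (discr N) (discr B') := p2_cop N B' fun r hr hrd w hw => h.unr' w r hr hw (hd r hr hrd).1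
  have d2 := (p2_deg hL c2).1
  obtain ⟨k, hk⟩ := hN.2.1
  refine ⟨p3_gal (F := F) hL, ⟨k + n, ?_⟩, ?_⟩
  · have h1 : Module.finrank F L = Module.finrank F N * Module.finrank N L := (Module.finrank_mul_finrank F N L).symm
    rw [h1, hk, d2, h.deg', ← pow_add]
  · intro w v hv hGv
    obtain ⟨u, hu⟩ := p4_below (B := N) w
    obtain ⟨t', ht⟩ := p4_below (B := B') w
    obtain ⟨r, hr, hrw⟩ := p4_char w
    have hrv : (r : 𝓞 F) ∈ v.asIdeal := by
      rw [hv, Ideal.under_def, Ideal.mem_comap, map_natCast]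
      exact hrw
    have hrt : (r : 𝓞 B') ∈ t'.asIdeal := by
      rw [ht, Ideal.under_def, Ideal.mem_comap, map_natCast]
      exact hrw
    have hrl : r ≠ l := by
      rintro rfl
      exact hGv (hG v hrv)
    have e1 := h.unr' t' r hr hrt hrl
    have e2 := p3_unr hL w t' ht e1
    have hvu : v.asIdeal = u.asIdeal.under (𝓞 F) := by
      rw [hv, hu, Ideal.under_under]
    have e3 := hN.2.2 u v hvu hGv
    rw [(p4_tower (A := F) w u hu).1, e3, e2]

theorem e2_unr (h : Cy p n t l Q lev B B')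
    (hp : p.Prime) (hpl : p ≠ l) (hpQ : p ∉ Q) {C E : Type} [Field C] [NumberField C] [Field E] [NumberField E] [Algebra C E] [Algebra B E]
    (hE : Cmp C B E) (hC : H55P.UnrP p C) : H55P.UnrP p E := by
  haveI := h.gal
  rw [e2_iff E hp]
  rw [e2_iff C hp] at hC
  intro w hw
  obtain ⟨u, hu⟩ := p4_below (B := C) w
  obtain ⟨t', ht⟩ := p4_below (B := B) w
  have hpu : (p : 𝓞 C) ∈ u.asIdeal := by
    rw [hu, Ideal.mem_comap]
    simpa using hw
  have hpt : (p : 𝓞 B) ∈ t'.asIdeal := by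
    rw [ht, Ideal.mem_comap]
    simpa using hw
  rw [(p4_towerZ w u hu).1, hC u hpu, p3_unr hE w t' ht (h.unr t' p hp hpt hpl hpQ)]

end H57TX
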