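import Mathlib
import Pool.Agent.Lib.H13V.Stm
import Pool.Agent.Lib.H28T.CE
import Pool.Agent.Lib.H57N.A1
import Pool.Agent.Lib.H57N.A2
import Pool.Agent.Lib.H57N.E3
import Pool.Agent.Lib.H57TX.E1

/-! # H57TX, chunk E3: the anomalous primes ramified in K and their ramification indices -/

open NumberField IsDedekindDomain WeierstrassCurve

namespace H57TX

open H28T
open H55P H55R
open H55K H55K.TQ
open H57N (Cmp DownP a1_above a1_base a1_deg e3_nat e3_int p1_gal p2_unr p3_unr p4_above p4_below p4_char p4_count p4_tower p4_towerZ p4_uniq)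

variable {p n t l : ℕ} {Q : Finset ℕ} {lev : ℕ → ℕ} {B : Type} [Field B] [NumberField B] {B' : IntermediateField ℚ B}

theorem e3_sub {F : Type} [Field F] [NumberField F] {W : WeierstrassCurve ℤ} (h : Cy p n t l Q lev B B') (M K' K L : Type) [Field M] [NumberField M]
    [Field K'] [NumberField K'] [Field K] [NumberField K] [Field L] [NumberField L]
    [Algebra M K'] [Algebra K' K] [Algebra M K] [IsScalarTower M K' K] [Algebra B K] [Algebra K' L] [Algebra F L] (hK : Cmp M B K)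
    (hL : IsGalois F L) (hLp : ∃ k : ℕ, Module.finrank F L = p ^ k) (hG : GoodL (Gx (W⁄(𝓞 F)) p) l) (hD : DownP (W⁄(𝓞 F)) p)
    (w : HeightOneSpectrum (𝓞 K')) (hw : w ∈ H13T.AnR p W K' K) : ∃ q ∈ Q, (q : 𝓞 K') ∈ w.asIdeal := by
  obtain ⟨hΔ, hpt, P, hPw, hPr⟩ := hw
  obtain ⟨r, hr, hrw⟩ := p4_char w
  by_cases hrQ : r ∈ Q
  · exact ⟨r, hrQ, hrw⟩
  exfalso
  by_cases hrl : r = l
  · subst hrl
    obtain ⟨w', hw'⟩ := H55R.under_exists (L := L) w
    have hw'' : w.asIdeal = w'.asIdeal.under (𝓞 K') := by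
      rw [← hw']
      rfl
    obtain ⟨v, hv⟩ := p4_below (B := F) w'
    have hrv : (r : 𝓞 F) ∈ v.asIdeal := by
      rw [hw'', e3_nat] at hrw
      rw [hv, e3_nat]
      exact hrw
    have hg := hG v hrv
    have hΔv : (W⁄(𝓞 F)).Δ ∉ v.asIdeal := by
      intro h1
      apply hΔ
      have e : (W⁄(𝓞 F)).Δ = ((W.Δ : ℤ) : 𝓞 F) := by
        have e1 : (W⁄(𝓞 F)).Δ = algebraMap ℤ (𝓞 F) W.Δ := W.map_Δ _
        rw [e1]
        simp
      rw [e, hv, e3_int] at h1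
      rw [hw'', e3_int]
      exact h1
    have h1 := a1_above W w w' hw'' hpt
    have h2 : ((W⁄(𝓞 F))⁄(𝓞 L ⧸ w'.asIdeal)) = (W⁄(𝓞 L ⧸ w'.asIdeal)) := a1_base W
    have h3 : p ∣ Nat.card ((W⁄(𝓞 F))⁄(𝓞 L ⧸ w'.asIdeal)).toAffine.Point := by
      rw [h2]
      exact h1
    exact hg.2 hΔv (hD L hLp w' v hv hΔv h3)
  · have hB := h.gal
    obtain ⟨t', ht⟩ := p4_below (B := B) P
    have hrt : (r : 𝓞 B) ∈ t'.asIdeal := by
      rw [← hPw, e3_nat] at hrw
      rw [ht, e3_nat]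
      exact hrw
    have h1 := p3_unr hK P t' ht (h.unr t' r hr hrt hrl hrQ)
    rw [(p4_tower (A := M) P w hPw.symm).1] at h1
    exact hPr (Nat.eq_one_of_mul_eq_one_left h1)

theorem e3_count (h : Cy p n t l Q lev B B') (hp : p.Prime) (M K' : Type) [Field M] [NumberField M]
    [Field K'] [NumberField K'] [Algebra M K'] [Algebra B' K'] (hdeg : Module.finrank M K' = p ^ n) (hq : ∀ q ∈ Q, q.Prime)
    (S : Set (HeightOneSpectrum (𝓞 K'))) (hsub : ∀ w ∈ S, ∃ q ∈ Q, (q : 𝓞 K') ∈ w.asIdeal) :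
    S.Finite ∧ S.ncard ≤ Q.card * Module.finrank ℚ M := by
  have hM : IsScalarTower ℚ M K' := IsScalarTower.of_algebraMap_eq' (Subsingleton.elim _ _)
  have hpn : 0 < p ^ n := pow_pos hp.pos n
  have hA : ∀ q ∈ Q, {w : HeightOneSpectrum (𝓞 K') | (q : 𝓞 K') ∈ w.asIdeal}.Finite ∧
      {w : HeightOneSpectrum (𝓞 K') | (q : 𝓞 K') ∈ w.asIdeal}.ncard ≤ Module.finrank ℚ M := by
    intro q hqQ
    have h1 := p4_count K' (hq q hqQ) (p ^ n) (fun w hw => by
      obtain ⟨t', ht⟩ := p4_below (B := B') w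
      have hqt : (q : 𝓞 B') ∈ t'.asIdeal := by
        rw [ht, e3_nat]
        exact hw
      rw [(p4_towerZ w t' ht).2]
      have hwp := w.isPrime
      exact (h.ine t' q hqQ hqt).trans (Nat.le_mul_of_pos_right _ (Ideal.inertiaDeg_pos w.asIdeal (𝓞 B'))))
    refine ⟨h1.1, ?_⟩
    have h2 := h1.2
    rw [← Module.finrank_mul_finrank ℚ M K', hdeg] at h2
    exact Nat.le_of_mul_le_mul_right h2 hpn
  have hss : S ⊆ ⋃ q ∈ Q, {w : HeightOneSpectrum (𝓞 K') | (q : 𝓞 K') ∈ w.asIdeal} := by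
    intro w hw
    obtain ⟨q, hqQ, hqw⟩ := hsub w hw
    exact Set.mem_biUnion hqQ hqw
  have hfin : ∀ Q' : Finset ℕ, Q' ⊆ Q → (⋃ q ∈ Q', {w : HeightOneSpectrum (𝓞 K') | (q : 𝓞 K') ∈ w.asIdeal}).Finite ∧
      (⋃ q ∈ Q', {w : HeightOneSpectrum (𝓞 K') | (q : 𝓞 K') ∈ w.asIdeal}).ncard ≤ Q'.card * Module.finrank ℚ M := by
    intro Q'
    induction Q' using Finset.induction_on with
    | empty =>
      intro _
      simp
    | insert a s ha ih =>
      intro hs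
      obtain ⟨h1, h2⟩ := ih ((Finset.subset_insert a s).trans hs)
      obtain ⟨h3, h4⟩ := hA a (hs (Finset.mem_insert_self a s))
      rw [Finset.set_biUnion_insert]
      refine ⟨h3.union h1, (Set.ncard_union_le _ _).trans ?_⟩
      rw [Finset.card_insert_of_notMem ha, add_mul, one_mul, add_comm]
      exact add_le_add h2 h4
  obtain ⟨h5, h6⟩ := hfin Q (Finset.Subset.refl Q)
  exact ⟨h5.subset hss, (Set.ncard_le_ncard hss h5).trans h6⟩

/-- The ramification indices: K' is unramified over M at q, and K/K' has ramification index p^(lev q) at all primes above q. -/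
theorem e3_ram (h : Cy p n t l Q lev B B') (M K' K : Type) [Field M] [NumberField M]
    [Field K'] [NumberField K'] [Field K] [NumberField K]
    [Algebra M K'] [Algebra K' K] [Algebra M K] [IsScalarTower M K' K] [Algebra B' K'] [Algebra B K] (hK' : Cmp M B' K') (hK : Cmp M B K)
    (hd : ∀ r : ℕ, r.Prime → (r : ℤ) ∣ discr M → r ≠ l ∧ r ∉ Q) {q : ℕ} (hqQ : q ∈ Q) (hqp : q.Prime) (hql : q ≠ l)
    (P : HeightOneSpectrum (𝓞 K)) (hP : (q : 𝓞 K) ∈ P.asIdeal) : P.asIdeal.ramificationIdx (𝓞 K') = p ^ lev q := by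
  have hB := h.gal
  have hB' := h.gal'
  obtain ⟨w, hw⟩ := p4_below (B := K') P
  obtain ⟨u, hu⟩ := p4_below (B := M) P
  obtain ⟨t1, ht⟩ := p4_below (B := B) P
  obtain ⟨t', ht'⟩ := p4_below (B := B') w
  have hqw : (q : 𝓞 K') ∈ w.asIdeal := by
    rw [hw, e3_nat]
    exact hP
  have hqu : (q : 𝓞 M) ∈ u.asIdeal := by
    rw [hu, e3_nat]
    exact hP
  have hqt : (q : 𝓞 B) ∈ t1.asIdeal := by
    rw [ht, e3_nat]
    exact hP
  have hqt' : (q : 𝓞 B') ∈ t'.asIdeal := by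
    rw [ht', e3_nat]
    exact hqw
  have hu1 : u.asIdeal.ramificationIdx ℤ = 1 :=
    (p2_unr M hqp).1 (fun h1 => (hd q hqp h1).2 hqQ) u hqu
  have hw1 : w.asIdeal.ramificationIdx (𝓞 M) = 1 := p3_unr hK' w t' ht' (h.unr' t' q hqp hqt' hql)
  have h1 := p3_eq hK P t1 ht u hu hu1
  rw [h.ram t1 q hqQ hqt, (p4_tower (A := M) P w hw).1, hw1, one_mul] at h1
  exact h1

theorem e3_lower {F : Type} [Field F] [NumberField F] {W : WeierstrassCurve ℤ} (hp : p.Prime) (h : Cy p n t l Q lev B B') (M K' K : Type) [Field M] [NumberField M]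
    [Field K'] [NumberField K'] [Field K] [NumberField K]
    [Algebra M K'] [Algebra K' K] [Algebra M K] [IsScalarTower M K' K] [Algebra B' K'] [Algebra B K] (hK' : Cmp M B' K') (hK : Cmp M B K)
    (hd : ∀ r : ℕ, r.Prime → (r : ℤ) ∣ discr M → r ≠ l ∧ r ∉ Q) (q : ℕ) (hqQ : q ∈ Q) (hlev : 1 ≤ lev q) (hqp : q.Prime) (hql : q ≠ l)
    (hqΔ : ¬ (q : ℤ) ∣ W.Δ)
    (v : HeightOneSpectrum (𝓞 F)) (hv : Ideal.absNorm v.asIdeal = q) (hpv : p ∣ Nat.card (W⁄(𝓞 F ⧸ v.asIdeal)).toAffine.Point) :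
    ∃ w ∈ H13T.AnR p W K' K, (q : 𝓞 K') ∈ w.asIdeal := by
  obtain ⟨P, hP⟩ := p4_above K hqp
  obtain ⟨w, hw⟩ := p4_below (B := K') P
  have hqw : (q : 𝓞 K') ∈ w.asIdeal := by
    rw [hw, e3_nat]
    exact hP
  have hr := e3_ram h M K' K hK' hK hd hqQ hqp hql P hP
  refine ⟨w, ⟨?_, a1_deg W hqp v hv w hqw hpv, P, hw.symm, ?_⟩, hqw⟩
  · intro h1
    obtain ⟨a, b, hab⟩ := ((Nat.prime_iff_prime_int.1 hqp).coprime_iff_not_dvd).2 hqΔ
    have h3 := congrArg (fun z : ℤ => (z : 𝓞 K')) hab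
    simp only [Int.cast_add, Int.cast_mul, Int.cast_natCast, Int.cast_one] at h3
    refine w.isPrime.ne_top ((Ideal.eq_top_iff_one _).2 ?_)
    rw [← h3]
    exact add_mem (Ideal.mul_mem_left _ _ hqw) (Ideal.mul_mem_left _ _ h1)
  · rw [hr]
    exact (Nat.one_lt_pow (by omega) hp.one_lt).ne'

/-- The ramification index of a Galois extension in terms of one prime above. -/
theorem e3_eK (K' K : Type) [Field K'] [NumberField K'] [Field K] [NumberField K] [Algebra K' K] [IsGalois K' K]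
    (w : HeightOneSpectrum (𝓞 K')) (P : HeightOneSpectrum (𝓞 K)) (hP : w.asIdeal = P.asIdeal.under (𝓞 K')) :
    H13V.eK K w = P.asIdeal.ramificationIdx (𝓞 K') := by
  have hwp := w.isPrime
  have hwm := w.isMaximal
  have hPp := P.isPrime
  have hl : P.asIdeal.LiesOver w.asIdeal := ⟨hP⟩
  exact Ideal.ramificationIdxIn_eq_ramificationIdx w.asIdeal P.asIdeal (K ≃ₐ[K'] K)

end H57TX
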