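import Pool.Agent.Lib.H57TX.Defs
import Pool.Agent.Lib.H57N.D3
import Pool.Agent.Lib.H57N.D2
import Pool.Agent.Lib.H28R.W5

/-! # H57TX, chunk D3: a field over which almost all primes of degree one are anomalous, and of norm 1 modulo p^t -/

open NumberField IsDedekindDomain WeierstrassCurve

namespace H57TX

open H55P H55R
open H55K H55K.TQ
open H57N (Cmp cE cj cAlg p5_num p5_cmp p3_gal d3_div d3_nm d2_prim)

theorem d3_root {m : ℕ} (hm : m ≠ 0) {C : Type} [Field C] [NumberField C] {ζ : C}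
    (hζ : IsPrimitiveRoot ζ m) (w : Pl C) (hpw : (m : 𝓞 C) ∉ w.asIdeal) :
    m ∣ Ideal.absNorm w.asIdeal - 1 := by
  have hwp := w.isPrime
  obtain ⟨σ, hσ⟩ := H28G.K6_frob (K := C) (N := C) w
  have hζi : IsIntegral ℤ ζ := hζ.isIntegral (Nat.pos_of_ne_zero hm)
  let z : 𝓞 C := ⟨ζ, hζi⟩
  have hz : z ^ m = 1 := by
    apply RingOfIntegers.ext
    show ζ ^ m = 1
    exact hζ.pow_eq_one
  have h11 := AlgHom.IsArithFrobAt.apply_of_pow_eq_one hσ hz hpw
  have hu : w.under (𝓞 C) = w := by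
    apply HeightOneSpectrum.ext
    exact Ideal.comap_id _
  rw [H28G.K6_card w w hu] at h11
  have h13 := congrArg (fun x : 𝓞 C => (x : C)) h11
  have h14 : σ ζ = ζ ^ Ideal.absNorm w.asIdeal := h13
  have h15 : σ ζ = ζ := σ.commutes ζ
  rw [h15] at h14
  apply hζ.dvd_of_pow_eq_one
  have hN : Ideal.absNorm w.asIdeal ≠ 0 := by
    rw [Ne, Ideal.absNorm_eq_zero_iff]
    exact w.ne_bot
  have h16 : ζ ^ (Ideal.absNorm w.asIdeal - 1) * ζ = ζ := by
    rw [← pow_succ, Nat.sub_add_cancel (by omega)]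
    exact h14.symm
  have h17 : ζ ≠ 0 := hζ.ne_zero hm
  exact mul_right_cancel₀ h17 (h16.trans (one_mul ζ).symm)

/-- A field containing N and the roots of unity of order m. -/
theorem d3_comp {F N : Type} [Field F] [NumberField F] [Field N] [NumberField N] [Algebra F N]
    [Algebra N (AlgebraicClosure F)] [IsScalarTower F N (AlgebraicClosure F)] [IsGalois F N] {m : ℕ} (hm : m ≠ 0) :
    ∃ (C : Type) (_ : Field C) (_ : NumberField C) (_ : Algebra F C) (_ : Algebra N C)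
      (_ : Algebra C (AlgebraicClosure F)) (_ : IsScalarTower F C (AlgebraicClosure F))
      (_ : IsScalarTower N C (AlgebraicClosure F)), IsGalois F C ∧ ∃ ζ : C, IsPrimitiveRoot ζ m := by
  have hp0 : NeZero m := ⟨hm⟩
  have hcy : IsCyclotomicExtension {m} ℚ (CyclotomicField m ℚ) := CyclotomicField.isCyclotomicExtension m ℚ
  have hgal : IsGalois ℚ (CyclotomicField m ℚ) := IsCyclotomicExtension.isGalois {m} ℚ _
  let j : CyclotomicField m ℚ →+* AlgebraicClosure F :=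
    (IsAlgClosed.lift (R := ℚ) (S := CyclotomicField m ℚ) (M := AlgebraicClosure F)).toRingHom
  let _ : Algebra (CyclotomicField m ℚ) (cE N j) := cAlg N j
  have hN : NumberField (cE N j) := p5_num N j
  have hcmp : Cmp N (CyclotomicField m ℚ) (cE N j) := p5_cmp N j
  have hG : IsGalois F (cE N j) := p3_gal hcmp
  have t1 : IsScalarTower F (cE N j) (AlgebraicClosure F) := IsScalarTower.of_algebraMap_eq fun _ => rfl
  refine ⟨cE N j, inferInstance, hN, inferInstance, inferInstance, inferInstance, t1, inferInstance, hG,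
    cj N j (IsCyclotomicExtension.zeta m ℚ (CyclotomicField m ℚ)), ?_⟩
  exact (IsCyclotomicExtension.zeta_spec m ℚ (CyclotomicField m ℚ)).map_of_injective (cj N j).injective

theorem d3_field {F : Type} [Field F] [NumberField F] [IQ F] {W₀ : WeierstrassCurve (𝓞 F)} {Om : ℂ} {m : Ideal (𝓞 F)}
    {ψ : Ideal (𝓞 F) →*₀ 𝓞 F} {p : ℕ} (hH : BaseH F W₀ Om m ψ) (hp : PrimeH F W₀ p) (t : ℕ) :
    ∃ (C : Type) (_ : Field C) (_ : NumberField C) (_ : Algebra F C) (S : Set (Pl C)), S.Finite ∧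
      ∀ w : Pl C, w ∉ S → (Ideal.absNorm w.asIdeal).Prime →
        p ^ t ∣ Ideal.absNorm w.asIdeal - 1 ∧ ∃ v : Pl F, Ideal.absNorm v.asIdeal = Ideal.absNorm w.asIdeal ∧ W₀.Δ ∉ v.asIdeal ∧
          p ∣ Nat.card (W₀⁄(𝓞 F ⧸ v.asIdeal)).toAffine.Point := by
  classical
  obtain ⟨A, B, j, act, h⟩ := H28T.exists_dta hH hp
  obtain ⟨π, hπ, hd⟩ := H28T.cb1_pi (F := F) hp.prime
  obtain ⟨N, iF, iN, i1, i2, i3, t1, t2, t3, hN⟩ := exists_TFld h.cma F hπ.ne_zero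
  clear t1 t3
  clear i1
  have hgN : IsGalois F N := hN.gal
  have hpt : p ^ t ≠ 0 := pow_ne_zero _ hp.prime.ne_zero
  obtain ⟨C, _, _, _, _, _, _, _, hG, ζ, hζ⟩ := d3_comp (F := F) (N := N) hpt
  obtain ⟨S, hS, hw⟩ := d3_div (C := C) h hπ hd (fun T hT => by
    obtain ⟨x, y, hx, hy⟩ := hN.crd T hT
    refine ⟨algebraMap N C x, algebraMap N C y, ?_, ?_⟩
    · rw [← IsScalarTower.algebraMap_apply N C (AlgebraicClosure F), hx]
    · rw [← IsScalarTower.algebraMap_apply N C (AlgebraicClosure F), hy])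
  have hΔC : algebraMap (𝓞 F) (𝓞 C) W₀.Δ ≠ 0 := by
    intro h0
    apply hH.data.ell
    apply RingOfIntegers.ext
    have h1 : algebraMap F C ((W₀.Δ : 𝓞 F) : F) = 0 := congrArg (fun x : 𝓞 C => (x : C)) h0
    rw [map_eq_zero] at h1
    exact h1
  have hpC : ((p : ℕ) : 𝓞 C) ≠ 0 := Nat.cast_ne_zero.2 hp.prime.ne_zero
  refine ⟨C, inferInstance, inferInstance, inferInstance,
    S ∪ ({w : Pl C | algebraMap (𝓞 F) (𝓞 C) W₀.Δ ∈ w.asIdeal} ∪ {w : Pl C | ((p : ℕ) : 𝓞 C) ∈ w.asIdeal}),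
    hS.union ((H28R.W5_fin_mem _ hΔC).union (H28R.W5_fin_mem _ hpC)), ?_⟩
  intro w hwS hwN
  simp only [Set.mem_union, not_or] at hwS
  obtain ⟨hw1, hw2, hw3⟩ := hwS
  have hw2' : algebraMap (𝓞 F) (𝓞 C) W₀.Δ ∉ w.asIdeal := hw2
  have hw3' : ((p ^ t : ℕ) : 𝓞 C) ∉ w.asIdeal := by
    intro h0
    rw [Nat.cast_pow] at h0
    exact hw3 (w.isPrime.mem_of_pow_mem t h0)
  obtain ⟨h1, h2⟩ := hw w hw1 hwN
  refine ⟨d3_root hpt hζ w hw3', w.under (𝓞 F), h1, fun hm => hw2' hm, ?_⟩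
  rw [hH.deu (w.under (𝓞 F)) fun hm => hw2' hm]
  refine (d3_nm hp.prime hπ hd).trans ?_
  obtain ⟨c, hc⟩ := h2
  have e : 1 - ψ (w.under (𝓞 F)).asIdeal = π * (-c) := by linear_combination -hc
  rw [e, Nm_mul]
  exact Dvd.intro _ rfl

/-- The prime numbers q: for all large prime numbers l there are arbitrarily large prime numbers q = 1 mod p^t, primitive roots modulo l, with a prime v of F of norm q at which the number of points is divisible by p. -/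
def ManyQ {F : Type} [Field F] [NumberField F] (W₀ : WeierstrassCurve (𝓞 F)) (p t : ℕ) : Prop :=
  ∃ L0 : ℕ, ∀ l : ℕ, l.Prime → L0 < l → ∀ Bd : ℕ, ∃ q : ℕ, q.Prime ∧ Bd < q ∧ p ^ t ∣ q - 1 ∧ orderOf (q : ZMod l) = l - 1 ∧
    ∃ v : HeightOneSpectrum (𝓞 F), Ideal.absNorm v.asIdeal = q ∧ W₀.Δ ∉ v.asIdeal ∧
      p ∣ Nat.card (W₀⁄(𝓞 F ⧸ v.asIdeal)).toAffine.Point

theorem d4_manyQ {F : Type} [Field F] [NumberField F] [IQ F] {W₀ : WeierstrassCurve (𝓞 F)} {Om : ℂ} {m : Ideal (𝓞 F)}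
    {ψ : Ideal (𝓞 F) →*₀ 𝓞 F} {p : ℕ} (hH : BaseH F W₀ Om m ψ) (hp : PrimeH F W₀ p) (t : ℕ) : ManyQ W₀ p t := by
  obtain ⟨C, _, _, _, S, hS, hw⟩ := d3_field hH hp t
  refine ⟨(discr C).natAbs, fun l hl hL Bd => ?_⟩
  have hd : ¬ (l : ℤ) ∣ discr C := by
    intro h1
    have h2 : l ∣ (discr C).natAbs := Int.natCast_dvd.1 h1
    have h3 := Nat.le_of_dvd (Int.natAbs_pos.2 (discr_ne_zero C)) h2
    omega
  obtain ⟨w, hwS, hwN, hwo⟩ := d2_prim C hl hd (S ∪ {w : Pl C | Ideal.absNorm w.asIdeal ≤ Bd})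
    (hS.union (H28R.W5_fin_norm Bd))
  rw [Set.mem_union, not_or] at hwS
  obtain ⟨h1, v, h2, h3, h4⟩ := hw w hwS.1 hwN
  exact ⟨Ideal.absNorm w.asIdeal, hwN, not_le.1 hwS.2, h1, hwo, v, h2, h3, h4⟩

end H57TX
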