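import Mathlib
import Pool.Agent.Lib.H28T.CE
import Pool.Agent.Lib.H13R.I1
import Pool.Agent.Lib.H28I.A1
import Pool.Agent.Lib.H57N.A1
import Pool.Agent.Lib.H57TX.D3

/-! # H57TX, chunk E4: choice of the prime numbers; the isogenous curves -/

open NumberField IsDedekindDomain WeierstrassCurve

namespace H57TX

open H28T
open H55P H55R
open H55K H55K.TQ
open H57N (a1_base)

/-- The prime numbers are chosen for the field N and the levels lev. -/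
structure Ch (F : Type) [Field F] [NumberField F] (W : WeierstrassCurve ℤ) (p n t l : ℕ) (Q : Finset ℕ) (lev : ℕ → ℕ)
    (N : Type) [Field N] [NumberField N] : Prop where
  prm : Prm p n t l Q lev
  good : GoodL (Gx (W⁄(𝓞 F)) p) l
  dis : ∀ r : ℕ, r.Prime → (r : ℤ) ∣ discr N → r ≠ l ∧ r ∉ Q
  pl : p ≠ l
  pQ : p ∉ Q
  pts : ∀ q ∈ Q, ¬ (q : ℤ) ∣ W.Δ ∧ ∃ v : HeightOneSpectrum (𝓞 F), Ideal.absNorm v.asIdeal = q ∧
    p ∣ Nat.card (W⁄(𝓞 F ⧸ v.asIdeal)).toAffine.Point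

theorem e4_choiceX {F : Type} [Field F] [NumberField F] {W : WeierstrassCurve ℤ} {p : ℕ} (hp : p.Prime) (hΔ : W.Δ ≠ 0)
    (hdir : DirH (Gx (W⁄(𝓞 F)) p) p) {t : ℕ} (ht : 1 ≤ t) (hQ : ManyQ (W⁄(𝓞 F)) p t) (N : Type) [Field N] [NumberField N] (n c X : ℕ) :
    ∃ (l : ℕ) (Q : Finset ℕ), X < l ∧ Q.card = c ∧ ∀ lev : ℕ → ℕ, (∀ q ∈ Q, 1 ≤ lev q ∧ lev q ≤ t) → Ch F W p n t l Q lev N := by
  classical
  obtain ⟨L0, hL0⟩ := hQ
  obtain ⟨l, hl, hlN, hpl, hG⟩ := hdir (n + t) (max (max X L0) (max p (discr N).natAbs))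
  have hlX : X < l := lt_of_le_of_lt ((le_max_left _ _).trans (le_max_left _ _)) hlN
  have hlL : L0 < l := lt_of_le_of_lt ((le_max_right _ _).trans (le_max_left _ _)) hlN
  have hlp : p < l := lt_of_le_of_lt ((le_max_left _ _).trans (le_max_right _ _)) hlN
  have hlD : (discr N).natAbs < l := lt_of_le_of_lt ((le_max_right _ _).trans (le_max_right _ _)) hlN
  have hD0 : discr N ≠ 0 := discr_ne_zero N
  let C : Set ℕ := {q | (q.Prime ∧ p ^ t ∣ q - 1 ∧ orderOf (q : ZMod l) = l - 1 ∧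
    ∃ v : HeightOneSpectrum (𝓞 F), Ideal.absNorm v.asIdeal = q ∧ (W⁄(𝓞 F)).Δ ∉ v.asIdeal ∧
      p ∣ Nat.card ((W⁄(𝓞 F))⁄(𝓞 F ⧸ v.asIdeal)).toAffine.Point) ∧ l < q ∧ (discr N).natAbs < q ∧ W.Δ.natAbs < q}
  have hinf : C.Infinite := by
    apply Set.infinite_of_forall_exists_gt
    intro a
    obtain ⟨q, h1, h2, h3, h4, h5⟩ := hL0 l hl hlL (max a (max l (max (discr N).natAbs W.Δ.natAbs)))
    have b1 : a < q := lt_of_le_of_lt (le_max_left _ _) h2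
    have b2 : l < q := lt_of_le_of_lt ((le_max_left _ _).trans (le_max_right _ _)) h2
    have b3 : (discr N).natAbs < q := lt_of_le_of_lt (((le_max_left _ _).trans (le_max_right _ _)).trans (le_max_right _ _)) h2
    have b4 : W.Δ.natAbs < q := lt_of_le_of_lt (((le_max_right _ _).trans (le_max_right _ _)).trans (le_max_right _ _)) h2
    exact ⟨q, ⟨⟨h1, h3, h4, h5⟩, b2, b3, b4⟩, b1⟩
  obtain ⟨Q, hQC, hcard⟩ := hinf.exists_subset_card_eq c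
  have hnd : ∀ (z : ℤ) (r : ℕ), z ≠ 0 → z.natAbs < r → ¬ (r : ℤ) ∣ z := by
    intro z r hz hlt hdv
    have := Nat.le_of_dvd (Int.natAbs_pos.2 hz) (Int.natCast_dvd.1 hdv)
    omega
  refine ⟨l, Q, hlX, hcard, fun lev hlev => ⟨⟨hp, hl, hpl, ?_, hlev⟩, hG, ?_, ?_, ?_, ?_⟩⟩
  · intro q hq
    obtain ⟨⟨h1, h2, h3, -⟩, h4, -, -⟩ := hQC hq
    exact ⟨h1, h2, h4.ne', h3⟩
  · intro r _ hrd
    constructor
    · rintro rfl
      exact hnd _ _ hD0 hlD hrd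
    · intro hrQ
      obtain ⟨-, -, h5, -⟩ := hQC hrQ
      exact hnd _ _ hD0 h5 hrd
  · exact hlp.ne
  · intro hpQ
    obtain ⟨-, h4, -, -⟩ := hQC hpQ
    omega
  · intro q hq
    obtain ⟨⟨-, -, -, v, hv1, -, hv3⟩, -, -, h6⟩ := hQC hq
    refine ⟨hnd _ _ hΔ h6, v, hv1, ?_⟩
    rwa [a1_base] at hv3

theorem e4_choice {F : Type} [Field F] [NumberField F] {W : WeierstrassCurve ℤ} {p : ℕ} (hp : p.Prime) (hΔ : W.Δ ≠ 0)
    (hdir : DirH (Gx (W⁄(𝓞 F)) p) p) {t : ℕ} (ht : 1 ≤ t) (hQ : ManyQ (W⁄(𝓞 F)) p t) (N : Type) [Field N] [NumberField N] (n c : ℕ) :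
    ∃ (l : ℕ) (Q : Finset ℕ), Q.card = c ∧ ∀ lev : ℕ → ℕ, (∀ q ∈ Q, 1 ≤ lev q ∧ lev q ≤ t) → Ch F W p n t l Q lev N := by
  obtain ⟨l, Q, -, h1, h2⟩ := e4_choiceX hp hΔ hdir ht hQ N n c 0
  exact ⟨l, Q, h1, h2⟩

open H28I in
theorem e5_manyQ {F : Type} [Field F] [NumberField F] [IQ F] {W W' : WeierstrassCurve ℤ} {Om : ℂ} {m : Ideal (𝓞 F)}
    {ψ : Ideal (𝓞 F) →*₀ 𝓞 F} {kap : ℤ} {e s u lam : ℚ} {p : ℕ} (h : TW F W W' Om m ψ kap e s u lam) (hp' : PrimeH F (W'⁄(𝓞 F)) p) (t : ℕ) :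
    ManyQ (W'⁄(𝓞 F)) p t := by
  obtain ⟨L0, hL0⟩ := d4_manyQ h.base ((tw_prime h).1 hp') t
  refine ⟨L0, fun l hl hl0 Bd => ?_⟩
  obtain ⟨q, hq, hB, hpq, ho, v, hv, hΔ, hd⟩ := hL0 l hl hl0 Bd
  have hΔ' : (W'⁄(𝓞 F)).Δ ∉ v.asIdeal := mt (tw_supp h v).1 hΔ
  exact ⟨q, hq, hB, hpq, ho, v, hv, hΔ', by rw [(tw_deu h v hΔ').1]; exact hd⟩

end H57TX
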