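import Mathlib

/-! # H57TX, chunk G1: finite abelian p-groups (only Mathlib) -/

open DirectSum

namespace H57TX

/-- A finite abelian p-group is a product of groups ℤ/p^f(x), f(x) ≥ 1. -/
theorem g1_dec {p : ℕ} (hp : p.Prime) (A : Type) [AddCommGroup A] [Finite A] (k : ℕ) (hk : Nat.card A = p ^ k) :
    ∃ (ι : Type) (_ : Fintype ι) (f : ι → ℕ), (∀ x, 1 ≤ f x) ∧ Nonempty (A ≃+ ((x : ι) → ZMod (p ^ f x))) := by
  classical
  obtain ⟨ι, hι, n, hn, ⟨e⟩⟩ := AddCommGroup.equiv_directSum_zmod_of_finite' A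
  let e' : A ≃+ ((x : ι) → ZMod (n x)) := e.trans (DirectSum.addEquivProd fun x => ZMod (n x))
  have hcard : ∏ x, n x = p ^ k := by
    rw [← hk, Nat.card_congr e'.toEquiv, Nat.card_pi]
    exact Finset.prod_congr rfl fun x _ => (Nat.card_zmod _).symm
  have h1 : ∀ x, ∃ i, 1 ≤ i ∧ n x = p ^ i := by
    intro x
    have h2 : n x ∣ p ^ k := by
      rw [← hcard]
      exact Finset.dvd_prod_of_mem n (Finset.mem_univ x)
    obtain ⟨i, -, hi⟩ := (Nat.dvd_prime_pow hp).1 h2
    refine ⟨i, ?_, hi⟩
    by_contra h0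
    have h3 : i = 0 := by omega
    rw [h3, pow_zero] at hi
    exact absurd (hn x) (by omega)
  choose f hf1 hf2 using h1
  refine ⟨ι, hι, f, hf1, ⟨e'.trans (AddEquiv.piCongrRight fun x => (ZMod.ringEquivCongr (hf2 x)).toAddEquiv)⟩⟩

/-- Products of the groups ℤ/e over the values of a surjective map. -/
theorem g1_emb {X ι : Type} (g : X → ι) (hg : Function.Surjective g) (a : X → ℕ) (b : ι → ℕ) (h : ∀ w, a w = b (g w)) :
    ∃ j : ((x : ι) → ZMod (b x)) →+ ((w : X) → ZMod (a w)), Function.Injective j := by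
  refine ⟨{ toFun := fun u w => (ZMod.ringEquivCongr (h w)).symm (u (g w))
            map_zero' := by funext w; simp
            map_add' := fun u v => by funext w; simp }, ?_⟩
  intro u v huv
  funext x
  obtain ⟨w, rfl⟩ := hg x
  have h1 := congrFun huv w
  exact (ZMod.ringEquivCongr (h w)).symm.injective h1

theorem g1_iso {X ι : Type} (g : X → ι) (hg : Function.Bijective g) (a : X → ℕ) (b : ι → ℕ) (h : ∀ w, a w = b (g w)) :
    Nonempty (((w : X) → ZMod (a w)) ≃+ ((x : ι) → ZMod (b x))) := by
  let j : ((x : ι) → ZMod (b x)) →+ ((w : X) → ZMod (a w)) :=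
    { toFun := fun u w => (ZMod.ringEquivCongr (h w)).symm (u (g w))
      map_zero' := by funext w; simp
      map_add' := fun u v => by funext w; simp }
  have hj : Function.Bijective j := by
    constructor
    · intro u v huv
      funext x
      obtain ⟨w, rfl⟩ := hg.2 x
      have h1 := congrFun huv w
      exact (ZMod.ringEquivCongr (h w)).symm.injective h1
    · intro v
      have key : ∀ x : ι, ∃ c : ZMod (b x), ∀ w : X, ∀ hw : g w = x, ZMod.ringEquivCongr (h w) (v w) = hw ▸ c := by
        intro x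
        obtain ⟨w, rfl⟩ := hg.2 x
        refine ⟨ZMod.ringEquivCongr (h w) (v w), fun w' hw' => ?_⟩
        obtain rfl := hg.1 hw'
        rfl
      choose u hu using key
      refine ⟨u, ?_⟩
      funext w
      have h1 := hu (g w) w rfl
      show (ZMod.ringEquivCongr (h w)).symm (u (g w)) = v w
      rw [RingEquiv.symm_apply_eq]
      exact h1.symm
  exact ⟨(AddEquiv.ofBijective j hj).symm⟩

/-- The exponent of a product of groups ℤ/p^f(x). -/
theorem g1_exp {p : ℕ} {A ι : Type} [AddCommGroup A] [Fintype ι] (f : ι → ℕ) (e : A ≃+ ((x : ι) → ZMod (p ^ f x))) (x : ι) :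
    p ^ f x ∣ AddMonoid.exponent A := by
  classical
  have h1 : AddMonoid.exponent A • (e.symm (Pi.single x 1)) = 0 := AddMonoid.exponent_nsmul_eq_zero _
  have h2 : AddMonoid.exponent A • (Pi.single x 1 : (x : ι) → ZMod (p ^ f x)) = 0 := by
    have h3 := congrArg e h1
    rwa [map_nsmul, e.apply_symm_apply, map_zero] at h3
  have h4 := congrFun h2 x
  rw [Pi.smul_apply, Pi.single_eq_same, Pi.zero_apply, nsmul_eq_mul, mul_one] at h4
  exact (ZMod.natCast_eq_zero_iff _ _).1 h4

/-- A finite abelian p-group with r generators is a product of at most r cyclic groups. -/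
theorem g1_gen {p : ℕ} (hp : p.Prime) {A ι : Type} [AddCommGroup A] [Fintype ι] (f : ι → ℕ) (hf : ∀ x, 1 ≤ f x)
    (e : A ≃+ ((x : ι) → ZMod (p ^ f x))) (r : ℕ) (S : Finset A) (hS : S.card ≤ r) (hc : AddSubgroup.closure (S : Set A) = ⊤) :
    Fintype.card ι ≤ r := by
  classical
  have hp0 : Fact p.Prime := ⟨hp⟩
  have hdv : ∀ x, p ∣ p ^ f x := fun x => dvd_pow_self p (Nat.one_le_iff_ne_zero.1 (hf x))
  -- the reduction to (ℤ/p)^ι
  let φ : A →+ (ι → ZMod p) :=
    { toFun := fun a x => ZMod.castHom (hdv x) (ZMod p) (e a x)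
      map_zero' := by
        funext x
        show ZMod.castHom (hdv x) (ZMod p) (e 0 x) = 0
        rw [map_zero e, Pi.zero_apply, map_zero]
      map_add' := fun a b => by
        funext x
        show ZMod.castHom (hdv x) (ZMod p) (e (a + b) x) = ZMod.castHom (hdv x) (ZMod p) (e a x) + ZMod.castHom (hdv x) (ZMod p) (e b x)
        rw [map_add e, Pi.add_apply, map_add] }
  have hφ : Function.Surjective φ := by
    intro v
    have key : ∀ x, ∃ c : ZMod (p ^ f x), ZMod.castHom (hdv x) (ZMod p) c = v x :=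
      fun x => ZMod.castHom_surjective _ (v x)
    choose c hc using key
    refine ⟨e.symm c, ?_⟩
    funext x
    show ZMod.castHom (hdv x) (ZMod p) (e (e.symm c) x) = v x
    rw [e.apply_symm_apply]
    exact hc x
  -- the span of the images
  have h1 : Submodule.span (ZMod p) ((S.image φ : Finset (ι → ZMod p)) : Set (ι → ZMod p)) = ⊤ := by
    rw [eq_top_iff]
    intro v hv
    clear hv
    obtain ⟨a, rfl⟩ := hφ v
    have ha : a ∈ AddSubgroup.closure (S : Set A) := by rw [hc]; trivial
    induction ha using AddSubgroup.closure_induction with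
    | mem x hx => exact Submodule.subset_span (by simpa using ⟨x, hx, rfl⟩)
    | zero => rw [map_zero]; exact Submodule.zero_mem _
    | add x y _ _ h1 h2 => rw [map_add]; exact Submodule.add_mem _ h1 h2
    | neg x _ h1 => rw [map_neg]; exact Submodule.neg_mem _ h1
  have h2 := finrank_span_finset_le_card (R := ZMod p) (S.image φ)
  rw [Set.finrank, h1, finrank_top, Module.finrank_fintype_fun_eq_card] at h2
  exact h2.trans (Finset.card_image_le.trans hS)

/-- The exponents are at most t if p^t kills A. -/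
theorem g1_le {p : ℕ} (hp : p.Prime) {A ι : Type} [AddCommGroup A] [Fintype ι] (f : ι → ℕ)
    (e : A ≃+ ((x : ι) → ZMod (p ^ f x))) (t : ℕ) (ht : ∀ a : A, p ^ t • a = 0) (x : ι) : f x ≤ t := by
  have h1 := g1_exp f e x
  have h2 : AddMonoid.exponent A ∣ p ^ t := AddMonoid.exponent_dvd_of_forall_nsmul_eq_zero ht
  exact (Nat.pow_dvd_pow_iff_le_right hp.one_lt).1 (h1.trans h2)

end H57TX
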