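import Mathlib
import Pool.Agent.Lib.H13V.Stm
import Pool.Agent.Lib.H28R.Defs

/-! # H57TX: the statements of the existence theorems for theorem (T) -/

open NumberField IsDedekindDomain WeierstrassCurve

namespace H57TX

open H55P (IQ)
open H55K.TQ
open H13T (AnR)
open H13V (HypT AtKT ShaThmT ShaG eK)

/-- For every finite p-group H and every finite abelian p-group A the theorem applies to a Galois extension K/F of p-power degree with H contained
in Gal(K/F), such that the product of the groups ℤ/e over the primes in AnR contains A and has the exponent of A: the p-primary part of the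
Tate-Shafarevich group over K contains A × A and has the exponent of A. -/
def ExistHA (F : Type) [Field F] [NumberField F] [IQ F] (p : ℕ) (W : WeierstrassCurve ℤ) : Prop :=
  ∀ (H : Type) [Group H] [Finite H] (k : ℕ), Nat.card H = p ^ k → ∀ (A : Type) [AddCommGroup A] [Finite A] (m : ℕ), Nat.card A = p ^ m →
    ∃ (M K' K : Type) (_ : Field M) (_ : NumberField M) (_ : Field K') (_ : NumberField K') (_ : Field K) (_ : NumberField K)
      (_ : Algebra M K') (_ : Algebra K' K) (_ : Algebra M K) (_ : Algebra F K) (n t : ℕ),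
      IsGalois F K ∧ (∃ r : ℕ, Module.finrank F K = p ^ r) ∧ (∃ φ : H →* (K ≃ₐ[F] K), Function.Injective φ) ∧
      (∀ ιK : K →ₐ[ℚ] AlgebraicClosure F, HypT F p n t W M K' K ιK) ∧
      (∃ j : A →+ ((w : AnR p W K' K) → ZMod (eK K w.1)), Function.Injective j) ∧
      ∀ w ∈ AnR p W K' K, eK K w ∣ AddMonoid.exponent A

/-- The same with a field K with a real place and a finite p-group H which is a subquotient of the Galois group over F of the field N generated by
F and K (quadratic over K, Galois over ℚ). -/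
def ExistRealHA (F : Type) [Field F] [NumberField F] [IQ F] (p : ℕ) (W : WeierstrassCurve ℤ) : Prop :=
  ∀ (H : Type) [Group H] [Finite H] (k : ℕ), Nat.card H = p ^ k → ∀ (A : Type) [AddCommGroup A] [Finite A] (m : ℕ), Nat.card A = p ^ m →
    ∃ (M K' K : Type) (_ : Field M) (_ : NumberField M) (_ : Field K') (_ : NumberField K') (_ : Field K) (_ : NumberField K)
      (_ : Algebra M K') (_ : Algebra K' K) (_ : Algebra M K) (n t : ℕ),
      0 < InfinitePlace.nrRealPlaces K ∧
      (∀ ιK : K →ₐ[ℚ] AlgebraicClosure F, HypT F p n t W M K' K ιK) ∧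
      (∃ j : A →+ ((w : AnR p W K' K) → ZMod (eK K w.1)), Function.Injective j) ∧
      (∀ w ∈ AnR p W K' K, eK K w ∣ AddMonoid.exponent A) ∧
      ∃ (N : Type) (_ : Field N) (_ : NumberField N) (_ : Algebra F N) (_ : Algebra K N),
        Module.finrank K N = 2 ∧ IsGalois ℚ N ∧ (∃ r : ℕ, Module.finrank F N = p ^ r) ∧ H28R.SubQ (N ≃ₐ[F] N) H

/-- For every finite abelian p-group A there are a bound d₀ and t such that for all n with d₀ ≤ n + t the theorem applies to a cyclic extension
K/ℚ of degree p^(n+t), with M = ℚ, such that the product of the groups ℤ/e over the primes in AnR is isomorphic to A: the p-primary part of the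
Tate-Shafarevich group over K is isomorphic to A × A. -/
def ExistA (F : Type) [Field F] [NumberField F] [IQ F] (p : ℕ) (W : WeierstrassCurve ℤ) : Prop :=
  ∀ (A : Type) [AddCommGroup A] [Finite A] (m : ℕ), Nat.card A = p ^ m → ∃ d₀ t : ℕ, ∀ n : ℕ, d₀ ≤ n + t →
    ∃ (K' K : Type) (_ : Field K') (_ : NumberField K') (_ : Field K) (_ : NumberField K) (_ : Algebra K' K),
      IsGalois ℚ K ∧ IsCyclic (K ≃ₐ[ℚ] K) ∧ Module.finrank ℚ K = p ^ (n + t) ∧
      (∀ ιK : K →ₐ[ℚ] AlgebraicClosure F, HypT F p n t W ℚ K' K ιK) ∧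
      Nonempty (((w : AnR p W K' K) → ZMod (eK K w.1)) ≃+ A)

open Classical in
/-- THE INVERSE THEOREM: for every finite abelian p-group A there is a bound d₀ such that for every d ≥ d₀ there is a cyclic extension K/ℚ of degree
p^d, totally real, such that the group of points of W over K is finite of order prime to p, the p-primary part of the
Tate-Shafarevich group is isomorphic to A × A, and the p-part of the conjecture of Birch and Swinnerton-Dyer holds: the L-series of W over K
continues, does not vanish at 1, and the analytic order of the Tate-Shafarevich group has the valuation of the order of A × A. -/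
def InvA (p : ℕ) (W : WeierstrassCurve ℤ) : Prop :=
  ∀ (A : Type) [AddCommGroup A] [Finite A] (m : ℕ), Nat.card A = p ^ m → ∃ d₀ : ℕ, ∀ d : ℕ, d₀ ≤ d →
    ∃ (K : Type) (_ : Field K) (_ : NumberField K),
      IsGalois ℚ K ∧ IsCyclic (K ≃ₐ[ℚ] K) ∧ Module.finrank ℚ K = p ^ d ∧ IsTotallyReal K ∧
      (Finite (W⁄K).toAffine.Point ∧ ¬ p ∣ Nat.card (W⁄K).toAffine.Point) ∧
      Nonempty (ShaG p K (W⁄K) ≃+ A × A) ∧
      (∃ L : PeriodPair, PerZ W L) ∧
      ∃ Λ : ℂ → ℂ, AnalyticOnNhd ℂ Λ {s | 1 / 2 < s.re} ∧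
        (∀ s : ℂ, 3 / 2 < s.re →
          LSeriesSummable (fun n => (((W⁄K).LFunction n : ℤ) : ℂ)) s ∧ Λ s = (W⁄K).LSeries s) ∧
        Λ 1 ≠ 0 ∧
        ∀ L : PeriodPair, PerZ W L → ∀ V : ValuationSubring ℂ, V.valuation (p : ℂ) < 1 →
          V.valuation (shaG K W L (Λ 1)) = V.valuation ((Nat.card A ^ 2 : ℕ) : ℂ)

/-- A is generated by at most r elements. -/
def Gen (A : Type) [AddCommGroup A] (r : ℕ) : Prop :=
  ∃ S : Finset A, S.card ≤ r ∧ AddSubgroup.closure (S : Set A) = ⊤

/-- Explicit form of ExistA: for every finite abelian group A killed by p^t and generated by r elements, and every n ≥ t ≥ 1 with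
2r < p^(n+1-t), the theorem applies to infinitely many cyclic extensions K/ℚ of degree p^(n+t). -/
def ExistE (F : Type) [Field F] [NumberField F] [IQ F] (p : ℕ) (W : WeierstrassCurve ℤ) : Prop :=
  ∀ (A : Type) [AddCommGroup A] [Finite A] (r t n : ℕ), Gen A r → (∀ a : A, p ^ t • a = 0) → 1 ≤ t → t ≤ n →
    2 * r < p ^ (n + 1 - t) → ∀ X : ℕ,
    ∃ (K' K : Type) (_ : Field K') (_ : NumberField K') (_ : Field K) (_ : NumberField K) (_ : Algebra K' K),
      IsGalois ℚ K ∧ IsCyclic (K ≃ₐ[ℚ] K) ∧ Module.finrank ℚ K = p ^ (n + t) ∧ X < (discr K).natAbs ∧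
      (∀ ιK : K →ₐ[ℚ] AlgebraicClosure F, HypT F p n t W ℚ K' K ιK) ∧
      Nonempty (((w : AnR p W K' K) → ZMod (eK K w.1)) ≃+ A)

open Classical in
/-- THE INVERSE THEOREM, explicit form: for every finite abelian group A killed by p^t and generated by r elements, and every n ≥ t ≥ 1 with
2r < p^(n+1-t), there are infinitely many cyclic extensions K/ℚ of degree p^(n+t), totally real, such that the group of points of W over K is
finite of order prime to p, the p-primary part of the Tate-Shafarevich group is isomorphic to A × A, and the p-part of the conjecture of Birch and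
Swinnerton-Dyer holds: the L-series of W over K continues, does not vanish at 1, and the analytic order of the Tate-Shafarevich group has the
valuation of the order of A × A. -/
def InvE (p : ℕ) (W : WeierstrassCurve ℤ) : Prop :=
  ∀ (A : Type) [AddCommGroup A] [Finite A] (r t n : ℕ), Gen A r → (∀ a : A, p ^ t • a = 0) → 1 ≤ t → t ≤ n →
    2 * r < p ^ (n + 1 - t) → ∀ X : ℕ,
    ∃ (K : Type) (_ : Field K) (_ : NumberField K),
      IsGalois ℚ K ∧ IsCyclic (K ≃ₐ[ℚ] K) ∧ Module.finrank ℚ K = p ^ (n + t) ∧ IsTotallyReal K ∧ X < (discr K).natAbs ∧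
      (Finite (W⁄K).toAffine.Point ∧ ¬ p ∣ Nat.card (W⁄K).toAffine.Point) ∧
      Nonempty (ShaG p K (W⁄K) ≃+ A × A) ∧
      (∃ L : PeriodPair, PerZ W L) ∧
      ∃ Λ : ℂ → ℂ, AnalyticOnNhd ℂ Λ {s | 1 / 2 < s.re} ∧
        (∀ s : ℂ, 3 / 2 < s.re →
          LSeriesSummable (fun n => (((W⁄K).LFunction n : ℤ) : ℂ)) s ∧ Λ s = (W⁄K).LSeries s) ∧
        Λ 1 ≠ 0 ∧
        ∀ L : PeriodPair, PerZ W L → ∀ V : ValuationSubring ℂ, V.valuation (p : ℂ) < 1 →
          V.valuation (shaG K W L (Λ 1)) = V.valuation ((Nat.card A ^ 2 : ℕ) : ℂ)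

end H57TX
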