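import Mathlib
import Pool.Agent.Lib.H13V.Stm
import Pool.Agent.Lib.H57N.E6
import Pool.Agent.Lib.H57TX.C5
import Pool.Agent.Lib.H57TX.E1
import Pool.Agent.Lib.H57TX.E3
import Pool.Agent.Lib.H57TX.E4
import Pool.Agent.Lib.H57TX.G1
import Pool.Agent.Lib.H57TX.Stm

/-! # H57TX: the existence theorems for (T) (assembly) -/

open NumberField IsDedekindDomain WeierstrassCurve

namespace H57TX

open H28T
open H55P H55R
open H55K H55K.TQ
open H57N (Cmp cE cAlg p5_num p5_cmp p5_mono p3_gal p2_cop p2_deg e4_emb e6_deg p4_below p4_uniq)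
open H13T (AnR)
open H13V (eK HypT)

/-- The facts on the curve. -/
structure Fct {F : Type} [Field F] [NumberField F] [IQ F] (W : WeierstrassCurve ℤ) (p : ℕ) : Prop extends H57N.Fct (F := F) W p where
  many : ∀ t : ℕ, ManyQ (W⁄(𝓞 F)) p t

variable {F : Type} [Field F] [NumberField F] [IQ F] {W : WeierstrassCurve ℤ} {p : ℕ}

/-- The primes in AnR are mapped onto ι, and their ramification indices are p^(f(g w)). -/
def Map (p : ℕ) (W : WeierstrassCurve ℤ) (K' K : Type) [Field K'] [NumberField K'] [Field K] [NumberField K] [Algebra K' K] {ι : Type}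
    (f : ι → ℕ) (g : AnR p W K' K → ι) : Prop :=
  Function.Surjective g ∧ ∀ w, eK K w.1 = p ^ f (g w)

/-- The levels of the primes in Q given by a bijection with ι. -/
theorem e6_lev {Q : Finset ℕ} {ι : Type} [Fintype ι] (h : Q.card = Fintype.card ι) (f : ι → ℕ) :
    ∃ (e : {q // q ∈ Q} ≃ ι) (lev : ℕ → ℕ), ∀ q : {q // q ∈ Q}, lev q = f (e q) := by
  classical
  have e : {q // q ∈ Q} ≃ ι := Fintype.equivOfCardEq (by rw [Fintype.card_coe, h])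
  refine ⟨e, fun q => if hq : q ∈ Q then f (e ⟨q, hq⟩) else 0, fun q => ?_⟩
  show (if hq : (q : ℕ) ∈ Q then f (e ⟨q, hq⟩) else 0) = f (e q)
  rw [dif_pos q.2]

theorem e6_map {K' K : Type} [Field K'] [NumberField K'] [Field K] [NumberField K] [Algebra K' K] {Q : Finset ℕ} {lev : ℕ → ℕ}
    {ι : Type} {f : ι → ℕ} (e : {q // q ∈ Q} ≃ ι) (hlev : ∀ q : {q // q ∈ Q}, lev q = f (e q)) (hq : ∀ q ∈ Q, q.Prime)
    (h1 : ∀ w ∈ AnR p W K' K, ∃ q ∈ Q, (q : 𝓞 K') ∈ w.asIdeal ∧ eK K w = p ^ lev q)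
    (h2 : ∀ q ∈ Q, ∃ w ∈ AnR p W K' K, (q : 𝓞 K') ∈ w.asIdeal) : ∃ g : AnR p W K' K → ι, Map p W K' K f g := by
  have key : ∀ w : AnR p W K' K, ∃ q : {q // q ∈ Q}, ((q : ℕ) : 𝓞 K') ∈ w.1.asIdeal ∧ eK K w.1 = p ^ lev q := by
    intro w
    obtain ⟨q, hq, h3, h4⟩ := h1 w.1 w.2
    exact ⟨⟨q, hq⟩, h3, h4⟩
  choose c hc1 hc2 using key
  refine ⟨fun w => e (c w), ?_, ?_⟩
  · intro x
    obtain ⟨w, hw, hqw⟩ := h2 (e.symm x) (e.symm x).2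
    refine ⟨⟨w, hw⟩, ?_⟩
    show e (c ⟨w, hw⟩) = x
    have h3 : ((c ⟨w, hw⟩ : {q // q ∈ Q}) : ℕ) = (e.symm x : {q // q ∈ Q}) :=
      p4_uniq w (hq _ (c ⟨w, hw⟩).2) (hq _ (e.symm x).2) (hc1 ⟨w, hw⟩) hqw
    have h4 : c ⟨w, hw⟩ = e.symm x := Subtype.ext h3
    rw [h4, e.apply_symm_apply]
  · intro w
    show eK K w.1 = p ^ f (e (c w))
    rw [hc2 w, hlev]

/-- The hypotheses of the theorem hold for the fields M B' and M B. -/
theorem e6_core (hF : Fct (F := F) W p) {n t l : ℕ} {Q : Finset ℕ} {lev : ℕ → ℕ} (ht : 1 ≤ t) (htn : t ≤ n)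
    {B : Type} [Field B] [NumberField B] {B' : IntermediateField ℚ B} (hC : Cy p n t l Q lev B B')
    (M K' K L : Type) [Field M] [NumberField M] [Field K'] [NumberField K'] [Field K] [NumberField K] [Field L] [NumberField L]
    [Algebra M K'] [Algebra K' K] [Algebra M K] [IsScalarTower M K' K] [Algebra B' K'] [Algebra B K] [Algebra K' L] [Algebra F L]
    (hCh : Ch F W p n t l Q lev M) (hK' : Cmp M B' K') (hK : Cmp M B K) (hL : ExtG (Gx (W⁄(𝓞 F)) p) p L) (hU : UnrP p M)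
    (hbad : ∀ ιM : M →ₐ[ℚ] AlgebraicClosure F, H13R.BadM (W⁄(𝓞 F)) (KG F M ιM))
    (hfew : 2 * (Q.card * Module.finrank ℚ M) < p ^ (n + 1 - t)) :
    (∀ ιK : K →ₐ[ℚ] AlgebraicClosure F, HypT F p n t W M K' K ιK) ∧ (AnR p W K' K).Finite ∧
      (AnR p W K' K).ncard ≤ Q.card * Module.finrank ℚ M ∧
      (∀ w ∈ AnR p W K' K, ∃ q ∈ Q, (q : 𝓞 K') ∈ w.asIdeal ∧ eK K w = p ^ lev q) ∧
      ∀ q ∈ Q, ∃ w ∈ AnR p W K' K, (q : 𝓞 K') ∈ w.asIdeal := by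
  have hcyc := e1_cyc hC M K' K hK' hK hCh.dis
  have hInP : InPF (W⁄(𝓞 F)) p K' :=
    (inPF_iff hF.hp hF.unrF K').2 ⟨L, inferInstance, inferInstance, inferInstance, inferInstance, hL⟩
  have hsub := e3_sub (F := F) (W := W) hC M K' K L (hK := hK) hL.1 hL.2.1 hCh.good hF.down
  obtain ⟨hfin, hle⟩ := e3_count hC hF.hp M K' hcyc.sub (fun q hq' => (hCh.prm.hq q hq').1) (AnR p W K' K)
    (fun w hw => hsub w hw)
  have hgM := hcyc.gal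
  have hgK : IsGalois K' K := IsGalois.tower_top_of_isGalois M K' K
  refine ⟨fun ιK => ⟨ht, htn, hcyc, e2_unr hC hF.hp hCh.pl hCh.pQ hK hU, fun w h1 h2 => absurd h2 (hbad _ w h1), hF.bsd _ hInP,
    lt_of_le_of_lt (Nat.mul_le_mul_left 2 hle) hfew⟩, hfin, hle, ?_, ?_⟩
  · intro w hw
    obtain ⟨q, hq, hqw⟩ := hsub w hw
    refine ⟨q, hq, hqw, ?_⟩
    obtain ⟨P, hP⟩ := H55R.under_exists (L := K) w
    have hPw : w.asIdeal = P.asIdeal.under (𝓞 K') := by rw [← hP]; rfl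
    have hqP : (q : 𝓞 K) ∈ P.asIdeal := by
      rw [hPw, H57N.e3_nat] at hqw
      exact hqw
    rw [e3_eK K' K w P hPw]
    exact e3_ram hC M K' K hK' hK hCh.dis hq (hCh.prm.hq q hq).1 (hCh.prm.hq q hq).2.2.1 P hqP
  · intro q hq
    obtain ⟨h1, v, hv, hpv⟩ := hCh.pts q hq
    exact e3_lower hF.hp hC M K' K hK' hK hCh.dis q hq (hCh.prm.hlev q hq).1 (hCh.prm.hq q hq).1 (hCh.prm.hq q hq).2.2.1 h1 v hv hpv

theorem e6_pow (hp : p.Prime) (c t : ℕ) : ∃ n₀ : ℕ, t ≤ n₀ ∧ ∀ n, n₀ ≤ n → 2 * c < p ^ (n + 1 - t) := by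
  refine ⟨2 * c + t, by omega, fun n hn => ?_⟩
  have h1 : 2 * c + 1 ≤ n + 1 - t := by omega
  exact lt_of_lt_of_le (lt_of_lt_of_le (Nat.lt_succ_self _) (Nat.lt_pow_self hp.one_lt).le) (Nat.pow_le_pow_right hp.pos h1)

/-- Over a base field M which is Galois over F. -/
theorem e6_gal (hF : Fct (F := F) W p) (M : Type) [Field M] [NumberField M] [Algebra F M] (hM : ExtG (Gx (W⁄(𝓞 F)) p) p M)
    (ι : Type) [Fintype ι] (f : ι → ℕ) (t : ℕ) (ht : 1 ≤ t) (hf : ∀ x, 1 ≤ f x ∧ f x ≤ t) :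
    ∃ (K' K : Type) (_ : Field K') (_ : NumberField K') (_ : Field K) (_ : NumberField K)
      (_ : Algebra M K') (_ : Algebra K' K) (_ : Algebra M K) (_ : Algebra F K) (n : ℕ),
      IsGalois F K ∧ (∃ r : ℕ, Module.finrank F K = p ^ r) ∧ (∃ φ : (M ≃ₐ[F] M) →* (K ≃ₐ[F] K), Function.Injective φ) ∧
      (∀ ιK : K →ₐ[ℚ] AlgebraicClosure F, HypT F p n t W M K' K ιK) ∧ (AnR p W K' K).Finite ∧ ∃ g, Map p W K' K f g := by
  have hU : UnrP p M := ce_unr hF.hp hF.unrF (fun v h => h.1) hM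
  obtain ⟨n, htn, hn⟩ := e6_pow hF.hp (Fintype.card ι * Module.finrank ℚ M) t
  obtain ⟨l, Q, hQc, hQ⟩ := e4_choice hF.hp hF.ell hF.dir ht (hF.many t) M n (Fintype.card ι)
  obtain ⟨e, lev, hlev⟩ := e6_lev hQc f
  have hCh := hQ lev fun q hq => by rw [hlev ⟨q, hq⟩]; exact hf _
  obtain ⟨B, i1, i2, B', hC⟩ := c5_exists hCh.prm
  obtain ⟨j⟩ : Nonempty (B →+* AlgebraicClosure M) := ⟨(IsAlgClosed.lift : B →ₐ[ℚ] AlgebraicClosure M).toRingHom⟩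
  obtain ⟨j', hj'⟩ : ∃ j' : B' →+* AlgebraicClosure M, j' = j.comp (algebraMap B' B) := ⟨_, rfl⟩
  have hle : cE M j' ≤ cE M j := by rw [hj']; exact p5_mono M j _
  letI nK : NumberField (cE M j) := p5_num M j
  letI nK' : NumberField (cE M j') := p5_num M j'
  letI aB : Algebra B (cE M j) := cAlg M j
  letI aB' : Algebra B' (cE M j') := cAlg M j'
  letI aKK : Algebra (cE M j') (cE M j) := (IntermediateField.inclusion hle).toRingHom.toAlgebra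
  haveI tM : IsScalarTower M (cE M j') (cE M j) := IsScalarTower.of_algebraMap_eq fun _ => rfl
  letI aF : Algebra F (cE M j) := ((algebraMap M (cE M j)).comp (algebraMap F M)).toAlgebra
  haveI tF : IsScalarTower F M (cE M j) := IsScalarTower.of_algebraMap_eq fun _ => rfl
  letI aF' : Algebra F (cE M j') := ((algebraMap M (cE M j')).comp (algebraMap F M)).toAlgebra
  haveI tF' : IsScalarTower F M (cE M j') := IsScalarTower.of_algebraMap_eq fun _ => rfl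
  have hc : Cmp M B (cE M j) := p5_cmp M j
  have hc' : Cmp M B' (cE M j') := p5_cmp M j'
  haveI gB := hC.gal
  haveI gB' := hC.gal'
  haveI gM := hM.1
  have hcyc := e1_cyc hC M (cE M j') (cE M j) hc' hc hCh.dis
  have hext : ExtG (Gx (W⁄(𝓞 F)) p) p (cE M j') := e1_ext hC M (cE M j') hc' hM hCh.dis hCh.good
  have hcop : IsCoprime (discr M) (discr B) := p2_cop M B fun r hr hrd w hw => hC.unr w r hr hw (hCh.dis r hr hrd).1 (hCh.dis r hr hrd).2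
  have hgK : IsGalois F (cE M j) := p3_gal (F := F) hc
  obtain ⟨k, hk⟩ := hM.2.1
  have hdK : @Module.finrank F (cE M j) _ _ aF.toModule = p ^ (k + (n + t)) := by
    rw [e6_deg F M (cE M j), hk, hcyc.deg, ← pow_add]
  obtain ⟨h1, h2, h3, h4, h5⟩ := e6_core hF ht htn hC M (cE M j') (cE M j) (cE M j') hCh hc' hc hext hU
    (hF.bad M M hM.1 hM.2.1) (by rw [hQc]; exact hn n le_rfl)
  exact ⟨cE M j', cE M j, inferInstance, nK', inferInstance, nK, inferInstance, aKK, inferInstance, aF, n, hgK, ⟨_, hdK⟩,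
    e4_emb (F := F) hc hcop, h1, h2, e6_map e hlev (fun q hq' => (hCh.prm.hq q hq').1) h4 h5⟩

theorem e6_exist (hF : Fct (F := F) W p) (hE : ∀ (H : Type) [Group H] [Finite H] (k : ℕ), Nat.card H = p ^ k → ∀ B : ℕ,
    EmbP (Gx (W⁄(𝓞 F)) p) p H B) : H13V.ExistT F p W := by
  intro H _ _ k hk R₀ t ht
  obtain ⟨M, i1, i2, i3, hM, φ, hφ⟩ := hE H k hk 0
  obtain ⟨K', K, j1, j2, j3, j4, j5, j6, j7, j8, n, h1, h2, ⟨ψ, hψ⟩, h3, hfin, g, hg1, hg2⟩ :=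
    e6_gal hF M hM.1 (Fin R₀) (fun _ => t) t ht (fun _ => ⟨ht, le_rfl⟩)
  refine ⟨M, K', K, i1, i2, j1, j2, j3, j4, j5, j6, j7, j8, n, h1, h2, ⟨ψ.comp φ, hψ.comp hφ⟩, h3, ?_, fun w hw => hg2 ⟨w, hw⟩⟩
  have hf : Finite (AnR p W K' K) := hfin
  have h4 := Nat.card_le_card_of_surjective g hg1
  rw [Nat.card_fin, Nat.card_coe_set_eq] at h4
  exact h4

/-- The group A and its exponents. -/
theorem e6_grp (hp : p.Prime) (A : Type) [AddCommGroup A] [Finite A] (m : ℕ) (hA : Nat.card A = p ^ m) :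
    ∃ (ι : Type) (_ : Fintype ι) (f : ι → ℕ) (t : ℕ), 1 ≤ t ∧ (∀ x, 1 ≤ f x ∧ f x ≤ t) ∧ Nonempty (A ≃+ ((x : ι) → ZMod (p ^ f x))) ∧
      ∀ x, p ^ f x ∣ AddMonoid.exponent A := by
  obtain ⟨ι, hι, f, hf, ⟨e⟩⟩ := g1_dec hp A m hA
  refine ⟨ι, hι, f, 1 + ∑ x, f x, by omega, fun x => ⟨hf x, ?_⟩, ⟨e⟩, g1_exp f e⟩
  have h1 := Finset.single_le_sum (f := f) (fun _ _ => Nat.zero_le _) (Finset.mem_univ x)
  omega

theorem e6_existHA (hF : Fct (F := F) W p) (hE : ∀ (H : Type) [Group H] [Finite H] (k : ℕ), Nat.card H = p ^ k → ∀ B : ℕ,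
    EmbP (Gx (W⁄(𝓞 F)) p) p H B) : ExistHA F p W := by
  intro H _ _ k hk A _ _ m hA
  obtain ⟨M, i1, i2, i3, hM, φ, hφ⟩ := hE H k hk 0
  obtain ⟨ι, hι, f, t, ht, hf, ⟨eA⟩, hexp⟩ := e6_grp hF.hp A m hA
  obtain ⟨K', K, j1, j2, j3, j4, j5, j6, j7, j8, n, h1, h2, ⟨ψ, hψ⟩, h3, hfin, g, hg1, hg2⟩ :=
    e6_gal hF M hM.1 ι f t ht hf
  obtain ⟨j, hj⟩ := g1_emb g hg1 (fun w => eK K w.1) (fun x => p ^ f x) hg2
  refine ⟨M, K', K, i1, i2, j1, j2, j3, j4, j5, j6, j7, j8, n, t, h1, h2, ⟨ψ.comp φ, hψ.comp hφ⟩, h3,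
    ⟨j.comp eA.toAddMonoidHom, hj.comp eA.injective⟩, fun w hw => ?_⟩
  rw [hg2 ⟨w, hw⟩]
  exact hexp _

/-- The facts for the curves with complex multiplication by the maximal order. -/
theorem e6_fct {Om : ℂ} {m : Ideal (𝓞 F)} {ψ : Ideal (𝓞 F) →*₀ 𝓞 F} (hH : BaseH F (W⁄(𝓞 F)) Om m ψ) (hp : PrimeH F (W⁄(𝓞 F)) p)
    (hA : AnUnitG p W ℚ) : Fct (F := F) W p where
  toFct := H57N.e6_fct hH hp hA
  many := d4_manyQ hH hp

open H28I in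
/-- The facts for the isogenous curves. -/
theorem e6_fct_iso {W' : WeierstrassCurve ℤ} {Om : ℂ} {m : Ideal (𝓞 F)}
    {ψ : Ideal (𝓞 F) →*₀ 𝓞 F} {kap : ℤ} {e s u lam : ℚ} (h : TW F W W' Om m ψ kap e s u lam) (hp' : PrimeH F (W'⁄(𝓞 F)) p)
    (hA : AnUnitG p W' ℚ) : Fct (F := F) W' p where
  toFct := H57N.e6_fct_iso h hp' hA
  many := e5_manyQ h hp'

/-- EXISTENCE for the maximal order. -/
theorem exist_main {Om : ℂ} {m : Ideal (𝓞 F)} {ψ : Ideal (𝓞 F) →*₀ 𝓞 F} (hH : BaseH F (W⁄(𝓞 F)) Om m ψ)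
    (hp : PrimeH F (W⁄(𝓞 F)) p) (hA : AnUnitG p W ℚ) : H13V.ExistT F p W :=
  e6_exist (e6_fct hH hp hA) (rich_of hH hp).emb

theorem existHA_main {Om : ℂ} {m : Ideal (𝓞 F)} {ψ : Ideal (𝓞 F) →*₀ 𝓞 F} (hH : BaseH F (W⁄(𝓞 F)) Om m ψ)
    (hp : PrimeH F (W⁄(𝓞 F)) p) (hA : AnUnitG p W ℚ) : ExistHA F p W :=
  e6_existHA (e6_fct hH hp hA) (rich_of hH hp).emb

open H28I in
/-- EXISTENCE for the isogenous curves. -/
theorem exist_iso {W' : WeierstrassCurve ℤ} {Om : ℂ} {m : Ideal (𝓞 F)}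
    {ψ : Ideal (𝓞 F) →*₀ 𝓞 F} {kap : ℤ} {e s u lam : ℚ} (h : TW F W W' Om m ψ kap e s u lam) (hp' : PrimeH F (W'⁄(𝓞 F)) p)
    (hA : AnUnitG p W' ℚ) : H13V.ExistT F p W' :=
  e6_exist (e6_fct_iso h hp' hA) (rich_iso h hp').1.emb

open H28I in
theorem existHA_iso {W' : WeierstrassCurve ℤ} {Om : ℂ} {m : Ideal (𝓞 F)}
    {ψ : Ideal (𝓞 F) →*₀ 𝓞 F} {kap : ℤ} {e s u lam : ℚ} (h : TW F W W' Om m ψ kap e s u lam) (hp' : PrimeH F (W'⁄(𝓞 F)) p)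
    (hA : AnUnitG p W' ℚ) : ExistHA F p W' :=
  e6_existHA (e6_fct_iso h hp' hA) (rich_iso h hp').1.emb

end H57TX
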