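import Mathlib
import Pool.Agent.Lib.H57TX.E6

/-! # H57TX: the inverse theorem over ℚ (assembly) -/

open NumberField IsDedekindDomain WeierstrassCurve

namespace H57TX

open H28T
open H55P H55R
open H55K H55K.TQ
open H57N (Cmp cE cAlg p5_num p5_cmp p2_unr c4_le e2_iff)
open H13T (AnR)
open H13V (eK HypT)

variable {F : Type} [Field F] [NumberField F] [IQ F] {W : WeierstrassCurve ℤ} {p : ℕ}

/-- The base field is in the class. -/
theorem e7_base (G : HeightOneSpectrum (𝓞 F) → Prop) : ExtG G p F := by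
  refine ⟨inferInstance, ⟨0, by rw [pow_zero]; exact Module.finrank_self F⟩, ?_⟩
  intro w v _ _
  have hwp := w.isPrime
  have h1 := c4_le (K1 := F) w
  rw [Module.finrank_self] at h1
  have h2 := Ideal.ramificationIdx_pos w.asIdeal (𝓞 F)
  have h3 := Ideal.inertiaDeg_pos w.asIdeal (𝓞 F)
  have h4 : w.asIdeal.ramificationIdx (𝓞 F) ≤ 1 := (Nat.le_mul_of_pos_right _ h3).trans h1
  exact le_antisymm h4 h2

/-- A surjective algebra map generates. -/
theorem e7_cmp {C B E : Type} [Field C] [Field B] [Field E] [Algebra C E] [Algebra B E] (hs : Function.Surjective (algebraMap B E)) :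
    Cmp C B E := by
  refine ⟨?_⟩
  rw [hs.range_eq, IntermediateField.adjoin_univ]

theorem e7_core (hF : Fct (F := F) W p) {n t l : ℕ} {Q : Finset ℕ} {lev : ℕ → ℕ} (ht : 1 ≤ t) (htn : t ≤ n)
    {B : Type} [Field B] [NumberField B] {B' : IntermediateField ℚ B} (hC : Cy p n t l Q lev B B')
    (K' K L : Type) [Field K'] [NumberField K'] [Field K] [NumberField K] [Field L] [NumberField L]
    [Algebra K' K] [Algebra B' K'] [Algebra B K] [Algebra K' L] [Algebra F L] [Algebra B' L]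
    (hCh : Ch F W p n t l Q lev F) (hs' : Function.Surjective (algebraMap B' K')) (hs : Function.Surjective (algebraMap B K))
    (hL : Cmp F B' L) (hfew : 2 * Q.card < p ^ (n + 1 - t)) :
    (∀ ιK : K →ₐ[ℚ] AlgebraicClosure F, HypT F p n t W ℚ K' K ιK) ∧ (AnR p W K' K).Finite ∧
      (AnR p W K' K).ncard ≤ Q.card ∧
      (∀ w ∈ AnR p W K' K, ∃ q ∈ Q, (q : 𝓞 K') ∈ w.asIdeal ∧ eK K w = p ^ lev q) ∧
      ∀ q ∈ Q, ∃ w ∈ AnR p W K' K, (q : 𝓞 K') ∈ w.asIdeal := by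
  haveI tQ : IsScalarTower ℚ K' K := IsScalarTower.of_algebraMap_eq' (Subsingleton.elim _ _)
  have hnd : ∀ r : ℕ, r.Prime → ¬ (r : ℤ) ∣ discr ℚ := by
    intro r hr h1
    rw [Rat.numberField_discr] at h1
    have h2 := Int.natAbs_dvd_natAbs.2 h1
    simp only [Int.natAbs_natCast, Int.natAbs_one, Nat.dvd_one] at h2
    exact hr.one_lt.ne' h2
  have hCh' : Ch F W p n t l Q lev ℚ := ⟨hCh.prm, hCh.good, fun r hr h1 => absurd h1 (hnd r hr), hCh.pl, hCh.pQ, hCh.pts⟩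
  have hU : UnrP p ℚ := (e2_iff ℚ hF.hp).2 ((p2_unr ℚ hF.hp).1 (hnd p hF.hp))
  have hext : ExtG (Gx (W⁄(𝓞 F)) p) p L := e1_ext hC F L hL (e7_base _) hCh.dis hCh.good
  have h := e6_core hF ht htn hC ℚ K' K L hCh' (e7_cmp hs') (e7_cmp hs) hext hU
    (hF.bad ℚ F inferInstance ⟨0, by rw [pow_zero]; exact Module.finrank_self F⟩)
    (by rw [Module.finrank_self, mul_one]; exact hfew)
  rw [Module.finrank_self, mul_one] at h
  exact h

theorem e7_exist (hF : Fct (F := F) W p) : ExistA F p W := by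
  intro A _ _ m hA
  obtain ⟨ι, hι, f, t, ht, hf, ⟨eA⟩, hexp⟩ := e6_grp hF.hp A m hA
  obtain ⟨n₀, htn, hn⟩ := e6_pow hF.hp (Fintype.card ι) t
  refine ⟨n₀ + t, t, fun n hnt => ?_⟩
  have hn0 : n₀ ≤ n := by omega
  obtain ⟨l, Q, hQc, hQ⟩ := e4_choice hF.hp hF.ell hF.dir ht (hF.many t) F n (Fintype.card ι)
  obtain ⟨e, lev, hlev⟩ := e6_lev hQc f
  have hCh := hQ lev fun q hq => by rw [hlev ⟨q, hq⟩]; exact hf _
  obtain ⟨B, i1, i2, B', hC⟩ := c5_exists hCh.prm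
  obtain ⟨j⟩ : Nonempty (B →+* AlgebraicClosure F) := ⟨(IsAlgClosed.lift : B →ₐ[ℚ] AlgebraicClosure F).toRingHom⟩
  obtain ⟨j', hj'⟩ : ∃ j' : B' →+* AlgebraicClosure F, j' = j.comp (algebraMap B' B) := ⟨_, rfl⟩
  letI nL : NumberField (cE F j') := p5_num F j'
  letI aL : Algebra B' (cE F j') := cAlg F j'
  obtain ⟨h1, h2, h3, h4, h5⟩ := e7_core hF ht (htn.trans hn0) hC B' B (cE F j') hCh Function.surjective_id Function.surjective_id
    (p5_cmp F j') (by rw [hQc]; exact hn n hn0)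
  obtain ⟨g, hg1, hg2⟩ := e6_map e hlev (fun q hq' => (hCh.prm.hq q hq').1) h4 h5
  have hfi : Finite (AnR p W B' B) := h2
  have hbij : Function.Bijective g := by
    refine (Nat.bijective_iff_surjective_and_card g).2 ⟨hg1, le_antisymm ?_ (Nat.card_le_card_of_surjective g hg1)⟩
    rw [Nat.card_coe_set_eq, Nat.card_eq_fintype_card, ← hQc]
    exact h3
  obtain ⟨e1⟩ := g1_iso g hbij (fun w => eK B w.1) (fun x => p ^ f x) hg2
  obtain ⟨ιK⟩ : Nonempty (B →ₐ[ℚ] AlgebraicClosure F) := ⟨IsAlgClosed.lift⟩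
  have h6 := (h1 ιK).cyc
  exact ⟨B', B, inferInstance, inferInstance, i1, i2, inferInstance, h6.gal, h6.cyc, h6.deg, h1, ⟨e1.trans eA.symm⟩⟩

/-- THE INVERSE THEOREM for the maximal order. -/
theorem existA_main {Om : ℂ} {m : Ideal (𝓞 F)} {ψ : Ideal (𝓞 F) →*₀ 𝓞 F} (hH : BaseH F (W⁄(𝓞 F)) Om m ψ)
    (hp : PrimeH F (W⁄(𝓞 F)) p) (hA : AnUnitG p W ℚ) : ExistA F p W :=
  e7_exist (e6_fct hH hp hA)

open H28I in
/-- THE INVERSE THEOREM for the isogenous curves. -/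
theorem existA_iso {W' : WeierstrassCurve ℤ} {Om : ℂ} {m : Ideal (𝓞 F)}
    {ψ : Ideal (𝓞 F) →*₀ 𝓞 F} {kap : ℤ} {e s u lam : ℚ} (h : TW F W W' Om m ψ kap e s u lam) (hp' : PrimeH F (W'⁄(𝓞 F)) p)
    (hA : AnUnitG p W' ℚ) : ExistA F p W' :=
  e7_exist (e6_fct_iso h hp' hA)

end H57TX
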