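import Mathlib
import Pool.Agent.Lib.H57TX.E7
import Pool.Agent.Lib.H57N.E8

/-! # H57TX: the real version; the inverse theorem from the theorem (T) -/

open NumberField IsDedekindDomain WeierstrassCurve

namespace H57TX

open H28T
open H55P H55R
open H55K H55K.TQ
open H57N (Cmp cE cAlg p5_num p5_cmp p5_mono p5_up p3_gal p2_cop p2_deg e6_deg e2_iff p4_towerZ e7_real e7_subq e7_galQ)
open H13T (AnR)
open H13V (eK HypT AtKT ShaThmT ShaG)

variable {F : Type} [Field F] [NumberField F] [IQ F] {W : WeierstrassCurve ℤ} {p : ℕ}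

/-- Over a base field M contained in a field N₀ of the class. -/
theorem e8_real (hF : Fct (F := F) W p) (h2 : p ≠ 2) (M N₀ : Type) [Field M] [NumberField M] [Field N₀] [NumberField N₀] [Algebra F N₀]
    [Algebra M N₀] (hN : ExtG (Gx (W⁄(𝓞 F)) p) p N₀) (hQ : IsGalois ℚ N₀) (hMN : Module.finrank M N₀ = 2)
    (hre : 0 < InfinitePlace.nrRealPlaces M) (H : Type) [Group H] (hH : H28R.SubQ (N₀ ≃ₐ[F] N₀) H)
    (ι : Type) [Fintype ι] (f : ι → ℕ) (t : ℕ) (ht : 1 ≤ t) (hf : ∀ x, 1 ≤ f x ∧ f x ≤ t) :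
    ∃ (K' K : Type) (_ : Field K') (_ : NumberField K') (_ : Field K) (_ : NumberField K)
      (_ : Algebra M K') (_ : Algebra K' K) (_ : Algebra M K) (n : ℕ),
      0 < InfinitePlace.nrRealPlaces K ∧
      (∀ ιK : K →ₐ[ℚ] AlgebraicClosure F, HypT F p n t W M K' K ιK) ∧ (∃ g, Map p W K' K f g) ∧
      ∃ (N : Type) (_ : Field N) (_ : NumberField N) (_ : Algebra F N) (_ : Algebra K N),
        Module.finrank K N = 2 ∧ IsGalois ℚ N ∧ (∃ r : ℕ, Module.finrank F N = p ^ r) ∧ H28R.SubQ (N ≃ₐ[F] N) H := by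
  have hUN : UnrP p N₀ := ce_unr hF.hp hF.unrF (fun v h => h.1) hN
  obtain ⟨n, htn, hn⟩ := e6_pow hF.hp (Fintype.card ι * Module.finrank ℚ M) t
  obtain ⟨l, Q, hQc, hQ'⟩ := e4_choice hF.hp hF.ell hF.dir ht (hF.many t) N₀ n (Fintype.card ι)
  obtain ⟨e, lev, hlev⟩ := e6_lev hQc f
  have hCh := hQ' lev fun q hq => by rw [hlev ⟨q, hq⟩]; exact hf _
  obtain ⟨B, i1, i2, B', hC⟩ := c5_exists hCh.prm
  have hChM : Ch F W p n t l Q lev M := ⟨hCh.prm, hCh.good, fun r hr h => hCh.dis r hr (h.trans (discr_dvd_discr M N₀)),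
    hCh.pl, hCh.pQ, hCh.pts⟩
  obtain ⟨j⟩ : Nonempty (B →+* AlgebraicClosure N₀) := ⟨(IsAlgClosed.lift : B →ₐ[ℚ] AlgebraicClosure N₀).toRingHom⟩
  obtain ⟨j', hj'⟩ : ∃ j' : B' →+* AlgebraicClosure N₀, j' = j.comp (algebraMap B' B) := ⟨_, rfl⟩
  haveI tMΩ : IsScalarTower M N₀ (AlgebraicClosure N₀) := inferInstance
  have hle : cE M j' ≤ cE M j := by rw [hj']; exact p5_mono M j _
  have hle' : cE N₀ j' ≤ cE N₀ j := by rw [hj']; exact p5_mono N₀ j _
  letI nK : NumberField (cE M j) := p5_num M j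
  letI nK' : NumberField (cE M j') := p5_num M j'
  letI nL : NumberField (cE N₀ j) := p5_num N₀ j
  letI nL' : NumberField (cE N₀ j') := p5_num N₀ j'
  letI aB : Algebra B (cE M j) := cAlg M j
  letI aB' : Algebra B' (cE M j') := cAlg M j'
  letI bB : Algebra B (cE N₀ j) := cAlg N₀ j
  letI bB' : Algebra B' (cE N₀ j') := cAlg N₀ j'
  letI aKK : Algebra (cE M j') (cE M j) := (IntermediateField.inclusion hle).toRingHom.toAlgebra
  haveI tM : IsScalarTower M (cE M j') (cE M j) := IsScalarTower.of_algebraMap_eq fun _ => rfl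
  letI aF : Algebra F (cE N₀ j) := ((algebraMap N₀ (cE N₀ j)).comp (algebraMap F N₀)).toAlgebra
  haveI tF : IsScalarTower F N₀ (cE N₀ j) := IsScalarTower.of_algebraMap_eq fun _ => rfl
  letI aF' : Algebra F (cE N₀ j') := ((algebraMap N₀ (cE N₀ j')).comp (algebraMap F N₀)).toAlgebra
  haveI tF' : IsScalarTower F N₀ (cE N₀ j') := IsScalarTower.of_algebraMap_eq fun _ => rfl
  -- K → L and K' → L'
  letI aKL : Algebra (cE M j) (cE N₀ j) :=
    (({ toFun := fun x => ⟨x, p5_up M N₀ j x x.2⟩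
        map_one' := rfl
        map_mul' := fun _ _ => rfl
        map_zero' := rfl
        map_add' := fun _ _ => rfl } : (cE M j) →+* (cE N₀ j))).toAlgebra
  letI aKL' : Algebra (cE M j') (cE N₀ j') :=
    (({ toFun := fun x => ⟨x, p5_up M N₀ j' x x.2⟩
        map_one' := rfl
        map_mul' := fun _ _ => rfl
        map_zero' := rfl
        map_add' := fun _ _ => rfl } : (cE M j') →+* (cE N₀ j'))).toAlgebra
  letI aML : Algebra M (cE N₀ j) := ((algebraMap N₀ (cE N₀ j)).comp (algebraMap M N₀)).toAlgebra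
  haveI t1 : IsScalarTower M N₀ (cE N₀ j) := IsScalarTower.of_algebraMap_eq fun _ => rfl
  haveI t2 : IsScalarTower M (cE M j) (cE N₀ j) := IsScalarTower.of_algebraMap_eq fun _ => rfl
  have hc : Cmp M B (cE M j) := p5_cmp M j
  have hc' : Cmp M B' (cE M j') := p5_cmp M j'
  have hL : Cmp N₀ B (cE N₀ j) := p5_cmp N₀ j
  have hL' : Cmp N₀ B' (cE N₀ j') := p5_cmp N₀ j'
  haveI gB := hC.gal
  haveI gB' := hC.gal'
  haveI gN := hN.1
  have hcyc := e1_cyc hC M (cE M j') (cE M j) hc' hc hChM.dis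
  have hext : ExtG (Gx (W⁄(𝓞 F)) p) p (cE N₀ j') := e1_ext hC N₀ (cE N₀ j') hL' hN hCh.dis hCh.good
  haveI hgK : IsGalois M (cE M j) := hcyc.gal
  haveI hgL : IsGalois F (cE N₀ j) := p3_gal (F := F) hL
  have hcop : IsCoprime (discr N₀) (discr B) := p2_cop N₀ B fun r hr hrd w hw => hC.unr w r hr hw (hCh.dis r hr hrd).1 (hCh.dis r hr hrd).2
  have hdL : Module.finrank N₀ (cE N₀ j) = p ^ (n + t) := (p2_deg hL hcop).1.trans hC.deg
  obtain ⟨k, hk⟩ := hN.2.1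
  have hdF : @Module.finrank F (cE N₀ j) _ _ aF.toModule = p ^ (k + (n + t)) := by
    rw [e6_deg F N₀ (cE N₀ j), hk, hdL, ← pow_add]
  have hdKL : @Module.finrank (cE M j) (cE N₀ j) _ _ aKL.toModule = 2 := by
    have h1 := e6_deg M (cE M j) (cE N₀ j)
    have h3 := e6_deg M N₀ (cE N₀ j)
    rw [hdL, hMN] at h3
    rw [hcyc.deg, h3, mul_comm] at h1
    exact (Nat.eq_of_mul_eq_mul_left (Nat.pow_pos hF.hp.pos) h1).symm
  have hUM : UnrP p M := by
    rw [e2_iff M hF.hp]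
    intro w hw
    obtain ⟨P, hP⟩ := under_exists (L := N₀) w
    have hPw : w.asIdeal = P.asIdeal.under (𝓞 M) := by rw [← hP]; rfl
    have hpP : (p : 𝓞 N₀) ∈ P.asIdeal := by
      have h1 : (p : 𝓞 M) ∈ P.asIdeal.under (𝓞 M) := hPw ▸ hw
      rw [Ideal.mem_under, map_natCast] at h1
      exact h1
    have h1 := (e2_iff N₀ hF.hp).1 hUN P hpP
    rw [(p4_towerZ P w hPw).1] at h1
    exact Nat.eq_one_of_mul_eq_one_right h1
  obtain ⟨h1, h3, h4, h5, h6⟩ := e6_core hF ht htn hC M (cE M j') (cE M j) (cE N₀ j') hChM hc' hc hext hUM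
    (hF.bad M N₀ hN.1 hN.2.1) (by rw [hQc]; exact hn n le_rfl)
  refine ⟨cE M j', cE M j, inferInstance, nK', inferInstance, nK, inferInstance, aKK, inferInstance, n,
    e7_real M (cE M j) ?_ hre, h1, e6_map e hlev (fun q hq' => (hCh.prm.hq q hq').1) h5 h6,
    cE N₀ j, inferInstance, nL, aF, aKL, hdKL, e7_galQ N₀ B (cE N₀ j) hL, ⟨_, hdF⟩, e7_subq (F := F) (N := N₀) (L := cE N₀ j) H hH⟩
  rw [hcyc.deg]
  exact (hF.hp.odd_of_ne_two h2).pow

theorem e8_exist (hF : Fct (F := F) W p) (h2 : p ≠ 2) (hE : ∀ (H : Type) [Group H] [Finite H] (k : ℕ), Nat.card H = p ^ k →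
    RealG (W⁄(𝓞 F)) p H) : ExistRealHA F p W := by
  intro H _ _ k hk A _ _ m hA
  obtain ⟨M, i1, i2, hre, -, N₀, j1, j2, j3, j4, hMN, hQ, hN, hH⟩ := hE H k hk
  obtain ⟨ι, hι, f, t, ht, hf, ⟨eA⟩, hexp⟩ := e6_grp hF.hp A m hA
  obtain ⟨K', K, a1, a2, a3, a4, a5, a6, a7, n, h1, h3, ⟨g, hg1, hg2⟩, h5⟩ := e8_real hF h2 M N₀ hN hQ hMN hre H hH ι f t ht hf
  obtain ⟨j, hj⟩ := g1_emb g hg1 (fun w => eK K w.1) (fun x => p ^ f x) hg2
  refine ⟨M, K', K, i1, i2, a1, a2, a3, a4, a5, a6, a7, n, t, h1, h3, ⟨j.comp eA.toAddMonoidHom, hj.comp eA.injective⟩, fun w hw => ?_, h5⟩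
  rw [hg2 ⟨w, hw⟩]
  exact hexp _

/-- EXISTENCE, real version, for the maximal order. -/
theorem realHA_main {Om : ℂ} {m : Ideal (𝓞 F)} {ψ : Ideal (𝓞 F) →*₀ 𝓞 F} (hH : BaseH F (W⁄(𝓞 F)) Om m ψ)
    (hp : PrimeH F (W⁄(𝓞 F)) p) (hA : AnUnitG p W ℚ) : ExistRealHA F p W :=
  e8_exist (e6_fct hH hp hA) (by have := hp.five; omega) (fun H _ _ k hk => real_Q hH hp H k hk)

open H28I in
/-- EXISTENCE, real version, for the isogenous curves. -/
theorem realHA_iso {W' : WeierstrassCurve ℤ} {Om : ℂ} {m : Ideal (𝓞 F)}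
    {ψ : Ideal (𝓞 F) →*₀ 𝓞 F} {kap : ℤ} {e s u lam : ℚ} (h : TW F W W' Om m ψ kap e s u lam) (hp' : PrimeH F (W'⁄(𝓞 F)) p)
    (hA : AnUnitG p W' ℚ) : ExistRealHA F p W' :=
  e8_exist (e6_fct_iso h hp' hA) (by have := hp'.five; omega) (rich_iso h hp').2

/-- A Galois extension of ℚ of odd degree is totally real. -/
theorem e8_tot (K : Type) [Field K] [NumberField K] [IsGalois ℚ K] (ho : Odd (Module.finrank ℚ K)) : IsTotallyReal K := by
  have h1 : IsUnramifiedAtInfinitePlaces ℚ K := IsUnramifiedAtInfinitePlaces_of_odd_finrank ho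
  refine ⟨fun w => ?_⟩
  have h2 := (InfinitePlace.isUnramified_iff (k := ℚ)).1 (InfinitePlace.isUnramified ℚ w)
  rcases h2 with h2 | h2
  · exact h2
  · exact absurd (IsTotallyReal.isReal (w.comap (algebraMap ℚ K))) (InfinitePlace.not_isReal_iff_isComplex.2 h2)

/-- THE INVERSE THEOREM from the theorem (T) and the existence theorem. -/
theorem inv_of (hp : p.Prime) (h2 : p ≠ 2) (hT : ShaThmT F p W) (hE : ExistA F p W) : InvA p W := by
  intro A _ _ m hA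
  obtain ⟨d₀, t, h⟩ := hE A m hA
  refine ⟨d₀ + t, fun d hd => ?_⟩
  obtain ⟨K', K, i1, i2, i3, i4, i5, hg, hc, hdeg, hyp, ⟨e⟩⟩ := h (d - t) (by omega)
  have hdt : d - t + t = d := by omega
  rw [hdt] at hdeg
  obtain ⟨ιK⟩ : Nonempty (K →ₐ[ℚ] AlgebraicClosure F) := ⟨IsAlgClosed.lift⟩
  have hAt := hT ℚ K' K ιK (d - t) t (hyp ιK)
  obtain ⟨e1⟩ := hAt.sha
  have e2 : ((w : AnR p W K' K) → ZMod (eK K w.1) × ZMod (eK K w.1)) ≃+
      ((w : AnR p W K' K) → ZMod (eK K w.1)) × ((w : AnR p W K' K) → ZMod (eK K w.1)) :=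
    { toFun := fun u => (fun w => (u w).1, fun w => (u w).2)
      invFun := fun v w => (v.1 w, v.2 w)
      left_inv := fun _ => rfl
      right_inv := fun _ => rfl
      map_add' := fun _ _ => rfl }
  have e3 : ShaG p K (W⁄K) ≃+ A × A := e1.trans (e2.trans (AddEquiv.prodCongr e e))
  have hcard : Nat.card (ShaG p K (W⁄K)) = Nat.card A ^ 2 := by
    rw [Nat.card_congr e3.toEquiv, Nat.card_prod, pow_two]
  obtain ⟨Λ, hΛ1, hΛ2, hΛ3, hΛ4⟩ := hAt.bsd
  refine ⟨K, i3, i4, hg, hc, hdeg, e8_tot K ?_, hAt.pts, ⟨e3⟩, hAt.per, Λ, hΛ1, hΛ2, hΛ3, ?_⟩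
  · rw [hdeg]
    exact (hp.odd_of_ne_two h2).pow
  · intro L hL V hV
    rw [← hcard]
    exact hΛ4 L hL V hV

end H57TX
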