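import Mathlib
import Pool.Agent.Lib.H57TX.E8

/-! # H57TX: the inverse theorem, explicit form -/

open NumberField IsDedekindDomain WeierstrassCurve

namespace H57TX

open H28T
open H55P H55R
open H55K H55K.TQ
open H57N (Cmp cE cAlg p5_num p5_cmp p2_unr)
open H13T (AnR)
open H13V (eK HypT AtKT ShaThmT ShaG)

variable {F : Type} [Field F] [NumberField F] [IQ F] {W : WeierstrassCurve ℤ} {p : ℕ}

/-- The prime l is ramified in B. -/
theorem e9_disc {n t l : ℕ} {Q : Finset ℕ} {lev : ℕ → ℕ} {B : Type} [Field B] [NumberField B] {B' : IntermediateField ℚ B}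
    (h : Cy p n t l Q lev B B') (hp : p.Prime) (hn : 1 ≤ n) : l ≤ (discr B).natAbs := by
  have h0 : (discr B).natAbs ≠ 0 := Int.natAbs_ne_zero.2 (discr_ne_zero B)
  refine Nat.le_of_dvd (Nat.pos_of_ne_zero h0) ?_
  by_contra hl
  have hl' : ¬ (l : ℤ) ∣ discr B' := fun h1 => hl (Int.natCast_dvd.1 (h1.trans (discr_dvd_discr B' B)))
  have hall : ∀ r : ℕ, r.Prime → ¬ (r : ℤ) ∣ discr B' := by
    intro r hr
    by_cases hrl : r = l
    · rw [hrl]
      exact hl'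
    · exact (p2_unr B' hr).2 fun w hw => h.unr' w r hr hw hrl
  have h1 : (discr B').natAbs = 1 := by
    by_contra hne
    obtain ⟨r, hr, hrd⟩ := Nat.exists_prime_and_dvd hne
    exact hall r hr (Int.natCast_dvd.2 hrd)
  have h2 : 1 < Module.finrank ℚ B' := by
    rw [h.deg']
    exact Nat.one_lt_pow (by omega) hp.one_lt
  have h3 := abs_discr_gt_two h2
  rw [Int.abs_eq_natAbs, h1] at h3
  norm_num at h3

/-- A finite abelian group killed by p^t has p-power order. -/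
theorem e9_card (hp : p.Prime) (A : Type) [AddCommGroup A] [Finite A] (t : ℕ) (h : ∀ a : A, p ^ t • a = 0) :
    ∃ m : ℕ, Nat.card A = p ^ m := by
  haveI : Fact p.Prime := ⟨hp⟩
  have h1 : IsPGroup p (Multiplicative A) := fun g => ⟨t, h g.toAdd⟩
  obtain ⟨m, hm⟩ := IsPGroup.iff_card.1 h1
  exact ⟨m, hm⟩

theorem e9_exist (hF : Fct (F := F) W p) : ExistE F p W := by
  intro A _ _ r t n hgen hkill ht htn hfew X
  obtain ⟨m, hA⟩ := e9_card hF.hp A t hkill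
  obtain ⟨ι, hι, f, hf, ⟨eA⟩⟩ := g1_dec hF.hp A m hA
  obtain ⟨S, hS, hSc⟩ := hgen
  have hcard := g1_gen hF.hp f hf eA r S hS hSc
  have hft := g1_le hF.hp f eA t hkill
  obtain ⟨l, Q, hlX, hQc, hQ⟩ := e4_choiceX hF.hp hF.ell hF.dir ht (hF.many t) F n (Fintype.card ι) X
  obtain ⟨e, lev, hlev⟩ := e6_lev hQc f
  have hCh := hQ lev fun q hq => by rw [hlev ⟨q, hq⟩]; exact ⟨hf _, hft _⟩
  obtain ⟨B, i1, i2, B', hC⟩ := c5_exists hCh.prm
  obtain ⟨j⟩ : Nonempty (B →+* AlgebraicClosure F) := ⟨(IsAlgClosed.lift : B →ₐ[ℚ] AlgebraicClosure F).toRingHom⟩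
  obtain ⟨j', hj'⟩ : ∃ j' : B' →+* AlgebraicClosure F, j' = j.comp (algebraMap B' B) := ⟨_, rfl⟩
  letI nL : NumberField (cE F j') := p5_num F j'
  letI aL : Algebra B' (cE F j') := cAlg F j'
  obtain ⟨h1, h2, h3, h4, h5⟩ := e7_core hF ht htn hC B' B (cE F j') hCh Function.surjective_id Function.surjective_id
    (p5_cmp F j') (by rw [hQc]; exact lt_of_le_of_lt (Nat.mul_le_mul_left 2 hcard) hfew)
  obtain ⟨g, hg1, hg2⟩ := e6_map e hlev (fun q hq' => (hCh.prm.hq q hq').1) h4 h5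
  have hfi : Finite (AnR p W B' B) := h2
  have hbij : Function.Bijective g := by
    refine (Nat.bijective_iff_surjective_and_card g).2 ⟨hg1, le_antisymm ?_ (Nat.card_le_card_of_surjective g hg1)⟩
    rw [Nat.card_coe_set_eq, Nat.card_eq_fintype_card, ← hQc]
    exact h3
  obtain ⟨e1⟩ := g1_iso g hbij (fun w => eK B w.1) (fun x => p ^ f x) hg2
  obtain ⟨ιK⟩ : Nonempty (B →ₐ[ℚ] AlgebraicClosure F) := ⟨IsAlgClosed.lift⟩
  have h6 := (h1 ιK).cyc
  exact ⟨B', B, inferInstance, inferInstance, i1, i2, inferInstance, h6.gal, h6.cyc, h6.deg,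
    lt_of_lt_of_le hlX (e9_disc hC hF.hp (ht.trans htn)), h1, ⟨e1.trans eA.symm⟩⟩

/-- THE INVERSE THEOREM, explicit form, for the maximal order. -/
theorem existE_main {Om : ℂ} {m : Ideal (𝓞 F)} {ψ : Ideal (𝓞 F) →*₀ 𝓞 F} (hH : BaseH F (W⁄(𝓞 F)) Om m ψ)
    (hp : PrimeH F (W⁄(𝓞 F)) p) (hA : AnUnitG p W ℚ) : ExistE F p W :=
  e9_exist (e6_fct hH hp hA)

open H28I in
/-- THE INVERSE THEOREM, explicit form, for the isogenous curves. -/
theorem existE_iso {W' : WeierstrassCurve ℤ} {Om : ℂ} {m : Ideal (𝓞 F)}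
    {ψ : Ideal (𝓞 F) →*₀ 𝓞 F} {kap : ℤ} {e s u lam : ℚ} (h : TW F W W' Om m ψ kap e s u lam) (hp' : PrimeH F (W'⁄(𝓞 F)) p)
    (hA : AnUnitG p W' ℚ) : ExistE F p W' :=
  e9_exist (e6_fct_iso h hp' hA)

/-- The conclusions over K with the group A. -/
theorem e9_conc {K' K : Type} [Field K'] [NumberField K'] [Field K] [NumberField K] [Algebra K' K] (hAt : AtKT p W K' K)
    {A : Type} [AddCommGroup A] (e : ((w : AnR p W K' K) → ZMod (eK K w.1)) ≃+ A) :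
    Nonempty (ShaG p K (W⁄K) ≃+ A × A) ∧ Nat.card (ShaG p K (W⁄K)) = Nat.card A ^ 2 := by
  obtain ⟨e1⟩ := hAt.sha
  have e2 : ((w : AnR p W K' K) → ZMod (eK K w.1) × ZMod (eK K w.1)) ≃+
      ((w : AnR p W K' K) → ZMod (eK K w.1)) × ((w : AnR p W K' K) → ZMod (eK K w.1)) :=
    { toFun := fun u => (fun w => (u w).1, fun w => (u w).2)
      invFun := fun v w => (v.1 w, v.2 w)
      left_inv := fun _ => rfl
      right_inv := fun _ => rfl
      map_add' := fun _ _ => rfl }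
  have e3 : ShaG p K (W⁄K) ≃+ A × A := e1.trans (e2.trans (AddEquiv.prodCongr e e))
  refine ⟨⟨e3⟩, ?_⟩
  rw [Nat.card_congr e3.toEquiv, Nat.card_prod, pow_two]

/-- THE INVERSE THEOREM, explicit form, from the theorem (T) and the existence theorem. -/
theorem invE_of (hp : p.Prime) (h2 : p ≠ 2) (hT : ShaThmT F p W) (hE : ExistE F p W) : InvE p W := by
  intro A _ _ r t n hgen hkill ht htn hfew X
  obtain ⟨K', K, i1, i2, i3, i4, i5, hg, hc, hdeg, hX, hyp, ⟨e⟩⟩ := hE A r t n hgen hkill ht htn hfew X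
  obtain ⟨ιK⟩ : Nonempty (K →ₐ[ℚ] AlgebraicClosure F) := ⟨IsAlgClosed.lift⟩
  have hAt := hT ℚ K' K ιK n t (hyp ιK)
  obtain ⟨e3, hcard⟩ := e9_conc hAt e
  obtain ⟨Λ, hΛ1, hΛ2, hΛ3, hΛ4⟩ := hAt.bsd
  refine ⟨K, i3, i4, hg, hc, hdeg, e8_tot K ?_, hX, hAt.pts, e3, hAt.per, Λ, hΛ1, hΛ2, hΛ3, ?_⟩
  · rw [hdeg]
    exact (hp.odd_of_ne_two h2).pow
  · intro L hL V hV
    rw [← hcard]
    exact hΛ4 L hL V hV

end H57TX
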