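import Mathlib
import Pool.Agent.Lib.H57TX.E9

/-! # H57TX: the inverse theorem without a condition on the number of generators: at most one prime of AnR above every rational prime -/

open NumberField IsDedekindDomain WeierstrassCurve

namespace H57TX

open H28T
open H55P H55R
open H55K H55K.TQ
open H57N (Cmp cE cAlg p5_num p5_cmp p2_unr p4_uniq e2_iff)
open H13T (AnR)
open H13V (eK HypT AtKT ShaThmT ShaG CycT)

variable {F : Type} [Field F] [NumberField F] [IQ F] {W : WeierstrassCurve ℤ} {p : ℕ}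

theorem e10_map {K' K : Type} [Field K'] [NumberField K'] [Field K] [NumberField K] [Algebra K' K] {Q : Finset ℕ} {lev : ℕ → ℕ}
    {ι : Type} {f : ι → ℕ} (e : {q // q ∈ Q} ≃ ι) (hlev : ∀ q : {q // q ∈ Q}, lev q = f (e q)) (hq : ∀ q ∈ Q, q.Prime)
    (h1 : ∀ w ∈ AnR p W K' K, ∃ q ∈ Q, (q : 𝓞 K') ∈ w.asIdeal ∧ eK K w = p ^ lev q)
    (h2 : ∀ q ∈ Q, ∃ w ∈ AnR p W K' K, (q : 𝓞 K') ∈ w.asIdeal) : ∃ g : AnR p W K' K → ι, Map p W K' K f g ∧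
      ∀ w : AnR p W K' K, ∃ q : {q // q ∈ Q}, ((q : ℕ) : 𝓞 K') ∈ w.1.asIdeal ∧ g w = e q := by
  have key : ∀ w : AnR p W K' K, ∃ q : {q // q ∈ Q}, ((q : ℕ) : 𝓞 K') ∈ w.1.asIdeal ∧ eK K w.1 = p ^ lev q := by
    intro w
    obtain ⟨q, hq, h3, h4⟩ := h1 w.1 w.2
    exact ⟨⟨q, hq⟩, h3, h4⟩
  choose c hc1 hc2 using key
  refine ⟨fun w => e (c w), ⟨?_, ?_⟩, fun w => ⟨c w, hc1 w, rfl⟩⟩
  · intro x
    obtain ⟨w, hw, hqw⟩ := h2 (e.symm x) (e.symm x).2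
    refine ⟨⟨w, hw⟩, ?_⟩
    show e (c ⟨w, hw⟩) = x
    have h3 : ((c ⟨w, hw⟩ : {q // q ∈ Q}) : ℕ) = (e.symm x : {q // q ∈ Q}) :=
      p4_uniq w (hq _ (c ⟨w, hw⟩).2) (hq _ (e.symm x).2) (hc1 ⟨w, hw⟩) hqw
    have h4 : c ⟨w, hw⟩ = e.symm x := Subtype.ext h3
    rw [h4, e.apply_symm_apply]
  · intro w
    show eK K w.1 = p ^ f (e (c w))
    rw [hc2 w, hlev]

/-- At most one prime above every prime of the base field. -/
theorem e10_one {M K' K : Type} [Field M] [NumberField M] [Field K'] [NumberField K'] [Field K] [NumberField K] [Algebra M K'] [Algebra K' K]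
    {Q : Finset ℕ} {ι : Type} (e : {q // q ∈ Q} ≃ ι) (hq : ∀ q ∈ Q, q.Prime) (g : AnR p W K' K → ι) (hg : Function.Injective g)
    (h : ∀ w : AnR p W K' K, ∃ q : {q // q ∈ Q}, ((q : ℕ) : 𝓞 K') ∈ w.1.asIdeal ∧ g w = e q)
    (v : Ideal (𝓞 M)) : {w ∈ AnR p W K' K | w.asIdeal.under (𝓞 M) = v}.ncard ≤ 1 := by
  suffices key : {w ∈ AnR p W K' K | w.asIdeal.under (𝓞 M) = v}.Subsingleton from
    (Set.ncard_le_one key.finite).2 fun a ha b hb => key ha hb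
  rintro a ⟨ha, hav⟩ b ⟨hb, hbv⟩
  obtain ⟨qa, h1, h2⟩ := h ⟨a, ha⟩
  obtain ⟨qb, h3, h4⟩ := h ⟨b, hb⟩
  have h5 : ((qa : ℕ) : 𝓞 M) ∈ b.asIdeal.under (𝓞 M) := by
    rw [hbv, ← hav]
    show algebraMap (𝓞 M) (𝓞 K') ((qa : ℕ) : 𝓞 M) ∈ a.asIdeal
    rw [map_natCast]
    exact h1
  have h6 : ((qa : ℕ) : 𝓞 K') ∈ b.asIdeal := by
    have h7 : algebraMap (𝓞 M) (𝓞 K') ((qa : ℕ) : 𝓞 M) ∈ b.asIdeal := h5
    rw [map_natCast] at h7
    exact h7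
  have h8 : (qa : ℕ) = (qb : ℕ) := p4_uniq b (hq _ qa.2) (hq _ qb.2) h6 h3
  have h9 : qa = qb := Subtype.ext h8
  have h10 : g ⟨a, ha⟩ = g ⟨b, hb⟩ := by rw [h2, h4, h9]
  exact congrArg Subtype.val (hg h10)

end H57TX
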