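import Mathlib
import Pool.Agent.Lib.H57TX.D3
import Pool.Agent.Lib.H57TX.E4

/-! # H57TX (T+), P1: a field over which almost all primes of degree one split completely in the field of the points killed by p^t -/

open NumberField IsDedekindDomain WeierstrassCurve

namespace H57TX

open H28T
open H55P H55R
open H35P (WAB Ker tt)
open H55K H55K.TQ
open H57N (Cmp cE cj cAlg p5_num p5_cmp p3_gal d2_prim a1_base)

/-- A variant of H57N.d3_div for an arbitrary divisor b of p^k: if the coordinates of the points killed by b lie in C then b divides ψ(v) - 1 for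
the primes v below almost all primes of degree one of C. -/
theorem p1_div {F : Type} [Field F] [NumberField F] [IQ F] {A B : F} {Om : ℂ} {Ω : Type} [Field Ω] [DecidableEq Ω]
    [Algebra F Ω] {j : Ω →+* ℂ} {act : 𝓞 F →+* AddMonoid.End (Pt (WAB A B) Ω)} {m : Ideal (𝓞 F)}
    {ψ : Ideal (𝓞 F) →*₀ 𝓞 F} {p : ℕ} {C : Type} [Field C] [NumberField C] [Algebra F C] [Algebra C Ω] [IsScalarTower F C Ω]
    [IsAlgClosure F Ω] [IsGalois F C] (h : Dta A B Om j act m ψ p) {b : 𝓞 F} (hb : b ≠ 0) {k : ℕ}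
    (hd : b ∣ ((p ^ k : ℕ) : 𝓞 F)) (hcrd : ∀ T ∈ Tor act b, ∃ x y : C, algebraMap C Ω x = xc T ∧ algebraMap C Ω y = yc T) :
    ∃ S : Set (Pl C), S.Finite ∧ ∀ w : Pl C, w ∉ S → (Ideal.absNorm w.asIdeal).Prime →
      Ideal.absNorm (w.under (𝓞 F)).asIdeal = Ideal.absNorm w.asIdeal ∧ b ∣ ψ (w.under (𝓞 F)).asIdeal - 1 := by
  obtain ⟨S2, hS2f, hS2⟩ := h.frob
  have hpC : ((p : ℕ) : 𝓞 C) ≠ 0 := Nat.cast_ne_zero.2 h.prime.ne_zero
  have hf2 : {w : Pl C | w.under (𝓞 F) ∈ S2}.Finite :=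
    hS2f.preimage' (f := fun w : Pl C => w.under (𝓞 F)) fun b _ => above_finite b
  have hf3 : {w : Pl C | es F C (w.under (𝓞 F)) ≠ 1}.Finite :=
    (ram_fin F C).preimage' (f := fun w : Pl C => w.under (𝓞 F)) fun b _ => above_finite b
  refine ⟨{w : Pl C | w.under (𝓞 F) ∈ S2} ∪
    ({w : Pl C | es F C (w.under (𝓞 F)) ≠ 1} ∪ {w : Pl C | ((p : ℕ) : 𝓞 C) ∈ w.asIdeal}),
    hf2.union (hf3.union (H28R.W5_fin_mem _ hpC)), ?_⟩
  intro w hw hwN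
  simp only [Set.mem_union, not_or] at hw
  obtain ⟨hw2, hw3, hw4⟩ := hw
  have hv2 : w.under (𝓞 F) ∉ S2 := hw2
  have he : es F C (w.under (𝓞 F)) = 1 := not_not.1 hw3
  have hwp : ((p : ℕ) : 𝓞 C) ∉ w.asIdeal := hw4
  have hnorm := D5_norm (w.under (𝓞 F)) w rfl
  have hfs : fs F C (w.under (𝓞 F)) = 1 := by
    have hpos := fs_pos (L := C) (w.under (𝓞 F))
    by_contra hne
    have h2 : 2 ≤ fs F C (w.under (𝓞 F)) := by omega
    have hwN' := hwN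
    rw [hnorm] at hwN'
    exact Nat.Prime.not_prime_pow h2 hwN'
  rw [hfs, pow_one] at hnorm
  have hvN : (Ideal.absNorm (w.under (𝓞 F)).asIdeal).Prime := by
    rw [← hnorm]
    exact hwN
  refine ⟨hnorm.symm, ?_⟩
  obtain ⟨V, hV⟩ := exists_abw Ω w
  have hVv : Abw V (w.under (𝓞 F)) := hV.below rfl
  have hva : ∀ a : 𝓞 F, a ∈ (w.under (𝓞 F)).asIdeal → V.valuation (ak Ω a) < 1 := fun a ha =>
    (hVv.lt _).2 (((w.under (𝓞 F)).valuation_lt_one_iff_mem a).2 ha)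
  have hpv : ((p : ℕ) : 𝓞 F) ∉ (w.under (𝓞 F)).asIdeal := by
    intro hm
    apply hwp
    have h1 : algebraMap (𝓞 F) (𝓞 C) ((p : ℕ) : 𝓞 F) ∈ w.asIdeal := hm
    rwa [map_natCast] at h1
  have hcast : ∀ n : ℕ, algebraMap F Ω (((n : 𝓞 F) : F)) = (n : Ω) := by
    intro n
    have e : ((n : 𝓞 F) : F) = (n : F) := by push_cast; rfl
    rw [e, map_natCast]
  have hp1 : V.valuation (p : Ω) = 1 := by
    have h1 := (hVv.eq_one (((p : ℕ) : 𝓞 F) : F)).2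
      ((HeightOneSpectrum.valuation_eq_one_iff_notMem (w.under (𝓞 F))).2 hpv)
    rwa [hcast p] at h1
  have hpk1 : V.valuation ((p ^ k : ℕ) : Ω) = 1 := by
    rw [Nat.cast_pow, map_pow, hp1, one_pow]
  obtain ⟨s, -, hs⟩ := H13S.exists_frob (w.under (𝓞 F)) V hva
  have hsC : Fxd C s := by
    refine triv_of_es (K := F) hV he s (fun x => s.commutes x) fun y hy => ?_
    have h1 := hs _ hy
    have h2 : V.valuation (algebraMap C Ω y ^ Ideal.absNorm (w.under (𝓞 F)).asIdeal - algebraMap C Ω y) < 1 := by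
      rw [← hnorm, ← map_pow, ← map_sub, hV.lt]
      exact H28G.pow_norm w y ((hV y).1 hy)
    have e : s (algebraMap C Ω y) - algebraMap C Ω y =
        (s (algebraMap C Ω y) - algebraMap C Ω y ^ Ideal.absNorm (w.under (𝓞 F)).asIdeal) +
        (algebraMap C Ω y ^ Ideal.absNorm (w.under (𝓞 F)).asIdeal - algebraMap C Ω y) := by ring
    rw [e]
    exact V.valuation.map_add_lt h1 h2
  obtain ⟨T, hT, -, hgen, -⟩ := h.cma.gen b hb
  have hT1 : (p ^ k) • T = 0 := by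
    obtain ⟨c, hc⟩ := hd
    have h1 : act ((p ^ k : ℕ) : 𝓞 F) T = 0 := by
      rw [hc, mul_comm, map_mul]
      show act c (act b T) = 0
      have h2 : act b T = 0 := hT
      rw [h2, map_zero]
    rw [map_natCast, AddMonoid.End.natCast_apply] at h1
    exact h1
  have hact : act (ψ (w.under (𝓞 F)).asIdeal) T = T := by
    rw [← hS2 _ hv2 hvN V hva s hs (p ^ k) hpk1 T hT1]
    obtain ⟨x, y, hx, hy⟩ := hcrd T hT
    exact ac_fix s (by rw [← hx, hsC x]) (by rw [← hy, hsC y])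
  rw [← hgen, k2a_sub, k2a_one, hact, sub_self]

theorem p1_field {F : Type} [Field F] [NumberField F] [IQ F] {W₀ : WeierstrassCurve (𝓞 F)} {Om : ℂ} {m : Ideal (𝓞 F)}
    {ψ : Ideal (𝓞 F) →*₀ 𝓞 F} {p : ℕ} (hH : BaseH F W₀ Om m ψ) (hp : PrimeH F W₀ p) (t : ℕ) :
    ∃ (C : Type) (_ : Field C) (_ : NumberField C) (_ : Algebra F C) (S : Set (Pl C)), S.Finite ∧
      ∀ w : Pl C, w ∉ S → (Ideal.absNorm w.asIdeal).Prime →
        p ^ t ∣ Ideal.absNorm w.asIdeal - 1 ∧ ∃ v : Pl F, Ideal.absNorm v.asIdeal = Ideal.absNorm w.asIdeal ∧ W₀.Δ ∉ v.asIdeal ∧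
          p ^ (2 * t) ∣ Nat.card (W₀⁄(𝓞 F ⧸ v.asIdeal)).toAffine.Point := by
  classical
  obtain ⟨A, B, j, act, h⟩ := H28T.exists_dta hH hp
  have hb : ((p ^ t : ℕ) : 𝓞 F) ≠ 0 := Nat.cast_ne_zero.2 (pow_ne_zero _ hp.prime.ne_zero)
  obtain ⟨N, iF, iN, i1, i2, i3, t1, t2, t3, hN⟩ := exists_TFld h.cma F hb
  clear t1 t3
  clear i1
  have hgN : IsGalois F N := hN.gal
  have hpt : p ^ t ≠ 0 := pow_ne_zero _ hp.prime.ne_zero
  obtain ⟨C, _, _, _, _, _, _, _, hG, ζ, hζ⟩ := d3_comp (F := F) (N := N) hpt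
  obtain ⟨S, hS, hw⟩ := p1_div (C := C) h hb (dvd_refl ((p ^ t : ℕ) : 𝓞 F)) (fun T hT => by
    obtain ⟨x, y, hx, hy⟩ := hN.crd T hT
    refine ⟨algebraMap N C x, algebraMap N C y, ?_, ?_⟩
    · rw [← IsScalarTower.algebraMap_apply N C (AlgebraicClosure F), hx]
    · rw [← IsScalarTower.algebraMap_apply N C (AlgebraicClosure F), hy])
  have hΔC : algebraMap (𝓞 F) (𝓞 C) W₀.Δ ≠ 0 := by
    intro h0
    apply hH.data.ell
    apply RingOfIntegers.ext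
    have h1 : algebraMap F C ((W₀.Δ : 𝓞 F) : F) = 0 := congrArg (fun x : 𝓞 C => (x : C)) h0
    rw [map_eq_zero] at h1
    exact h1
  have hpC : ((p : ℕ) : 𝓞 C) ≠ 0 := Nat.cast_ne_zero.2 hp.prime.ne_zero
  refine ⟨C, inferInstance, inferInstance, inferInstance,
    S ∪ ({w : Pl C | algebraMap (𝓞 F) (𝓞 C) W₀.Δ ∈ w.asIdeal} ∪ {w : Pl C | ((p : ℕ) : 𝓞 C) ∈ w.asIdeal}),
    hS.union ((H28R.W5_fin_mem _ hΔC).union (H28R.W5_fin_mem _ hpC)), ?_⟩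
  intro w hwS hwN
  simp only [Set.mem_union, not_or] at hwS
  obtain ⟨hw1, hw2, hw3⟩ := hwS
  have hw2' : algebraMap (𝓞 F) (𝓞 C) W₀.Δ ∉ w.asIdeal := hw2
  have hw3' : ((p ^ t : ℕ) : 𝓞 C) ∉ w.asIdeal := by
    intro h0
    rw [Nat.cast_pow] at h0
    exact hw3 (w.isPrime.mem_of_pow_mem t h0)
  obtain ⟨h1, h2⟩ := hw w hw1 hwN
  refine ⟨d3_root hpt hζ w hw3', w.under (𝓞 F), h1, fun hm => hw2' hm, ?_⟩
  rw [hH.deu (w.under (𝓞 F)) fun hm => hw2' hm]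
  obtain ⟨c, hc⟩ := h2
  have e : 1 - ψ (w.under (𝓞 F)).asIdeal = ((p ^ t : ℕ) : 𝓞 F) * (-c) := by linear_combination -hc
  rw [e, Nm_mul, Nm_nat, ← pow_mul, mul_comm t 2]
  exact Dvd.intro _ rfl

/-- The prime numbers q: for all large prime numbers l there are arbitrarily large prime numbers q = 1 mod p^t, primitive roots modulo l, with a
prime v of F of norm q at which the number of points is divisible by p^(2t). -/
def ManyP {F : Type} [Field F] [NumberField F] (W₀ : WeierstrassCurve (𝓞 F)) (p t : ℕ) : Prop :=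
  ∃ L0 : ℕ, ∀ l : ℕ, l.Prime → L0 < l → ∀ Bd : ℕ, ∃ q : ℕ, q.Prime ∧ Bd < q ∧ p ^ t ∣ q - 1 ∧ orderOf (q : ZMod l) = l - 1 ∧
    ∃ v : HeightOneSpectrum (𝓞 F), Ideal.absNorm v.asIdeal = q ∧ W₀.Δ ∉ v.asIdeal ∧
      p ^ (2 * t) ∣ Nat.card (W₀⁄(𝓞 F ⧸ v.asIdeal)).toAffine.Point

theorem p1_many {F : Type} [Field F] [NumberField F] [IQ F] {W₀ : WeierstrassCurve (𝓞 F)} {Om : ℂ} {m : Ideal (𝓞 F)}
    {ψ : Ideal (𝓞 F) →*₀ 𝓞 F} {p : ℕ} (hH : BaseH F W₀ Om m ψ) (hp : PrimeH F W₀ p) (t : ℕ) : ManyP W₀ p t := by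
  obtain ⟨C, _, _, _, S, hS, hw⟩ := p1_field hH hp t
  refine ⟨(discr C).natAbs, fun l hl hL Bd => ?_⟩
  have hd : ¬ (l : ℤ) ∣ discr C := by
    intro h1
    have h2 : l ∣ (discr C).natAbs := Int.natCast_dvd.1 h1
    have h3 := Nat.le_of_dvd (Int.natAbs_pos.2 (discr_ne_zero C)) h2
    omega
  obtain ⟨w, hwS, hwN, hwo⟩ := d2_prim C hl hd (S ∪ {w : Pl C | Ideal.absNorm w.asIdeal ≤ Bd})
    (hS.union (H28R.W5_fin_norm Bd))
  rw [Set.mem_union, not_or] at hwS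
  obtain ⟨h1, v, h2, h3, h4⟩ := hw w hwS.1 hwN
  exact ⟨Ideal.absNorm w.asIdeal, hwN, not_le.1 hwS.2, h1, hwo, v, h2, h3, h4⟩

open H28I in
theorem p1_many_iso {F : Type} [Field F] [NumberField F] [IQ F] {W W' : WeierstrassCurve ℤ} {Om : ℂ} {m : Ideal (𝓞 F)}
    {ψ : Ideal (𝓞 F) →*₀ 𝓞 F} {kap : ℤ} {e s u lam : ℚ} {p : ℕ} (h : TW F W W' Om m ψ kap e s u lam) (hp' : PrimeH F (W'⁄(𝓞 F)) p) (t : ℕ) :
    ManyP (W'⁄(𝓞 F)) p t := by
  obtain ⟨L0, hL0⟩ := p1_many h.base ((tw_prime h).1 hp') t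
  refine ⟨L0, fun l hl hl0 Bd => ?_⟩
  obtain ⟨q, hq, hB, hpq, ho, v, hv, hΔ, hd⟩ := hL0 l hl hl0 Bd
  have hΔ' : (W'⁄(𝓞 F)).Δ ∉ v.asIdeal := mt (tw_supp h v).1 hΔ
  exact ⟨q, hq, hB, hpq, ho, v, hv, hΔ', by rw [(tw_deu h v hΔ').1]; exact hd⟩

end H57TX
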