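import Mathlib
import Pool.Agent.Lib.H13V.StmP
import Pool.Agent.Lib.H57TX.P1
import Pool.Agent.Lib.H57TX.E10

/-! # H57TX (T+), P2: the hypotheses of the theorem (T+) for the fields M B' and M B -/

open NumberField IsDedekindDomain WeierstrassCurve

namespace H57TX

open H28T
open H55P H55R
open H55K H55K.TQ
open H57N (Cmp cE cAlg p5_num p5_cmp p5_mono p3_gal p2_cop p2_deg e4_emb e6_deg p4_below p4_uniq p4_over p4_towerZ e3_nat c4_le a1_base a1_deg)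
open H13T (AnR)
open H13V (eK HypP)

/-- The prime numbers are chosen for the field N and the levels lev, with all points killed by p^t over the prime field. -/
structure ChP (F : Type) [Field F] [NumberField F] (W : WeierstrassCurve ℤ) (p n t l : ℕ) (Q : Finset ℕ) (lev : ℕ → ℕ)
    (N : Type) [Field N] [NumberField N] : Prop extends Ch F W p n t l Q lev N where
  pts2 : ∀ q ∈ Q, ∃ v : HeightOneSpectrum (𝓞 F), Ideal.absNorm v.asIdeal = q ∧
    p ^ (2 * t) ∣ Nat.card (W⁄(𝓞 F ⧸ v.asIdeal)).toAffine.Point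

theorem p2_choice {F : Type} [Field F] [NumberField F] {W : WeierstrassCurve ℤ} {p : ℕ} (hp : p.Prime) (hΔ : W.Δ ≠ 0)
    (hdir : DirH (Gx (W⁄(𝓞 F)) p) p) {t : ℕ} (ht : 1 ≤ t) (hQ : ManyP (W⁄(𝓞 F)) p t) (N : Type) [Field N] [NumberField N] (n c X : ℕ) :
    ∃ (l : ℕ) (Q : Finset ℕ), X < l ∧ Q.card = c ∧ ∀ lev : ℕ → ℕ, (∀ q ∈ Q, 1 ≤ lev q ∧ lev q ≤ t) → ChP F W p n t l Q lev N := by
  classical
  obtain ⟨L0, hL0⟩ := hQ
  obtain ⟨l, hl, hlN, hpl, hG⟩ := hdir (n + t) (max (max X L0) (max p (discr N).natAbs))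
  have hlX : X < l := lt_of_le_of_lt ((le_max_left _ _).trans (le_max_left _ _)) hlN
  have hlL : L0 < l := lt_of_le_of_lt ((le_max_right _ _).trans (le_max_left _ _)) hlN
  have hlp : p < l := lt_of_le_of_lt ((le_max_left _ _).trans (le_max_right _ _)) hlN
  have hlD : (discr N).natAbs < l := lt_of_le_of_lt ((le_max_right _ _).trans (le_max_right _ _)) hlN
  have hD0 : discr N ≠ 0 := discr_ne_zero N
  let C : Set ℕ := {q | (q.Prime ∧ p ^ t ∣ q - 1 ∧ orderOf (q : ZMod l) = l - 1 ∧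
    ∃ v : HeightOneSpectrum (𝓞 F), Ideal.absNorm v.asIdeal = q ∧ (W⁄(𝓞 F)).Δ ∉ v.asIdeal ∧
      p ^ (2 * t) ∣ Nat.card ((W⁄(𝓞 F))⁄(𝓞 F ⧸ v.asIdeal)).toAffine.Point) ∧ l < q ∧ (discr N).natAbs < q ∧ W.Δ.natAbs < q}
  have hinf : C.Infinite := by
    apply Set.infinite_of_forall_exists_gt
    intro a
    obtain ⟨q, h1, h2, h3, h4, h5⟩ := hL0 l hl hlL (max a (max l (max (discr N).natAbs W.Δ.natAbs)))
    have b1 : a < q := lt_of_le_of_lt (le_max_left _ _) h2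
    have b2 : l < q := lt_of_le_of_lt ((le_max_left _ _).trans (le_max_right _ _)) h2
    have b3 : (discr N).natAbs < q := lt_of_le_of_lt (((le_max_left _ _).trans (le_max_right _ _)).trans (le_max_right _ _)) h2
    have b4 : W.Δ.natAbs < q := lt_of_le_of_lt (((le_max_right _ _).trans (le_max_right _ _)).trans (le_max_right _ _)) h2
    exact ⟨q, ⟨⟨h1, h3, h4, h5⟩, b2, b3, b4⟩, b1⟩
  obtain ⟨Q, hQC, hcard⟩ := hinf.exists_subset_card_eq c
  have hnd : ∀ (z : ℤ) (r : ℕ), z ≠ 0 → z.natAbs < r → ¬ (r : ℤ) ∣ z := by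
    intro z r hz hlt hdv
    have := Nat.le_of_dvd (Int.natAbs_pos.2 hz) (Int.natCast_dvd.1 hdv)
    omega
  have hpt : ∀ q ∈ Q, ¬ (q : ℤ) ∣ W.Δ ∧ ∃ v : HeightOneSpectrum (𝓞 F), Ideal.absNorm v.asIdeal = q ∧
      p ^ (2 * t) ∣ Nat.card (W⁄(𝓞 F ⧸ v.asIdeal)).toAffine.Point := by
    intro q hq
    obtain ⟨⟨-, -, -, v, hv1, -, hv3⟩, -, -, h6⟩ := hQC hq
    refine ⟨hnd _ _ hΔ h6, v, hv1, ?_⟩
    rwa [a1_base] at hv3
  have hpd : p ∣ p ^ (2 * t) := dvd_pow_self p (by omega)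
  refine ⟨l, Q, hlX, hcard, fun lev hlev => ⟨⟨⟨hp, hl, hpl, ?_, hlev⟩, hG, ?_, ?_, ?_, ?_⟩, fun q hq => (hpt q hq).2⟩⟩
  · intro q hq
    obtain ⟨⟨h1, h2, h3, -⟩, h4, -, -⟩ := hQC hq
    exact ⟨h1, h2, h4.ne', h3⟩
  · intro r _ hrd
    constructor
    · rintro rfl
      exact hnd _ _ hD0 hlD hrd
    · intro hrQ
      obtain ⟨-, -, h5, -⟩ := hQC hrQ
      exact hnd _ _ hD0 h5 hrd
  · exact hlp.ne
  · intro hpQ
    obtain ⟨-, h4, -, -⟩ := hQC hpQ
    omega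
  · intro q hq
    obtain ⟨h1, v, hv, h2⟩ := hpt q hq
    exact ⟨h1, v, hv, hpd.trans h2⟩

variable {F : Type} [Field F] [NumberField F] [IQ F] {W : WeierstrassCurve ℤ} {p : ℕ}

/-- The absolute norm of a prime above q. -/
theorem p2_norm {E : Type} [Field E] [NumberField E] {q : ℕ} (hq : q.Prime) (w : HeightOneSpectrum (𝓞 E)) (hw : (q : 𝓞 E) ∈ w.asIdeal) :
    Ideal.absNorm w.asIdeal = q ^ w.asIdeal.inertiaDeg ℤ := by
  have hwp := w.isPrime
  have hl : w.asIdeal.LiesOver (Ideal.span {(q : ℤ)}) := (p4_over hq w.asIdeal w.isPrime).1 hw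
  have h1 := Ideal.natAbs_pow_inertiaDeg (q : ℤ) w.asIdeal
  rw [Int.natAbs_natCast] at h1
  exact h1.symm

/-- The residue degree is at most the degree. -/
theorem p2_le {E : Type} [Field E] [NumberField E] {q : ℕ} (hq : q.Prime) (w : HeightOneSpectrum (𝓞 E)) (hw : (q : 𝓞 E) ∈ w.asIdeal) :
    w.asIdeal.inertiaDeg ℤ ≤ Module.finrank ℚ E := by
  have hF : Fact q.Prime := ⟨hq⟩
  have hm : (Ideal.span {(q : ℤ)}).IsMaximal := Int.ideal_span_isMaximal_of_prime q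
  have hfin : ((Ideal.span {(q : ℤ)}).primesOver (𝓞 E)).Finite := IsDedekindDomain.primesOver_finite (Ideal.span {(q : ℤ)}) (𝓞 E)
  have hft : Fintype ((Ideal.span {(q : ℤ)}).primesOver (𝓞 E)) := hfin.fintype
  have hsum := Ideal.sum_ramification_inertia_eq_finrank (Ideal.span {(q : ℤ)}) (𝓞 E)
  rw [RingOfIntegers.rank] at hsum
  have hwp := w.isPrime
  have hl : w.asIdeal.LiesOver (Ideal.span {(q : ℤ)}) := (p4_over hq w.asIdeal w.isPrime).1 hw
  have h1 := Finset.single_le_sum (f := fun Q : (Ideal.span {(q : ℤ)}).primesOver (𝓞 E) => Q.1.ramificationIdx ℤ * Q.1.inertiaDeg ℤ)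
    (fun _ _ => Nat.zero_le _) (Finset.mem_univ ⟨w.asIdeal, hwp, hl⟩)
  have h2 : 0 < w.asIdeal.ramificationIdx ℤ := Ideal.ramificationIdx_pos w.asIdeal ℤ
  rw [← hsum]
  exact (Nat.le_mul_of_pos_left _ h2).trans h1

/-- The residue field of a prime of M B' above q is larger than the one of the prime of M below it. -/
theorem p2_nsp {n t l : ℕ} {Q : Finset ℕ} {lev : ℕ → ℕ} {B : Type} [Field B] [NumberField B] {B' : IntermediateField ℚ B}
    (hC : Cy p n t l Q lev B B') (M K' : Type) [Field M] [NumberField M] [Field K'] [NumberField K'] [Algebra M K'] [Algebra B' K']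
    (hn : Module.finrank ℚ M < p ^ n) {q : ℕ} (hqQ : q ∈ Q) (hq : q.Prime) (w : HeightOneSpectrum (𝓞 K')) (hw : (q : 𝓞 K') ∈ w.asIdeal) :
    Ideal.absNorm (w.asIdeal.under (𝓞 M)) ≠ Ideal.absNorm w.asIdeal := by
  obtain ⟨u, hu⟩ := p4_below (B := M) w
  obtain ⟨t', ht⟩ := p4_below (B := B') w
  have hwp := w.isPrime
  have hup := u.isPrime
  have hqu : (q : 𝓞 M) ∈ u.asIdeal := by
    rw [hu, e3_nat]
    exact hw
  have hqt : (q : 𝓞 B') ∈ t'.asIdeal := by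
    rw [ht, e3_nat]
    exact hw
  have h1 : p ^ n ≤ w.asIdeal.inertiaDeg ℤ := by
    rw [(p4_towerZ w t' ht).2]
    exact (hC.ine t' q hqQ hqt).trans (Nat.le_mul_of_pos_right _ (Ideal.inertiaDeg_pos w.asIdeal (𝓞 B')))
  have h2 : u.asIdeal.inertiaDeg ℤ < w.asIdeal.inertiaDeg ℤ := by
    exact lt_of_le_of_lt (p2_le hq u hqu) (lt_of_lt_of_le hn h1)
  rw [← hu, p2_norm hq u hqu, p2_norm hq w hw]
  exact (Nat.pow_lt_pow_right hq.one_lt h2).ne

/-- The hypotheses of the theorem (T+) hold for the fields M B' and M B. -/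
theorem p2_core (hF : H57N.Fct (F := F) W p) {n t l : ℕ} {Q : Finset ℕ} {lev : ℕ → ℕ} (ht : 1 ≤ t) (hn : 1 ≤ n)
    {B : Type} [Field B] [NumberField B] {B' : IntermediateField ℚ B} (hC : Cy p n t l Q lev B B')
    (M K' K L : Type) [Field M] [NumberField M] [Field K'] [NumberField K'] [Field K] [NumberField K] [Field L] [NumberField L]
    [Algebra M K'] [Algebra K' K] [Algebra M K] [IsScalarTower M K' K] [Algebra B' K'] [Algebra B K] [Algebra K' L] [Algebra F L]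
    (hCh : ChP F W p n t l Q lev M) (hK' : Cmp M B' K') (hK : Cmp M B K) (hL : ExtG (Gx (W⁄(𝓞 F)) p) p L) (hU : UnrP p M)
    (hbad : ∀ ιM : M →ₐ[ℚ] AlgebraicClosure F, H13R.BadM (W⁄(𝓞 F)) (KG F M ιM))
    (hM : Module.finrank ℚ M < p ^ n) :
    (∀ ιK : K →ₐ[ℚ] AlgebraicClosure F, HypP F p n t W M K' K ιK) ∧ (AnR p W K' K).Finite ∧
      (AnR p W K' K).ncard ≤ Q.card * Module.finrank ℚ M ∧
      (∀ w ∈ AnR p W K' K, ∃ q ∈ Q, (q : 𝓞 K') ∈ w.asIdeal ∧ eK K w = p ^ lev q) ∧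
      ∀ q ∈ Q, ∃ w ∈ AnR p W K' K, (q : 𝓞 K') ∈ w.asIdeal := by
  have hcyc := e1_cyc hC M K' K hK' hK hCh.dis
  have hInP : InPF (W⁄(𝓞 F)) p K' :=
    (inPF_iff hF.hp hF.unrF K').2 ⟨L, inferInstance, inferInstance, inferInstance, inferInstance, hL⟩
  have hsub := e3_sub (F := F) (W := W) hC M K' K L (hK := hK) hL.1 hL.2.1 hCh.good hF.down
  obtain ⟨hfin, hle⟩ := e3_count hC hF.hp M K' hcyc.sub (fun q hq' => (hCh.prm.hq q hq').1) (AnR p W K' K)
    (fun w hw => hsub w hw)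
  have hgM := hcyc.gal
  have hgK : IsGalois K' K := IsGalois.tower_top_of_isGalois M K' K
  have heK : ∀ w ∈ AnR p W K' K, ∃ q ∈ Q, (q : 𝓞 K') ∈ w.asIdeal ∧ eK K w = p ^ lev q := by
    intro w hw
    obtain ⟨q, hq, hqw⟩ := hsub w hw
    refine ⟨q, hq, hqw, ?_⟩
    obtain ⟨P, hP⟩ := H55R.under_exists (L := K) w
    have hPw : w.asIdeal = P.asIdeal.under (𝓞 K') := by rw [← hP]; rfl
    have hqP : (q : 𝓞 K) ∈ P.asIdeal := by
      rw [hPw, H57N.e3_nat] at hqw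
      exact hqw
    rw [e3_eK K' K w P hPw]
    exact e3_ram hC M K' K hK' hK hCh.dis hq (hCh.prm.hq q hq).1 (hCh.prm.hq q hq).2.2.1 P hqP
  refine ⟨fun ιK => ⟨hn, ht, hcyc, e2_unr hC hF.hp hCh.pl hCh.pQ hK hU, fun w h1 h2 => absurd h2 (hbad _ w h1), hF.bsd _ hInP, ?_, ?_⟩,
    hfin, hle, heK, ?_⟩
  · intro w hw
    obtain ⟨q, hq, hqw⟩ := hsub w hw
    exact p2_nsp hC M K' hM hq (hCh.prm.hq q hq).1 w hqw
  · intro w hw
    obtain ⟨q, hq, hqw, he⟩ := heK w hw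
    obtain ⟨v, hv, hpv⟩ := hCh.pts2 q hq
    rw [he]
    have h1 : (p ^ lev q) ^ 2 ∣ p ^ (2 * t) := by
      rw [← pow_mul]
      exact pow_dvd_pow p (by have := (hCh.prm.hlev q hq).2; omega)
    exact a1_deg W (hCh.prm.hq q hq).1 v hv w hqw (h1.trans hpv)
  · intro q hq
    obtain ⟨h1, v, hv, hpv⟩ := hCh.pts q hq
    exact e3_lower hF.hp hC M K' K hK' hK hCh.dis q hq (hCh.prm.hlev q hq).1 (hCh.prm.hq q hq).1 (hCh.prm.hq q hq).2.2.1 h1 v hv hpv

end H57TX
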