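import Mathlib
import Pool.Agent.Lib.H13V.StmP
import Pool.Agent.Lib.H28R.Defs

/-! # H57TX: the statements of the existence theorems for theorem (T+), and the inverse theorems -/

open NumberField IsDedekindDomain WeierstrassCurve

namespace H57TX

open H55P (IQ)
open H55K.TQ
open H13T (AnR)
open H13V (HypP AtKT ShaThmP ShaG eK)

/-! ## Existence of extensions to which the theorem (T+) applies -/

/-- For every m ≥ 1 and every finite abelian group A killed by p^m the theorem (T+) applies to infinitely many cyclic extensions K/ℚ of degree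
p^(m+1), with M = ℚ and K' of degree p, such that the product of the groups ℤ/e over the primes in AnR is isomorphic to A. -/
def ExistP (F : Type) [Field F] [NumberField F] [IQ F] (p : ℕ) (W : WeierstrassCurve ℤ) : Prop :=
  ∀ (A : Type) [AddCommGroup A] [Finite A] (m : ℕ), 1 ≤ m → (∀ a : A, p ^ m • a = 0) → ∀ X : ℕ,
    ∃ (K' K : Type) (_ : Field K') (_ : NumberField K') (_ : Field K) (_ : NumberField K) (_ : Algebra K' K),
      IsGalois ℚ K ∧ IsCyclic (K ≃ₐ[ℚ] K) ∧ Module.finrank ℚ K = p ^ (m + 1) ∧ X < (discr K).natAbs ∧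
      (∀ ιK : K →ₐ[ℚ] AlgebraicClosure F, HypP F p 1 m W ℚ K' K ιK) ∧
      Nonempty (((w : AnR p W K' K) → ZMod (eK K w.1)) ≃+ A)

/-- For every finite p-group H and every finite abelian p-group A the theorem (T+) applies to infinitely many Galois extensions K/F of p-power
degree with H contained in Gal(K/F), such that the product of the groups ℤ/e over the primes in AnR is isomorphic to A^r with r ≥ 1. -/
def ExistHP (F : Type) [Field F] [NumberField F] [IQ F] (p : ℕ) (W : WeierstrassCurve ℤ) : Prop :=
  ∀ (H : Type) [Group H] [Finite H] (k : ℕ), Nat.card H = p ^ k → ∀ (A : Type) [AddCommGroup A] [Finite A] (m : ℕ), Nat.card A = p ^ m →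
    ∀ X : ℕ,
    ∃ (M K' K : Type) (_ : Field M) (_ : NumberField M) (_ : Field K') (_ : NumberField K') (_ : Field K) (_ : NumberField K)
      (_ : Algebra M K') (_ : Algebra K' K) (_ : Algebra M K) (_ : Algebra F K) (n t : ℕ),
      IsGalois F K ∧ (∃ s : ℕ, Module.finrank F K = p ^ s) ∧ (∃ φ : H →* (K ≃ₐ[F] K), Function.Injective φ) ∧ X < (discr K).natAbs ∧
      (∀ ιK : K →ₐ[ℚ] AlgebraicClosure F, HypP F p n t W M K' K ιK) ∧
      ∃ r : ℕ, 1 ≤ r ∧ Nonempty (((w : AnR p W K' K) → ZMod (eK K w.1)) ≃+ (Fin r → A))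

/-- The same with a field K with a real place and a finite p-group H which is a subquotient of the Galois group over F of the field N generated by
F and K (quadratic over K, Galois over ℚ). -/
def ExistRealP (F : Type) [Field F] [NumberField F] [IQ F] (p : ℕ) (W : WeierstrassCurve ℤ) : Prop :=
  ∀ (H : Type) [Group H] [Finite H] (k : ℕ), Nat.card H = p ^ k → ∀ (A : Type) [AddCommGroup A] [Finite A] (m : ℕ), Nat.card A = p ^ m →
    ∀ X : ℕ,
    ∃ (M K' K : Type) (_ : Field M) (_ : NumberField M) (_ : Field K') (_ : NumberField K') (_ : Field K) (_ : NumberField K)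
      (_ : Algebra M K') (_ : Algebra K' K) (_ : Algebra M K) (n t : ℕ),
      0 < InfinitePlace.nrRealPlaces K ∧ X < (discr K).natAbs ∧
      (∀ ιK : K →ₐ[ℚ] AlgebraicClosure F, HypP F p n t W M K' K ιK) ∧
      (∃ r : ℕ, 1 ≤ r ∧ Nonempty (((w : AnR p W K' K) → ZMod (eK K w.1)) ≃+ (Fin r → A))) ∧
      ∃ (N : Type) (_ : Field N) (_ : NumberField N) (_ : Algebra F N) (_ : Algebra K N),
        Module.finrank K N = 2 ∧ IsGalois ℚ N ∧ (∃ s : ℕ, Module.finrank F N = p ^ s) ∧ H28R.SubQ (N ≃ₐ[F] N) H

/-! ## The inverse theorems -/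

open Classical in
/-- The conclusions over K, with a finite abelian group S: the group of points of W over K is finite of order prime to p; the p-primary part of the
Tate-Shafarevich group is isomorphic to S; and the p-part of the conjecture of Birch and Swinnerton-Dyer holds: the L-series of W over K continues
to the half plane Re s > 1/2, does not vanish at 1, and the analytic order of the Tate-Shafarevich group has the p-adic valuations of the order
of S. -/
structure Concl (p : ℕ) (W : WeierstrassCurve ℤ) (K : Type) [Field K] [NumberField K] (S : Type) [AddCommGroup S] : Prop where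
  pts : Finite (W⁄K).toAffine.Point ∧ ¬ p ∣ Nat.card (W⁄K).toAffine.Point
  sha : Nonempty (ShaG p K (W⁄K) ≃+ S)
  per : ∃ L : PeriodPair, PerZ W L
  bsd : ∃ Λ : ℂ → ℂ, AnalyticOnNhd ℂ Λ {s | 1 / 2 < s.re} ∧
    (∀ s : ℂ, 3 / 2 < s.re →
      LSeriesSummable (fun n => (((W⁄K).LFunction n : ℤ) : ℂ)) s ∧ Λ s = (W⁄K).LSeries s) ∧
    Λ 1 ≠ 0 ∧
    ∀ L : PeriodPair, PerZ W L → ∀ V : ValuationSubring ℂ, V.valuation (p : ℂ) < 1 →
      V.valuation (shaG K W L (Λ 1)) = V.valuation ((Nat.card S : ℕ) : ℂ)

/-- THE INVERSE THEOREM: for every m ≥ 1 and every finite abelian group A killed by p^m there are infinitely many cyclic extensions K/ℚ of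
degree p^(m+1), totally real, such that the p-primary part of the Tate-Shafarevich group over K is isomorphic to A × A (and the other conclusions
hold). -/
def InvP (p : ℕ) (W : WeierstrassCurve ℤ) : Prop :=
  ∀ (A : Type) [AddCommGroup A] [Finite A] (m : ℕ), 1 ≤ m → (∀ a : A, p ^ m • a = 0) → ∀ X : ℕ,
    ∃ (K : Type) (_ : Field K) (_ : NumberField K),
      IsGalois ℚ K ∧ IsCyclic (K ≃ₐ[ℚ] K) ∧ Module.finrank ℚ K = p ^ (m + 1) ∧ IsTotallyReal K ∧ X < (discr K).natAbs ∧
      Concl p W K (A × A)

/-- For every finite p-group H and every finite abelian p-group A there are infinitely many Galois extensions K/F of p-power degree, with H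
contained in Gal(K/F), such that the p-primary part of the Tate-Shafarevich group over K is isomorphic to (A × A)^r with r ≥ 1 (and the other
conclusions hold). -/
def InvHP (F : Type) [Field F] [NumberField F] (p : ℕ) (W : WeierstrassCurve ℤ) : Prop :=
  ∀ (H : Type) [Group H] [Finite H] (k : ℕ), Nat.card H = p ^ k → ∀ (A : Type) [AddCommGroup A] [Finite A] (m : ℕ), Nat.card A = p ^ m →
    ∀ X : ℕ,
    ∃ (K : Type) (_ : Field K) (_ : NumberField K) (_ : Algebra F K),
      IsGalois F K ∧ (∃ s : ℕ, Module.finrank F K = p ^ s) ∧ (∃ φ : H →* (K ≃ₐ[F] K), Function.Injective φ) ∧ X < (discr K).natAbs ∧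
      ∃ r : ℕ, 1 ≤ r ∧ Concl p W K (Fin r → A × A)

/-- For every finite p-group H and every finite abelian p-group A there are infinitely many number fields K with a real place, with a quadratic
extension N Galois over ℚ and of p-power degree over F, such that H is a subquotient of Gal(N/F) and the p-primary part of the Tate-Shafarevich
group over K is isomorphic to (A × A)^r with r ≥ 1 (and the other conclusions hold). -/
def InvRealP (F : Type) [Field F] [NumberField F] (p : ℕ) (W : WeierstrassCurve ℤ) : Prop :=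
  ∀ (H : Type) [Group H] [Finite H] (k : ℕ), Nat.card H = p ^ k → ∀ (A : Type) [AddCommGroup A] [Finite A] (m : ℕ), Nat.card A = p ^ m →
    ∀ X : ℕ,
    ∃ (K : Type) (_ : Field K) (_ : NumberField K),
      0 < InfinitePlace.nrRealPlaces K ∧ X < (discr K).natAbs ∧ (∃ r : ℕ, 1 ≤ r ∧ Concl p W K (Fin r → A × A)) ∧
      ∃ (N : Type) (_ : Field N) (_ : NumberField N) (_ : Algebra F N) (_ : Algebra K N),
        Module.finrank K N = 2 ∧ IsGalois ℚ N ∧ (∃ s : ℕ, Module.finrank F N = p ^ s) ∧ H28R.SubQ (N ≃ₐ[F] N) H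

end H57TX
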