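import Mathlib
import Pool.Agent.Lib.H57TX.StmP
import Pool.Agent.Lib.H57TX.P2

/-! # H57TX (T+): the inverse theorem over ℚ -/

open NumberField IsDedekindDomain WeierstrassCurve

namespace H57TX

open H28T
open H55P H55R
open H55K H55K.TQ
open H57N (Cmp cE cAlg p5_num p5_cmp p2_unr e2_iff)
open H13T (AnR)
open H13V (eK HypP AtKT ShaThmP ShaG)

variable {F : Type} [Field F] [NumberField F] [IQ F] {W : WeierstrassCurve ℤ} {p : ℕ}

/-- The facts on the curve. -/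
structure FctP {F : Type} [Field F] [NumberField F] [IQ F] (W : WeierstrassCurve ℤ) (p : ℕ) : Prop extends H57N.Fct (F := F) W p where
  many : ∀ t : ℕ, ManyP (W⁄(𝓞 F)) p t

theorem ep_core (hF : FctP (F := F) W p) {n t l : ℕ} {Q : Finset ℕ} {lev : ℕ → ℕ} (ht : 1 ≤ t) (hn : 1 ≤ n)
    {B : Type} [Field B] [NumberField B] {B' : IntermediateField ℚ B} (hC : Cy p n t l Q lev B B')
    (K' K L : Type) [Field K'] [NumberField K'] [Field K] [NumberField K] [Field L] [NumberField L]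
    [Algebra K' K] [Algebra B' K'] [Algebra B K] [Algebra K' L] [Algebra F L] [Algebra B' L]
    (hCh : ChP F W p n t l Q lev F) (hs' : Function.Surjective (algebraMap B' K')) (hs : Function.Surjective (algebraMap B K))
    (hL : Cmp F B' L) :
    (∀ ιK : K →ₐ[ℚ] AlgebraicClosure F, HypP F p n t W ℚ K' K ιK) ∧ (AnR p W K' K).Finite ∧
      (AnR p W K' K).ncard ≤ Q.card ∧
      (∀ w ∈ AnR p W K' K, ∃ q ∈ Q, (q : 𝓞 K') ∈ w.asIdeal ∧ eK K w = p ^ lev q) ∧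
      ∀ q ∈ Q, ∃ w ∈ AnR p W K' K, (q : 𝓞 K') ∈ w.asIdeal := by
  haveI tQ : IsScalarTower ℚ K' K := IsScalarTower.of_algebraMap_eq' (Subsingleton.elim _ _)
  have hnd : ∀ r : ℕ, r.Prime → ¬ (r : ℤ) ∣ discr ℚ := by
    intro r hr h1
    rw [Rat.numberField_discr] at h1
    have h2 := Int.natAbs_dvd_natAbs.2 h1
    simp only [Int.natAbs_natCast, Int.natAbs_one, Nat.dvd_one] at h2
    exact hr.one_lt.ne' h2
  have hCh' : ChP F W p n t l Q lev ℚ :=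
    ⟨⟨hCh.prm, hCh.good, fun r hr h1 => absurd h1 (hnd r hr), hCh.pl, hCh.pQ, hCh.pts⟩, hCh.pts2⟩
  have hU : UnrP p ℚ := (e2_iff ℚ hF.hp).2 ((p2_unr ℚ hF.hp).1 (hnd p hF.hp))
  have hext : ExtG (Gx (W⁄(𝓞 F)) p) p L := e1_ext hC F L hL (e7_base _) hCh.dis hCh.good
  have h := p2_core hF.toFct ht hn hC ℚ K' K L hCh' (e7_cmp hs') (e7_cmp hs) hext hU
    (hF.bad ℚ F inferInstance ⟨0, by rw [pow_zero]; exact Module.finrank_self F⟩)
    (by rw [Module.finrank_self]; exact Nat.one_lt_pow (by omega) hF.hp.one_lt)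
  rw [Module.finrank_self, mul_one] at h
  exact h

theorem ep_exist (hF : FctP (F := F) W p) : ExistP F p W := by
  intro A _ _ t ht hkill X
  obtain ⟨m, hA⟩ := e9_card hF.hp A t hkill
  obtain ⟨ι, hι, f, hf, ⟨eA⟩⟩ := g1_dec hF.hp A m hA
  have hft := g1_le hF.hp f eA t hkill
  obtain ⟨l, Q, hlX, hQc, hQ⟩ := p2_choice hF.hp hF.ell hF.dir ht (hF.many t) F 1 (Fintype.card ι) X
  obtain ⟨e, lev, hlev⟩ := e6_lev hQc f
  have hCh := hQ lev fun q hq => by rw [hlev ⟨q, hq⟩]; exact ⟨hf _, hft _⟩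
  obtain ⟨B, i1, i2, B', hC⟩ := c5_exists hCh.prm
  obtain ⟨j⟩ : Nonempty (B →+* AlgebraicClosure F) := ⟨(IsAlgClosed.lift : B →ₐ[ℚ] AlgebraicClosure F).toRingHom⟩
  obtain ⟨j', hj'⟩ : ∃ j' : B' →+* AlgebraicClosure F, j' = j.comp (algebraMap B' B) := ⟨_, rfl⟩
  letI nL : NumberField (cE F j') := p5_num F j'
  letI aL : Algebra B' (cE F j') := cAlg F j'
  obtain ⟨h1, h2, h3, h4, h5⟩ := ep_core hF ht (le_refl 1) hC B' B (cE F j') hCh Function.surjective_id Function.surjective_id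
    (p5_cmp F j')
  obtain ⟨g, hg1, hg2⟩ := e6_map e hlev (fun q hq' => (hCh.prm.hq q hq').1) h4 h5
  have hfi : Finite (AnR p W B' B) := h2
  have hbij : Function.Bijective g := by
    refine (Nat.bijective_iff_surjective_and_card g).2 ⟨hg1, le_antisymm ?_ (Nat.card_le_card_of_surjective g hg1)⟩
    rw [Nat.card_coe_set_eq, Nat.card_eq_fintype_card, ← hQc]
    exact h3
  obtain ⟨e1⟩ := g1_iso g hbij (fun w => eK B w.1) (fun x => p ^ f x) hg2
  obtain ⟨ιK⟩ : Nonempty (B →ₐ[ℚ] AlgebraicClosure F) := ⟨IsAlgClosed.lift⟩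
  have h6 := (h1 ιK).cyc
  have hdeg := h6.deg
  rw [Nat.add_comm 1 t] at hdeg
  exact ⟨B', B, inferInstance, inferInstance, i1, i2, inferInstance, h6.gal, h6.cyc, hdeg,
    lt_of_lt_of_le hlX (e9_disc hC hF.hp (le_refl 1)), h1, ⟨e1.trans eA.symm⟩⟩

/-- The facts for the curves with complex multiplication by the maximal order. -/
theorem ep_fct {Om : ℂ} {m : Ideal (𝓞 F)} {ψ : Ideal (𝓞 F) →*₀ 𝓞 F} (hH : BaseH F (W⁄(𝓞 F)) Om m ψ) (hp : PrimeH F (W⁄(𝓞 F)) p)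
    (hA : AnUnitG p W ℚ) : FctP (F := F) W p where
  toFct := H57N.e6_fct hH hp hA
  many := p1_many hH hp

open H28I in
/-- The facts for the isogenous curves. -/
theorem ep_fct_iso {W' : WeierstrassCurve ℤ} {Om : ℂ} {m : Ideal (𝓞 F)}
    {ψ : Ideal (𝓞 F) →*₀ 𝓞 F} {kap : ℤ} {e s u lam : ℚ} (h : TW F W W' Om m ψ kap e s u lam) (hp' : PrimeH F (W'⁄(𝓞 F)) p)
    (hA : AnUnitG p W' ℚ) : FctP (F := F) W' p where
  toFct := H57N.e6_fct_iso h hp' hA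
  many := p1_many_iso h hp'

/-- THE INVERSE THEOREM for the maximal order. -/
theorem existP_main {Om : ℂ} {m : Ideal (𝓞 F)} {ψ : Ideal (𝓞 F) →*₀ 𝓞 F} (hH : BaseH F (W⁄(𝓞 F)) Om m ψ)
    (hp : PrimeH F (W⁄(𝓞 F)) p) (hA : AnUnitG p W ℚ) : ExistP F p W :=
  ep_exist (ep_fct hH hp hA)

open H28I in
/-- THE INVERSE THEOREM for the isogenous curves. -/
theorem existP_iso {W' : WeierstrassCurve ℤ} {Om : ℂ} {m : Ideal (𝓞 F)}
    {ψ : Ideal (𝓞 F) →*₀ 𝓞 F} {kap : ℤ} {e s u lam : ℚ} (h : TW F W W' Om m ψ kap e s u lam) (hp' : PrimeH F (W'⁄(𝓞 F)) p)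
    (hA : AnUnitG p W' ℚ) : ExistP F p W' :=
  ep_exist (ep_fct_iso h hp' hA)

/-- The conclusions from the theorem (T+). -/
theorem concl_of {K' K : Type} [Field K'] [NumberField K'] [Field K] [NumberField K] [Algebra K' K] (hAt : AtKT p W K' K)
    {A S : Type} [AddCommGroup A] [AddCommGroup S] (e : ((w : AnR p W K' K) → ZMod (eK K w.1)) ≃+ A) (f : A × A ≃+ S) : Concl p W K S := by
  obtain ⟨⟨e3⟩, -⟩ := e9_conc hAt e
  have hcard : Nat.card (ShaG p K (W⁄K)) = Nat.card S := Nat.card_congr (e3.trans f).toEquiv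
  obtain ⟨Λ, hΛ1, hΛ2, hΛ3, hΛ4⟩ := hAt.bsd
  refine ⟨hAt.pts, ⟨e3.trans f⟩, hAt.per, Λ, hΛ1, hΛ2, hΛ3, ?_⟩
  intro L hL V hV
  rw [← hcard]
  exact hΛ4 L hL V hV

/-- THE INVERSE THEOREM from the theorem (T+) and the existence theorem. -/
theorem invP_of (hp : p.Prime) (h2 : p ≠ 2) (hT : ShaThmP F p W) (hE : ExistP F p W) : InvP p W := by
  intro A _ _ m hm hkill X
  obtain ⟨K', K, i1, i2, i3, i4, i5, hg, hc, hdeg, hX, hyp, ⟨e⟩⟩ := hE A m hm hkill X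
  obtain ⟨ιK⟩ : Nonempty (K →ₐ[ℚ] AlgebraicClosure F) := ⟨IsAlgClosed.lift⟩
  refine ⟨K, i3, i4, hg, hc, hdeg, e8_tot K ?_, hX, concl_of (hT ℚ K' K ιK 1 m (hyp ιK)) e (AddEquiv.refl _)⟩
  rw [hdeg]
  exact (hp.odd_of_ne_two h2).pow

/-- A power of A × A. -/
def powE (A : Type) [AddCommGroup A] (r : ℕ) : (Fin r → A) × (Fin r → A) ≃+ (Fin r → A × A) where
  toFun u i := (u.1 i, u.2 i)
  invFun v := (fun i => (v i).1, fun i => (v i).2)
  left_inv _ := rfl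
  right_inv _ := rfl
  map_add' _ _ := rfl

/-- The inverse theorem with a p-group H from the theorem (T+) and the existence theorem. -/
theorem invHP_of (hT : ShaThmP F p W) (hE : ExistHP F p W) : InvHP F p W := by
  intro H _ _ k hk A _ _ m hA X
  obtain ⟨M, K', K, i1, i2, i3, i4, i5, i6, i7, i8, i9, i10, n, t, hg, hs, hφ, hX, hyp, r, hr, ⟨e⟩⟩ := hE H k hk A m hA X
  obtain ⟨ιK⟩ : Nonempty (K →ₐ[ℚ] AlgebraicClosure F) := ⟨IsAlgClosed.lift⟩
  exact ⟨K, i5, i6, i10, hg, hs, hφ, hX, r, hr, concl_of (hT M K' K ιK n t (hyp ιK)) e (powE A r)⟩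

/-- The real version from the theorem (T+) and the existence theorem. -/
theorem invRealP_of (hT : ShaThmP F p W) (hE : ExistRealP F p W) : InvRealP F p W := by
  intro H _ _ k hk A _ _ m hA X
  obtain ⟨M, K', K, i1, i2, i3, i4, i5, i6, i7, i8, i9, n, t, hre, hX, hyp, ⟨r, hr, ⟨e⟩⟩, hN⟩ := hE H k hk A m hA X
  obtain ⟨ιK⟩ : Nonempty (K →ₐ[ℚ] AlgebraicClosure F) := ⟨IsAlgClosed.lift⟩
  exact ⟨K, i5, i6, hre, hX, ⟨r, hr, concl_of (hT M K' K ιK n t (hyp ιK)) e (powE A r)⟩, hN⟩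

end H57TX
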