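import Mathlib
import Pool.Agent.Lib.H57TX.P2

/-! # H57TX (T+), P4: prime numbers which split completely in a given field -/

open NumberField IsDedekindDomain WeierstrassCurve

namespace H57TX

open H28T
open H55P H55R
open H55K H55K.TQ
open H57N (Cmp cE cAlg p5_num p5_cmp cj d2_prim p4_below p4_over p4_towerZ p4_uniq e3_nat a1_base)

/-- A number field, Galois over ℚ, containing two given number fields. -/
theorem p4_clo (C N : Type) [Field C] [NumberField C] [Field N] [NumberField N] :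
    ∃ (E : Type) (_ : Field E) (_ : NumberField E) (_ : Algebra C E) (_ : Algebra N E), IsGalois ℚ E := by
  obtain ⟨j⟩ : Nonempty (N →+* AlgebraicClosure C) := ⟨(IsAlgClosed.lift : N →ₐ[ℚ] AlgebraicClosure C).toRingHom⟩
  letI nC : NumberField (cE C j) := p5_num C j
  haveI h1 : Algebra.IsAlgebraic ℚ (AlgebraicClosure C) := Algebra.IsAlgebraic.trans ℚ C (AlgebraicClosure C)
  haveI h2 : IsAlgClosure ℚ (AlgebraicClosure C) := ⟨inferInstance, h1⟩
  haveI h3 : Normal ℚ (AlgebraicClosure C) := IsAlgClosure.normal ℚ (AlgebraicClosure C)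
  haveI t1 : IsScalarTower ℚ (cE C j) (AlgebraicClosure C) := IsScalarTower.of_algebraMap_eq' (Subsingleton.elim _ _)
  letI aE : Algebra (cE C j) (IntermediateField.normalClosure ℚ (cE C j) (AlgebraicClosure C)) := _root_.normalClosure.algebra ℚ (cE C j) (AlgebraicClosure C)
  haveI fE : FiniteDimensional ℚ (IntermediateField.normalClosure ℚ (cE C j) (AlgebraicClosure C)) := _root_.normalClosure.is_finiteDimensional ℚ (cE C j) _
  haveI nE : NumberField (IntermediateField.normalClosure ℚ (cE C j) (AlgebraicClosure C)) :=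
    { to_charZero := inferInstance
      to_finiteDimensional := fE }
  letI a1 : Algebra C (IntermediateField.normalClosure ℚ (cE C j) (AlgebraicClosure C)) :=
    ((algebraMap (cE C j) (IntermediateField.normalClosure ℚ (cE C j) (AlgebraicClosure C))).comp (algebraMap C (cE C j))).toAlgebra
  letI a2 : Algebra N (IntermediateField.normalClosure ℚ (cE C j) (AlgebraicClosure C)) :=
    ((algebraMap (cE C j) (IntermediateField.normalClosure ℚ (cE C j) (AlgebraicClosure C))).comp (cj C j)).toAlgebra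
  haveI nN : Normal ℚ (IntermediateField.normalClosure ℚ (cE C j) (AlgebraicClosure C)) := _root_.normalClosure.normal (F := ℚ) (K := cE C j) (L := AlgebraicClosure C)
  exact ⟨IntermediateField.normalClosure ℚ (cE C j) (AlgebraicClosure C), inferInstance, nE, a1, a2, ⟨⟩⟩

/-- All residue degrees of the prime number q in N are 1. -/
def Spl (N : Type) [Field N] [NumberField N] (q : ℕ) : Prop :=
  ∀ w : HeightOneSpectrum (𝓞 N), (q : 𝓞 N) ∈ w.asIdeal → w.asIdeal.inertiaDeg ℤ = 1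

theorem spl_down {N E : Type} [Field N] [NumberField N] [Field E] [NumberField E] [Algebra N E] {q : ℕ} (h : Spl E q) : Spl N q := by
  intro u hu
  obtain ⟨w, hw⟩ := H55R.under_exists (L := E) u
  have huw : u.asIdeal = w.asIdeal.under (𝓞 N) := by rw [← hw]; rfl
  have hqw : (q : 𝓞 E) ∈ w.asIdeal := by
    rw [huw, e3_nat] at hu
    exact hu
  have h1 := (p4_towerZ w u huw).2
  rw [h w hqw] at h1
  exact Nat.eq_one_of_mul_eq_one_right h1.symm

theorem spl_gal {E : Type} [Field E] [NumberField E] [IsGalois ℚ E] {q : ℕ} (hq : q.Prime) (w : HeightOneSpectrum (𝓞 E))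
    (hw : Ideal.absNorm w.asIdeal = q) : Spl E q := by
  intro w' hw'
  have hqw : (q : 𝓞 E) ∈ w.asIdeal := by
    rw [← hw]
    exact Ideal.absNorm_mem w.asIdeal
  have h1 := p2_norm hq w hqw
  rw [hw] at h1
  have h2 : w.asIdeal.inertiaDeg ℤ = 1 := by
    have h3 : q ^ 1 = q ^ w.asIdeal.inertiaDeg ℤ := by rw [pow_one]; exact h1
    exact (Nat.pow_right_injective hq.two_le h3).symm
  have hwp := w.isPrime
  have hwp' := w'.isPrime
  have hl : w.asIdeal.LiesOver (Ideal.span {(q : ℤ)}) := (p4_over hq w.asIdeal w.isPrime).1 hqw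
  have hl' : w'.asIdeal.LiesOver (Ideal.span {(q : ℤ)}) := (p4_over hq w'.asIdeal w'.isPrime).1 hw'
  have h4 : w'.asIdeal.inertiaDeg ℤ = w.asIdeal.inertiaDeg ℤ :=
    Ideal.inertiaDeg_eq_of_isGaloisGroup (Ideal.span {(q : ℤ)}) w'.asIdeal w.asIdeal (E ≃ₐ[ℚ] E)
  rw [h4, h2]

/-- The prime numbers q: for all large prime numbers l there are arbitrarily large prime numbers q = 1 mod p^t, primitive roots modulo l, which
split completely in N, with a prime v of F of norm q at which the number of points is divisible by p^(2t). -/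
def ManyS {F : Type} [Field F] [NumberField F] (W₀ : WeierstrassCurve (𝓞 F)) (p t : ℕ) (N : Type) [Field N] [NumberField N] : Prop :=
  ∃ L0 : ℕ, ∀ l : ℕ, l.Prime → L0 < l → ∀ Bd : ℕ, ∃ q : ℕ, q.Prime ∧ Bd < q ∧ p ^ t ∣ q - 1 ∧ orderOf (q : ZMod l) = l - 1 ∧ Spl N q ∧
    ∃ v : HeightOneSpectrum (𝓞 F), Ideal.absNorm v.asIdeal = q ∧ W₀.Δ ∉ v.asIdeal ∧
      p ^ (2 * t) ∣ Nat.card (W₀⁄(𝓞 F ⧸ v.asIdeal)).toAffine.Point

theorem p4_many {F : Type} [Field F] [NumberField F] [IQ F] {W₀ : WeierstrassCurve (𝓞 F)} {Om : ℂ} {m : Ideal (𝓞 F)}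
    {ψ : Ideal (𝓞 F) →*₀ 𝓞 F} {p : ℕ} (hH : BaseH F W₀ Om m ψ) (hp : PrimeH F W₀ p) (t : ℕ) (N : Type) [Field N] [NumberField N] :
    ManyS W₀ p t N := by
  obtain ⟨C, _, _, _, S, hS, hw⟩ := p1_field hH hp t
  obtain ⟨E, _, _, _, _, hE⟩ := p4_clo C N
  refine ⟨(discr E).natAbs, fun l hl hL Bd => ?_⟩
  have hd : ¬ (l : ℤ) ∣ discr E := by
    intro h1
    have h2 : l ∣ (discr E).natAbs := Int.natCast_dvd.1 h1
    have h3 := Nat.le_of_dvd (Int.natAbs_pos.2 (discr_ne_zero E)) h2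
    omega
  obtain ⟨w, hwS, hwN, hwo⟩ := d2_prim E hl hd ({w : Pl E | w.under (𝓞 C) ∈ S} ∪ {w : Pl E | Ideal.absNorm w.asIdeal ≤ Bd})
    ((hS.preimage' (f := fun w : Pl E => w.under (𝓞 C)) fun b _ => above_finite b).union (H28R.W5_fin_norm Bd))
  rw [Set.mem_union, not_or] at hwS
  have hq : (Ideal.absNorm w.asIdeal).Prime := hwN
  have hspl : Spl E (Ideal.absNorm w.asIdeal) := spl_gal hq w rfl
  have hqC : ((Ideal.absNorm w.asIdeal : ℕ) : 𝓞 C) ∈ (w.under (𝓞 C)).asIdeal := by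
    have h1 : ((Ideal.absNorm w.asIdeal : ℕ) : 𝓞 E) ∈ w.asIdeal := Ideal.absNorm_mem w.asIdeal
    show ((Ideal.absNorm w.asIdeal : ℕ) : 𝓞 C) ∈ w.asIdeal.under (𝓞 C)
    rw [e3_nat]
    exact h1
  have hN : Ideal.absNorm (w.under (𝓞 C)).asIdeal = Ideal.absNorm w.asIdeal := by
    rw [p2_norm hq (w.under (𝓞 C)) hqC, (spl_down hspl : Spl C _) _ hqC, pow_one]
  obtain ⟨h1, v, h2, h3, h4⟩ := hw (w.under (𝓞 C)) hwS.1 (by rw [hN]; exact hq)
  rw [hN] at h1 h2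
  exact ⟨Ideal.absNorm w.asIdeal, hwN, not_le.1 hwS.2, h1, hwo, spl_down hspl, v, h2, h3, h4⟩

open H28I in
theorem p4_many_iso {F : Type} [Field F] [NumberField F] [IQ F] {W W' : WeierstrassCurve ℤ} {Om : ℂ} {m : Ideal (𝓞 F)}
    {ψ : Ideal (𝓞 F) →*₀ 𝓞 F} {kap : ℤ} {e s u lam : ℚ} {p : ℕ} (h : TW F W W' Om m ψ kap e s u lam) (hp' : PrimeH F (W'⁄(𝓞 F)) p) (t : ℕ)
    (N : Type) [Field N] [NumberField N] : ManyS (W'⁄(𝓞 F)) p t N := by
  obtain ⟨L0, hL0⟩ := p4_many h.base ((tw_prime h).1 hp') t N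
  refine ⟨L0, fun l hl hl0 Bd => ?_⟩
  obtain ⟨q, hq, hB, hpq, ho, hs, v, hv, hΔ, hd⟩ := hL0 l hl hl0 Bd
  have hΔ' : (W'⁄(𝓞 F)).Δ ∉ v.asIdeal := mt (tw_supp h v).1 hΔ
  exact ⟨q, hq, hB, hpq, ho, hs, v, hv, hΔ', by rw [(tw_deu h v hΔ').1]; exact hd⟩

/-- The prime numbers are chosen for the field N and the levels lev, totally split in N, with all points killed by p^t over the prime field. -/
structure ChS (F : Type) [Field F] [NumberField F] (W : WeierstrassCurve ℤ) (p n t l : ℕ) (Q : Finset ℕ) (lev : ℕ → ℕ)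
    (N : Type) [Field N] [NumberField N] : Prop extends ChP F W p n t l Q lev N where
  spl : ∀ q ∈ Q, Spl N q

theorem p4_choice {F : Type} [Field F] [NumberField F] {W : WeierstrassCurve ℤ} {p : ℕ} (hp : p.Prime) (hΔ : W.Δ ≠ 0)
    (hdir : DirH (Gx (W⁄(𝓞 F)) p) p) {t : ℕ} (ht : 1 ≤ t) (N : Type) [Field N] [NumberField N] (hQ : ManyS (W⁄(𝓞 F)) p t N) (n c X : ℕ) :
    ∃ (l : ℕ) (Q : Finset ℕ), X < l ∧ Q.card = c ∧ ∀ lev : ℕ → ℕ, (∀ q ∈ Q, 1 ≤ lev q ∧ lev q ≤ t) → ChS F W p n t l Q lev N := by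
  classical
  obtain ⟨L0, hL0⟩ := hQ
  obtain ⟨l, hl, hlN, hpl, hG⟩ := hdir (n + t) (max (max X L0) (max p (discr N).natAbs))
  have hlX : X < l := lt_of_le_of_lt ((le_max_left _ _).trans (le_max_left _ _)) hlN
  have hlL : L0 < l := lt_of_le_of_lt ((le_max_right _ _).trans (le_max_left _ _)) hlN
  have hlp : p < l := lt_of_le_of_lt ((le_max_left _ _).trans (le_max_right _ _)) hlN
  have hlD : (discr N).natAbs < l := lt_of_le_of_lt ((le_max_right _ _).trans (le_max_right _ _)) hlN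
  have hD0 : discr N ≠ 0 := discr_ne_zero N
  let C : Set ℕ := {q | (q.Prime ∧ p ^ t ∣ q - 1 ∧ orderOf (q : ZMod l) = l - 1 ∧ Spl N q ∧
    ∃ v : HeightOneSpectrum (𝓞 F), Ideal.absNorm v.asIdeal = q ∧ (W⁄(𝓞 F)).Δ ∉ v.asIdeal ∧
      p ^ (2 * t) ∣ Nat.card ((W⁄(𝓞 F))⁄(𝓞 F ⧸ v.asIdeal)).toAffine.Point) ∧ l < q ∧ (discr N).natAbs < q ∧ W.Δ.natAbs < q}
  have hinf : C.Infinite := by
    apply Set.infinite_of_forall_exists_gt
    intro a
    obtain ⟨q, h1, h2, h3, h4, hs, h5⟩ := hL0 l hl hlL (max a (max l (max (discr N).natAbs W.Δ.natAbs)))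
    have b1 : a < q := lt_of_le_of_lt (le_max_left _ _) h2
    have b2 : l < q := lt_of_le_of_lt ((le_max_left _ _).trans (le_max_right _ _)) h2
    have b3 : (discr N).natAbs < q := lt_of_le_of_lt (((le_max_left _ _).trans (le_max_right _ _)).trans (le_max_right _ _)) h2
    have b4 : W.Δ.natAbs < q := lt_of_le_of_lt (((le_max_right _ _).trans (le_max_right _ _)).trans (le_max_right _ _)) h2
    exact ⟨q, ⟨⟨h1, h3, h4, hs, h5⟩, b2, b3, b4⟩, b1⟩
  obtain ⟨Q, hQC, hcard⟩ := hinf.exists_subset_card_eq c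
  have hnd : ∀ (z : ℤ) (r : ℕ), z ≠ 0 → z.natAbs < r → ¬ (r : ℤ) ∣ z := by
    intro z r hz hlt hdv
    have := Nat.le_of_dvd (Int.natAbs_pos.2 hz) (Int.natCast_dvd.1 hdv)
    omega
  have hpt : ∀ q ∈ Q, ¬ (q : ℤ) ∣ W.Δ ∧ ∃ v : HeightOneSpectrum (𝓞 F), Ideal.absNorm v.asIdeal = q ∧
      p ^ (2 * t) ∣ Nat.card (W⁄(𝓞 F ⧸ v.asIdeal)).toAffine.Point := by
    intro q hq
    obtain ⟨⟨-, -, -, -, v, hv1, -, hv3⟩, -, -, h6⟩ := hQC hq
    refine ⟨hnd _ _ hΔ h6, v, hv1, ?_⟩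
    rwa [a1_base] at hv3
  have hpd : p ∣ p ^ (2 * t) := dvd_pow_self p (by omega)
  refine ⟨l, Q, hlX, hcard, fun lev hlev => ⟨⟨⟨⟨hp, hl, hpl, ?_, hlev⟩, hG, ?_, ?_, ?_, ?_⟩, fun q hq => (hpt q hq).2⟩, fun q hq => ?_⟩⟩
  · intro q hq
    obtain ⟨⟨h1, h2, h3, -⟩, h4, -, -⟩ := hQC hq
    exact ⟨h1, h2, h4.ne', h3⟩
  · intro r _ hrd
    constructor
    · rintro rfl
      exact hnd _ _ hD0 hlD hrd
    · intro hrQ
      obtain ⟨-, -, h5, -⟩ := hQC hrQ
      exact hnd _ _ hD0 h5 hrd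
  · exact hlp.ne
  · intro hpQ
    obtain ⟨-, h4, -, -⟩ := hQC hpQ
    omega
  · intro q hq
    obtain ⟨h1, v, hv, h2⟩ := hpt q hq
    exact ⟨h1, v, hv, hpd.trans h2⟩
  · obtain ⟨⟨-, -, -, hs, -⟩, -⟩ := hQC hq
    exact hs

end H57TX
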