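import Mathlib
import Pool.Agent.Lib.H57TX.P4

/-! # H57TX (T+), P5: the set AnR is the union of the sets of primes above the q in Q, each with [M : ℚ] elements -/

open NumberField IsDedekindDomain WeierstrassCurve

namespace H57TX

open H28T
open H55P H55R
open H55K H55K.TQ
open H57N (Cmp p4_below p4_above p4_over p4_towerZ p4_count p4_uniq e3_nat a1_deg p2_unr)
open H13T (AnR)
open H13V (eK)

/-- The product of the groups ℤ/a over a set X with a map to ι with fibres of r elements, if a is constant on the fibres. -/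
theorem g2_iso {X ι : Type} [Finite X] (g : X → ι) (r : ℕ) (hr : ∀ x, Nat.card {w // g w = x} = r) (a : X → ℕ) (b : ι → ℕ)
    (h : ∀ w, a w = b (g w)) : Nonempty (((w : X) → ZMod (a w)) ≃+ (Fin r → (x : ι) → ZMod (b x))) := by
  classical
  have e : ∀ x, {w // g w = x} ≃ Fin r := fun x => Finite.equivFinOfCardEq (hr x)
  let E : X ≃ ι × Fin r := (Equiv.sigmaFiberEquiv g).symm.trans ((Equiv.sigmaCongrRight e).trans (Equiv.sigmaEquivProd ι (Fin r)))
  have hE : ∀ w, (E w).1 = g w := fun w => rfl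
  obtain ⟨f⟩ := g1_iso (fun w => E w) E.bijective a (fun y => b y.1) (fun w => by rw [h w, hE w])
  exact ⟨f.trans
    { toFun := fun u i x => u (x, i)
      invFun := fun v y => v y.2 y.1
      left_inv := fun _ => rfl
      right_inv := fun _ => rfl
      map_add' := fun _ _ => rfl }⟩

/-- The number of primes above a prime number which splits completely. -/
theorem p5_card (M : Type) [Field M] [NumberField M] {q : ℕ} (hq : q.Prime) (hd : ¬ (q : ℤ) ∣ discr M) (hs : Spl M q) :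
    {w : HeightOneSpectrum (𝓞 M) | (q : 𝓞 M) ∈ w.asIdeal}.Finite ∧
    Module.finrank ℚ M ≤ {w : HeightOneSpectrum (𝓞 M) | (q : 𝓞 M) ∈ w.asIdeal}.ncard := by
  have hF : Fact q.Prime := ⟨hq⟩
  have hm : (Ideal.span {(q : ℤ)}).IsMaximal := Int.ideal_span_isMaximal_of_prime q
  have hmp := hm.isPrime
  have hb : Ideal.span {(q : ℤ)} ≠ ⊥ := by
    rw [Ne, Ideal.span_singleton_eq_bot]
    exact_mod_cast hq.ne_zero
  have hfin : ((Ideal.span {(q : ℤ)}).primesOver (𝓞 M)).Finite := IsDedekindDomain.primesOver_finite (Ideal.span {(q : ℤ)}) (𝓞 M)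
  have hft : Fintype ((Ideal.span {(q : ℤ)}).primesOver (𝓞 M)) := hfin.fintype
  have hsum := Ideal.sum_ramification_inertia_eq_finrank (Ideal.span {(q : ℤ)}) (𝓞 M)
  rw [RingOfIntegers.rank] at hsum
  have hA := (p4_count M hq 0 (fun _ _ => Nat.zero_le _)).1
  refine ⟨hA, ?_⟩
  have h2 : ∀ Q : (Ideal.span {(q : ℤ)}).primesOver (𝓞 M), Q.1.ramificationIdx ℤ * Q.1.inertiaDeg ℤ = 1 := by
    intro Q
    have hQp : Q.1.IsPrime := Q.2.1
    have hQl : Q.1.LiesOver (Ideal.span {(q : ℤ)}) := Q.2.2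
    have h3 : (q : 𝓞 M) ∈ (⟨Q.1, hQp, Ideal.ne_bot_of_liesOver_of_ne_bot hb Q.1⟩ : HeightOneSpectrum (𝓞 M)).asIdeal :=
      (p4_over hq Q.1 hQp).2 hQl
    have h4 := hs _ h3
    have h5 := (p2_unr M hq).1 hd _ h3
    have h6 : Q.1.inertiaDeg ℤ = 1 := h4
    have h7 : Q.1.ramificationIdx ℤ = 1 := h5
    rw [h6, h7]
  have h3 : Fintype.card ((Ideal.span {(q : ℤ)}).primesOver (𝓞 M)) = Module.finrank ℚ M := by
    rw [← hsum, Finset.sum_congr rfl fun Q _ => h2 Q, Finset.sum_const, Finset.card_univ, smul_eq_mul, mul_one]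
  have h4 : ((Ideal.span {(q : ℤ)}).primesOver (𝓞 M)) ⊆
      (fun w : HeightOneSpectrum (𝓞 M) => w.asIdeal) '' {w : HeightOneSpectrum (𝓞 M) | (q : 𝓞 M) ∈ w.asIdeal} := by
    intro Q hQ
    have hQp : Q.IsPrime := hQ.1
    have hQl : Q.LiesOver (Ideal.span {(q : ℤ)}) := hQ.2
    exact ⟨⟨Q, hQp, Ideal.ne_bot_of_liesOver_of_ne_bot hb Q⟩, (p4_over hq Q hQp).2 hQl, rfl⟩
  have h5 := Set.ncard_le_ncard h4 (hA.image _)
  have h6 := Set.ncard_image_le (f := fun w : HeightOneSpectrum (𝓞 M) => w.asIdeal) hA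
  have h7 : ((Ideal.span {(q : ℤ)}).primesOver (𝓞 M)).ncard = Module.finrank ℚ M := by
    rw [← h3, ← Nat.card_coe_set_eq, Nat.card_eq_fintype_card]
  rw [h7] at h5
  exact h5.trans h6

/-- The number of primes of M B' above q. -/
theorem p5_eq {p n t l : ℕ} {Q : Finset ℕ} {lev : ℕ → ℕ} {B : Type} [Field B] [NumberField B] {B' : IntermediateField ℚ B}
    (h : Cy p n t l Q lev B B') (hp : p.Prime) (M K' : Type) [Field M] [NumberField M]
    [Field K'] [NumberField K'] [Algebra M K'] [Algebra B' K'] (hdeg : Module.finrank M K' = p ^ n) {q : ℕ} (hqQ : q ∈ Q) (hq : q.Prime)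
    (hd : ¬ (q : ℤ) ∣ discr M) (hs : Spl M q) :
    {w : HeightOneSpectrum (𝓞 K') | (q : 𝓞 K') ∈ w.asIdeal}.Finite ∧
    {w : HeightOneSpectrum (𝓞 K') | (q : 𝓞 K') ∈ w.asIdeal}.ncard = Module.finrank ℚ M := by
  have hM : IsScalarTower ℚ M K' := IsScalarTower.of_algebraMap_eq' (Subsingleton.elim _ _)
  have hpn : 0 < p ^ n := pow_pos hp.pos n
  have h1 := p4_count K' hq (p ^ n) (fun w hw => by
    obtain ⟨t', ht⟩ := p4_below (B := B') w
    have hqt : (q : 𝓞 B') ∈ t'.asIdeal := by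
      rw [ht, e3_nat]
      exact hw
    rw [(p4_towerZ w t' ht).2]
    have hwp := w.isPrime
    exact (h.ine t' q hqQ hqt).trans (Nat.le_mul_of_pos_right _ (Ideal.inertiaDeg_pos w.asIdeal (𝓞 B'))))
  refine ⟨h1.1, le_antisymm ?_ ?_⟩
  · have h2 := h1.2
    rw [← Module.finrank_mul_finrank ℚ M K', hdeg] at h2
    exact Nat.le_of_mul_le_mul_right h2 hpn
  · obtain ⟨h2, h3⟩ := p5_card M hq hd hs
    refine h3.trans ?_
    have h4 : {u : HeightOneSpectrum (𝓞 M) | (q : 𝓞 M) ∈ u.asIdeal} ⊆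
        (fun w : HeightOneSpectrum (𝓞 K') => w.under (𝓞 M)) '' {w : HeightOneSpectrum (𝓞 K') | (q : 𝓞 K') ∈ w.asIdeal} := by
      intro u hu
      obtain ⟨w, hw⟩ := H55R.under_exists (L := K') u
      refine ⟨w, ?_, hw⟩
      have huw : u.asIdeal = w.asIdeal.under (𝓞 M) := by rw [← hw]; rfl
      have hu' : (q : 𝓞 M) ∈ u.asIdeal := hu
      rw [huw, e3_nat] at hu'
      exact hu'
    exact (Set.ncard_le_ncard h4 (h1.1.image _)).trans (Set.ncard_image_le h1.1)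

/-- All primes of M B' above q are in AnR. -/
theorem p5_mem {F : Type} [Field F] [NumberField F] {W : WeierstrassCurve ℤ} {p n t l : ℕ} {Q : Finset ℕ} {lev : ℕ → ℕ} {B : Type} [Field B]
    [NumberField B] {B' : IntermediateField ℚ B} (hp : p.Prime) (h : Cy p n t l Q lev B B') (M K' K : Type) [Field M] [NumberField M]
    [Field K'] [NumberField K'] [Field K] [NumberField K]
    [Algebra M K'] [Algebra K' K] [Algebra M K] [IsScalarTower M K' K] [Algebra B' K'] [Algebra B K] (hK' : Cmp M B' K') (hK : Cmp M B K)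
    (hd : ∀ r : ℕ, r.Prime → (r : ℤ) ∣ discr M → r ≠ l ∧ r ∉ Q) (q : ℕ) (hqQ : q ∈ Q) (hlev : 1 ≤ lev q) (hqp : q.Prime) (hql : q ≠ l)
    (hqΔ : ¬ (q : ℤ) ∣ W.Δ)
    (v : HeightOneSpectrum (𝓞 F)) (hv : Ideal.absNorm v.asIdeal = q) (hpv : p ∣ Nat.card (W⁄(𝓞 F ⧸ v.asIdeal)).toAffine.Point)
    (w : HeightOneSpectrum (𝓞 K')) (hqw : (q : 𝓞 K') ∈ w.asIdeal) : w ∈ AnR p W K' K := by
  obtain ⟨P, hP⟩ := H55R.under_exists (L := K) w
  have hPw : w.asIdeal = P.asIdeal.under (𝓞 K') := by rw [← hP]; rfl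
  have hqP : (q : 𝓞 K) ∈ P.asIdeal := by
    rw [hPw, e3_nat] at hqw
    exact hqw
  have hr := e3_ram h M K' K hK' hK hd hqQ hqp hql P hqP
  refine ⟨?_, a1_deg W hqp v hv w hqw hpv, P, hPw.symm, ?_⟩
  · intro h1
    obtain ⟨a, b, hab⟩ := ((Nat.prime_iff_prime_int.1 hqp).coprime_iff_not_dvd).2 hqΔ
    have h3 := congrArg (fun z : ℤ => (z : 𝓞 K')) hab
    simp only [Int.cast_add, Int.cast_mul, Int.cast_natCast, Int.cast_one] at h3
    refine w.isPrime.ne_top ((Ideal.eq_top_iff_one _).2 ?_)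
    rw [← h3]
    exact add_mem (Ideal.mul_mem_left _ _ hqw) (Ideal.mul_mem_left _ _ h1)
  · rw [hr]
    exact (Nat.one_lt_pow (by omega) hp.one_lt).ne'

variable {p : ℕ} {W : WeierstrassCurve ℤ}

/-- The product of the groups ℤ/e over AnR. -/
theorem p5_iso {K' K : Type} [Field K'] [NumberField K'] [Field K] [NumberField K] [Algebra K' K] {Q : Finset ℕ} {lev : ℕ → ℕ}
    {ι : Type} {f : ι → ℕ} (e : {q // q ∈ Q} ≃ ι) (hlev : ∀ q : {q // q ∈ Q}, lev q = f (e q)) (hq : ∀ q ∈ Q, q.Prime)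
    (h1 : ∀ w ∈ AnR p W K' K, ∃ q ∈ Q, (q : 𝓞 K') ∈ w.asIdeal ∧ eK K w = p ^ lev q) (hfin : (AnR p W K' K).Finite) (r : ℕ)
    (h2 : ∀ q ∈ Q, ∀ w : HeightOneSpectrum (𝓞 K'), (q : 𝓞 K') ∈ w.asIdeal → w ∈ AnR p W K' K)
    (h3 : ∀ q ∈ Q, {w : HeightOneSpectrum (𝓞 K') | (q : 𝓞 K') ∈ w.asIdeal}.ncard = r) :
    Nonempty (((w : AnR p W K' K) → ZMod (eK K w.1)) ≃+ (Fin r → (x : ι) → ZMod (p ^ f x))) := by
  have key : ∀ w : AnR p W K' K, ∃ q : {q // q ∈ Q}, ((q : ℕ) : 𝓞 K') ∈ w.1.asIdeal ∧ eK K w.1 = p ^ lev q := by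
    intro w
    obtain ⟨q, hq, h3, h4⟩ := h1 w.1 w.2
    exact ⟨⟨q, hq⟩, h3, h4⟩
  choose c hc1 hc2 using key
  have hfi : Finite (AnR p W K' K) := hfin
  refine g2_iso (fun w => e (c w)) r (fun x => ?_) (fun w => eK K w.1) (fun x => p ^ f x) (fun w => ?_)
  · rw [← h3 (e.symm x) (e.symm x).2, ← Nat.card_coe_set_eq]
    refine Nat.card_congr ?_
    refine
      { toFun := fun w => ⟨w.1.1, ?_⟩
        invFun := fun w => ⟨⟨w.1, h2 (e.symm x) (e.symm x).2 w.1 w.2⟩, ?_⟩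
        left_inv := fun _ => rfl
        right_inv := fun _ => rfl }
    · have h4 : e (c w.1) = x := w.2
      have h5 := hc1 w.1
      have h8 : e.symm x = c w.1 := (Equiv.symm_apply_eq e).2 h4.symm
      have h9 : ((e.symm x : {q // q ∈ Q}) : ℕ) = (c w.1 : {q // q ∈ Q}) := congrArg Subtype.val h8
      show (((e.symm x : {q // q ∈ Q}) : ℕ) : 𝓞 K') ∈ w.1.1.asIdeal
      rw [h9]
      exact h5
    · have h6 : ((c ⟨w.1, h2 (e.symm x) (e.symm x).2 w.1 w.2⟩ : {q // q ∈ Q}) : ℕ) = (e.symm x : {q // q ∈ Q}) :=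
        p4_uniq w.1 (hq _ (c ⟨w.1, h2 (e.symm x) (e.symm x).2 w.1 w.2⟩).2) (hq _ (e.symm x).2)
          (hc1 ⟨w.1, h2 (e.symm x) (e.symm x).2 w.1 w.2⟩) w.2
      have h7 : c ⟨w.1, h2 (e.symm x) (e.symm x).2 w.1 w.2⟩ = e.symm x := Subtype.ext h6
      rw [h7, e.apply_symm_apply]
  · show eK K w.1 = p ^ f (e (c w))
    rw [hc2 w, hlev]

/-- The product of the groups ℤ/e is a power of the group A. -/
theorem p5_grp {A ι : Type} [AddCommGroup A] {f : ι → ℕ} (eA : A ≃+ ((x : ι) → ZMod (p ^ f x))) (r : ℕ) :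
    Nonempty ((Fin r → (x : ι) → ZMod (p ^ f x)) ≃+ (Fin r → A)) :=
  ⟨AddEquiv.piCongrRight fun _ => eA.symm⟩

end H57TX
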