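import Mathlib
import Pool.Agent.Lib.H57TX.EP
import Pool.Agent.Lib.H57TX.P5
import Pool.Agent.Lib.H57TX.E8

/-! # H57TX (T+): existence over base fields Galois over F, and the real version, with the exact group (A × A)^r -/

open NumberField IsDedekindDomain WeierstrassCurve

namespace H57TX

open H28T
open H55P H55R
open H55K H55K.TQ
open H57N (Cmp cE cAlg p5_num p5_cmp p5_mono p5_up p3_gal p2_cop p2_deg e4_emb e6_deg e2_iff p4_towerZ e7_real e7_subq e7_galQ)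
open H13T (AnR)
open H13V (eK HypP)

variable {F : Type} [Field F] [NumberField F] [IQ F] {W : WeierstrassCurve ℤ} {p : ℕ}

/-- The facts on the curve. -/
structure FctS {F : Type} [Field F] [NumberField F] [IQ F] (W : WeierstrassCurve ℤ) (p : ℕ) : Prop extends H57N.Fct (F := F) W p where
  many : ∀ (t : ℕ) (N : Type) [Field N] [NumberField N], ManyS (W⁄(𝓞 F)) p t N

/-- The discriminant is large. -/
theorem p6_disc {n t l X : ℕ} {Q : Finset ℕ} {lev : ℕ → ℕ} {B : Type} [Field B] [NumberField B] {B' : IntermediateField ℚ B}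
    (hC : Cy p n t l Q lev B B') (hp : p.Prime) (hn : 1 ≤ n) (K : Type) [Field K] [NumberField K] [Algebra B K] (hX : X < l) :
    X < (discr K).natAbs := by
  refine lt_of_lt_of_le hX ((e9_disc hC hp hn).trans ?_)
  exact Nat.le_of_dvd (Int.natAbs_pos.2 (discr_ne_zero K)) (Int.natAbs_dvd_natAbs.2 (discr_dvd_discr B K))

/-- The hypotheses of the theorem and the product of the groups ℤ/e, over the fields M B' and M B. -/
theorem p6_core (hF : H57N.Fct (F := F) W p) {n t l : ℕ} {Q : Finset ℕ} {lev : ℕ → ℕ} (ht : 1 ≤ t) (hn : 1 ≤ n)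
    {B : Type} [Field B] [NumberField B] {B' : IntermediateField ℚ B} (hC : Cy p n t l Q lev B B')
    (M K' K L : Type) [Field M] [NumberField M] [Field K'] [NumberField K'] [Field K] [NumberField K] [Field L] [NumberField L]
    [Algebra M K'] [Algebra K' K] [Algebra M K] [IsScalarTower M K' K] [Algebra B' K'] [Algebra B K] [Algebra K' L] [Algebra F L]
    (hCh : ChS F W p n t l Q lev M) (hK' : Cmp M B' K') (hK : Cmp M B K) (hL : ExtG (Gx (W⁄(𝓞 F)) p) p L) (hU : UnrP p M)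
    (hbad : ∀ ιM : M →ₐ[ℚ] AlgebraicClosure F, H13R.BadM (W⁄(𝓞 F)) (KG F M ιM))
    (hM : Module.finrank ℚ M < p ^ n) {ι : Type} {f : ι → ℕ} (e : {q // q ∈ Q} ≃ ι) (hlev : ∀ q : {q // q ∈ Q}, lev q = f (e q)) :
    (∀ ιK : K →ₐ[ℚ] AlgebraicClosure F, HypP F p n t W M K' K ιK) ∧
      Nonempty (((w : AnR p W K' K) → ZMod (eK K w.1)) ≃+ (Fin (Module.finrank ℚ M) → (x : ι) → ZMod (p ^ f x))) := by
  obtain ⟨h1, h2, -, h4, -⟩ := p2_core hF ht hn hC M K' K L hCh.toChP hK' hK hL hU hbad hM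
  have hcyc := e1_cyc hC M K' K hK' hK hCh.dis
  have hnd : ∀ q ∈ Q, ¬ (q : ℤ) ∣ discr M := fun q hq h => (hCh.dis q (hCh.prm.hq q hq).1 h).2 hq
  refine ⟨h1, p5_iso e hlev (fun q hq => (hCh.prm.hq q hq).1) h4 h2 _ (fun q hq w hw => ?_) (fun q hq => ?_)⟩
  · obtain ⟨g1, v, hv, hpv⟩ := hCh.pts q hq
    exact p5_mem hF.hp hC M K' K hK' hK hCh.dis q hq (hCh.prm.hlev q hq).1 (hCh.prm.hq q hq).1 (hCh.prm.hq q hq).2.2.1 g1 v hv hpv w hw
  · exact (p5_eq hC hF.hp M K' hcyc.sub hq (hCh.prm.hq q hq).1 (hnd q hq) (hCh.spl q hq)).2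

/-- Over a base field M which is Galois over F. -/
theorem p6_gal (hF : FctS (F := F) W p) (M : Type) [Field M] [NumberField M] [Algebra F M] (hM : ExtG (Gx (W⁄(𝓞 F)) p) p M)
    (ι : Type) [Fintype ι] (f : ι → ℕ) (t : ℕ) (ht : 1 ≤ t) (hf : ∀ x, 1 ≤ f x ∧ f x ≤ t) (X : ℕ) :
    ∃ (K' K : Type) (_ : Field K') (_ : NumberField K') (_ : Field K) (_ : NumberField K)
      (_ : Algebra M K') (_ : Algebra K' K) (_ : Algebra M K) (_ : Algebra F K) (n : ℕ),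
      IsGalois F K ∧ (∃ r : ℕ, Module.finrank F K = p ^ r) ∧ (∃ φ : (M ≃ₐ[F] M) →* (K ≃ₐ[F] K), Function.Injective φ) ∧
      X < (discr K).natAbs ∧
      (∀ ιK : K →ₐ[ℚ] AlgebraicClosure F, HypP F p n t W M K' K ιK) ∧
      Nonempty (((w : AnR p W K' K) → ZMod (eK K w.1)) ≃+ (Fin (Module.finrank ℚ M) → (x : ι) → ZMod (p ^ f x))) := by
  have hU : UnrP p M := ce_unr hF.hp hF.unrF (fun v h => h.1) hM
  obtain ⟨n, hn⟩ : ∃ n, n = Module.finrank ℚ M := ⟨_, rfl⟩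
  have hn1 : 1 ≤ n := by rw [hn]; exact Module.finrank_pos
  have hnp : Module.finrank ℚ M < p ^ n := by rw [← hn]; exact Nat.lt_pow_self hF.hp.one_lt
  obtain ⟨l, Q, hlX, hQc, hQ⟩ := p4_choice hF.hp hF.ell hF.dir ht M (hF.many t M) n (Fintype.card ι) X
  obtain ⟨e, lev, hlev⟩ := e6_lev hQc f
  have hCh := hQ lev fun q hq => by rw [hlev ⟨q, hq⟩]; exact hf _
  obtain ⟨B, i1, i2, B', hC⟩ := c5_exists hCh.prm
  obtain ⟨j⟩ : Nonempty (B →+* AlgebraicClosure M) := ⟨(IsAlgClosed.lift : B →ₐ[ℚ] AlgebraicClosure M).toRingHom⟩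
  obtain ⟨j', hj'⟩ : ∃ j' : B' →+* AlgebraicClosure M, j' = j.comp (algebraMap B' B) := ⟨_, rfl⟩
  have hle : cE M j' ≤ cE M j := by rw [hj']; exact p5_mono M j _
  letI nK : NumberField (cE M j) := p5_num M j
  letI nK' : NumberField (cE M j') := p5_num M j'
  letI aB : Algebra B (cE M j) := cAlg M j
  letI aB' : Algebra B' (cE M j') := cAlg M j'
  letI aKK : Algebra (cE M j') (cE M j) := (IntermediateField.inclusion hle).toRingHom.toAlgebra
  haveI tM : IsScalarTower M (cE M j') (cE M j) := IsScalarTower.of_algebraMap_eq fun _ => rfl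
  letI aF : Algebra F (cE M j) := ((algebraMap M (cE M j)).comp (algebraMap F M)).toAlgebra
  haveI tF : IsScalarTower F M (cE M j) := IsScalarTower.of_algebraMap_eq fun _ => rfl
  letI aF' : Algebra F (cE M j') := ((algebraMap M (cE M j')).comp (algebraMap F M)).toAlgebra
  haveI tF' : IsScalarTower F M (cE M j') := IsScalarTower.of_algebraMap_eq fun _ => rfl
  have hc : Cmp M B (cE M j) := p5_cmp M j
  have hc' : Cmp M B' (cE M j') := p5_cmp M j'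
  haveI gB := hC.gal
  haveI gB' := hC.gal'
  haveI gM := hM.1
  have hcyc := e1_cyc hC M (cE M j') (cE M j) hc' hc hCh.dis
  have hext : ExtG (Gx (W⁄(𝓞 F)) p) p (cE M j') := e1_ext hC M (cE M j') hc' hM hCh.dis hCh.good
  have hcop : IsCoprime (discr M) (discr B) := p2_cop M B fun r hr hrd w hw => hC.unr w r hr hw (hCh.dis r hr hrd).1 (hCh.dis r hr hrd).2
  have hgK : IsGalois F (cE M j) := p3_gal (F := F) hc
  obtain ⟨k, hk⟩ := hM.2.1
  have hdK : @Module.finrank F (cE M j) _ _ aF.toModule = p ^ (k + (n + t)) := by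
    rw [e6_deg F M (cE M j), hk, hcyc.deg, ← pow_add]
  obtain ⟨h1, h2⟩ := p6_core hF.toFct ht hn1 hC M (cE M j') (cE M j) (cE M j') hCh hc' hc hext hU
    (hF.bad M M hM.1 hM.2.1) hnp e hlev
  exact ⟨cE M j', cE M j, inferInstance, nK', inferInstance, nK, inferInstance, aKK, inferInstance, aF, n, hgK, ⟨_, hdK⟩,
    e4_emb (F := F) hc hcop, p6_disc hC hF.hp hn1 (cE M j) hlX, h1, h2⟩

theorem p6_existHP (hF : FctS (F := F) W p) (hE : ∀ (H : Type) [Group H] [Finite H] (k : ℕ), Nat.card H = p ^ k → ∀ B : ℕ,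
    EmbP (Gx (W⁄(𝓞 F)) p) p H B) : ExistHP F p W := by
  intro H _ _ k hk A _ _ m hA X
  obtain ⟨M, i1, i2, i3, hM, φ, hφ⟩ := hE H k hk 0
  obtain ⟨ι, hι, f, t, ht, hf, ⟨eA⟩, -⟩ := e6_grp hF.hp A m hA
  obtain ⟨K', K, j1, j2, j3, j4, j5, j6, j7, j8, n, h1, h2, ⟨ψ, hψ⟩, hX, h3, ⟨e⟩⟩ := p6_gal hF M hM.1 ι f t ht hf X
  exact ⟨M, K', K, i1, i2, j1, j2, j3, j4, j5, j6, j7, j8, n, t, h1, h2, ⟨ψ.comp φ, hψ.comp hφ⟩, hX, h3,
    Module.finrank ℚ M, Module.finrank_pos, ⟨e.trans (AddEquiv.piCongrRight fun _ => eA.symm)⟩⟩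

/-- Over a base field M contained in a field N₀ of the class. -/
theorem p6_real (hF : FctS (F := F) W p) (h2 : p ≠ 2) (M N₀ : Type) [Field M] [NumberField M] [Field N₀] [NumberField N₀] [Algebra F N₀]
    [Algebra M N₀] (hN : ExtG (Gx (W⁄(𝓞 F)) p) p N₀) (hQ : IsGalois ℚ N₀) (hMN : Module.finrank M N₀ = 2)
    (hre : 0 < InfinitePlace.nrRealPlaces M) (H : Type) [Group H] (hH : H28R.SubQ (N₀ ≃ₐ[F] N₀) H)
    (ι : Type) [Fintype ι] (f : ι → ℕ) (t : ℕ) (ht : 1 ≤ t) (hf : ∀ x, 1 ≤ f x ∧ f x ≤ t) (X : ℕ) :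
    ∃ (K' K : Type) (_ : Field K') (_ : NumberField K') (_ : Field K) (_ : NumberField K)
      (_ : Algebra M K') (_ : Algebra K' K) (_ : Algebra M K) (n : ℕ),
      0 < InfinitePlace.nrRealPlaces K ∧ X < (discr K).natAbs ∧
      (∀ ιK : K →ₐ[ℚ] AlgebraicClosure F, HypP F p n t W M K' K ιK) ∧
      Nonempty (((w : AnR p W K' K) → ZMod (eK K w.1)) ≃+ (Fin (Module.finrank ℚ M) → (x : ι) → ZMod (p ^ f x))) ∧
      ∃ (N : Type) (_ : Field N) (_ : NumberField N) (_ : Algebra F N) (_ : Algebra K N),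
        Module.finrank K N = 2 ∧ IsGalois ℚ N ∧ (∃ r : ℕ, Module.finrank F N = p ^ r) ∧ H28R.SubQ (N ≃ₐ[F] N) H := by
  have hUN : UnrP p N₀ := ce_unr hF.hp hF.unrF (fun v h => h.1) hN
  obtain ⟨n, hn⟩ : ∃ n, n = Module.finrank ℚ M := ⟨_, rfl⟩
  have hn1 : 1 ≤ n := by rw [hn]; exact Module.finrank_pos
  have hnp : Module.finrank ℚ M < p ^ n := by rw [← hn]; exact Nat.lt_pow_self hF.hp.one_lt
  obtain ⟨l, Q, hlX, hQc, hQ'⟩ := p4_choice hF.hp hF.ell hF.dir ht N₀ (hF.many t N₀) n (Fintype.card ι) X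
  obtain ⟨e, lev, hlev⟩ := e6_lev hQc f
  have hCh := hQ' lev fun q hq => by rw [hlev ⟨q, hq⟩]; exact hf _
  obtain ⟨B, i1, i2, B', hC⟩ := c5_exists hCh.prm
  have hChM : ChS F W p n t l Q lev M := ⟨⟨⟨hCh.prm, hCh.good, fun r hr h => hCh.dis r hr (h.trans (discr_dvd_discr M N₀)),
    hCh.pl, hCh.pQ, hCh.pts⟩, hCh.pts2⟩, fun q hq => spl_down (hCh.spl q hq)⟩
  obtain ⟨j⟩ : Nonempty (B →+* AlgebraicClosure N₀) := ⟨(IsAlgClosed.lift : B →ₐ[ℚ] AlgebraicClosure N₀).toRingHom⟩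
  obtain ⟨j', hj'⟩ : ∃ j' : B' →+* AlgebraicClosure N₀, j' = j.comp (algebraMap B' B) := ⟨_, rfl⟩
  haveI tMΩ : IsScalarTower M N₀ (AlgebraicClosure N₀) := inferInstance
  have hle : cE M j' ≤ cE M j := by rw [hj']; exact p5_mono M j _
  have hle' : cE N₀ j' ≤ cE N₀ j := by rw [hj']; exact p5_mono N₀ j _
  letI nK : NumberField (cE M j) := p5_num M j
  letI nK' : NumberField (cE M j') := p5_num M j'
  letI nL : NumberField (cE N₀ j) := p5_num N₀ j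
  letI nL' : NumberField (cE N₀ j') := p5_num N₀ j'
  letI aB : Algebra B (cE M j) := cAlg M j
  letI aB' : Algebra B' (cE M j') := cAlg M j'
  letI bB : Algebra B (cE N₀ j) := cAlg N₀ j
  letI bB' : Algebra B' (cE N₀ j') := cAlg N₀ j'
  letI aKK : Algebra (cE M j') (cE M j) := (IntermediateField.inclusion hle).toRingHom.toAlgebra
  haveI tM : IsScalarTower M (cE M j') (cE M j) := IsScalarTower.of_algebraMap_eq fun _ => rfl
  letI aF : Algebra F (cE N₀ j) := ((algebraMap N₀ (cE N₀ j)).comp (algebraMap F N₀)).toAlgebra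
  haveI tF : IsScalarTower F N₀ (cE N₀ j) := IsScalarTower.of_algebraMap_eq fun _ => rfl
  letI aF' : Algebra F (cE N₀ j') := ((algebraMap N₀ (cE N₀ j')).comp (algebraMap F N₀)).toAlgebra
  haveI tF' : IsScalarTower F N₀ (cE N₀ j') := IsScalarTower.of_algebraMap_eq fun _ => rfl
  letI aKL : Algebra (cE M j) (cE N₀ j) :=
    (({ toFun := fun x => ⟨x, p5_up M N₀ j x x.2⟩
        map_one' := rfl
        map_mul' := fun _ _ => rfl
        map_zero' := rfl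
        map_add' := fun _ _ => rfl } : (cE M j) →+* (cE N₀ j))).toAlgebra
  letI aKL' : Algebra (cE M j') (cE N₀ j') :=
    (({ toFun := fun x => ⟨x, p5_up M N₀ j' x x.2⟩
        map_one' := rfl
        map_mul' := fun _ _ => rfl
        map_zero' := rfl
        map_add' := fun _ _ => rfl } : (cE M j') →+* (cE N₀ j'))).toAlgebra
  letI aML : Algebra M (cE N₀ j) := ((algebraMap N₀ (cE N₀ j)).comp (algebraMap M N₀)).toAlgebra
  haveI t1 : IsScalarTower M N₀ (cE N₀ j) := IsScalarTower.of_algebraMap_eq fun _ => rfl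
  haveI t2 : IsScalarTower M (cE M j) (cE N₀ j) := IsScalarTower.of_algebraMap_eq fun _ => rfl
  have hc : Cmp M B (cE M j) := p5_cmp M j
  have hc' : Cmp M B' (cE M j') := p5_cmp M j'
  have hL : Cmp N₀ B (cE N₀ j) := p5_cmp N₀ j
  have hL' : Cmp N₀ B' (cE N₀ j') := p5_cmp N₀ j'
  haveI gB := hC.gal
  haveI gB' := hC.gal'
  haveI gN := hN.1
  have hcyc := e1_cyc hC M (cE M j') (cE M j) hc' hc hChM.dis
  have hext : ExtG (Gx (W⁄(𝓞 F)) p) p (cE N₀ j') := e1_ext hC N₀ (cE N₀ j') hL' hN hCh.dis hCh.good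
  haveI hgK : IsGalois M (cE M j) := hcyc.gal
  haveI hgL : IsGalois F (cE N₀ j) := p3_gal (F := F) hL
  have hcop : IsCoprime (discr N₀) (discr B) := p2_cop N₀ B fun r hr hrd w hw => hC.unr w r hr hw (hCh.dis r hr hrd).1 (hCh.dis r hr hrd).2
  have hdL : Module.finrank N₀ (cE N₀ j) = p ^ (n + t) := (p2_deg hL hcop).1.trans hC.deg
  obtain ⟨k, hk⟩ := hN.2.1
  have hdF : @Module.finrank F (cE N₀ j) _ _ aF.toModule = p ^ (k + (n + t)) := by
    rw [e6_deg F N₀ (cE N₀ j), hk, hdL, ← pow_add]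
  have hdKL : @Module.finrank (cE M j) (cE N₀ j) _ _ aKL.toModule = 2 := by
    have h1 := e6_deg M (cE M j) (cE N₀ j)
    have h3 := e6_deg M N₀ (cE N₀ j)
    rw [hdL, hMN] at h3
    rw [hcyc.deg, h3, mul_comm] at h1
    exact (Nat.eq_of_mul_eq_mul_left (Nat.pow_pos hF.hp.pos) h1).symm
  have hUM : UnrP p M := by
    rw [e2_iff M hF.hp]
    intro w hw
    obtain ⟨P, hP⟩ := under_exists (L := N₀) w
    have hPw : w.asIdeal = P.asIdeal.under (𝓞 M) := by rw [← hP]; rfl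
    have hpP : (p : 𝓞 N₀) ∈ P.asIdeal := by
      have h1 : (p : 𝓞 M) ∈ P.asIdeal.under (𝓞 M) := hPw ▸ hw
      rw [Ideal.mem_under, map_natCast] at h1
      exact h1
    have h1 := (e2_iff N₀ hF.hp).1 hUN P hpP
    rw [(p4_towerZ P w hPw).1] at h1
    exact Nat.eq_one_of_mul_eq_one_right h1
  obtain ⟨h1, h3⟩ := p6_core hF.toFct ht hn1 hC M (cE M j') (cE M j) (cE N₀ j') hChM hc' hc hext hUM
    (hF.bad M N₀ hN.1 hN.2.1) hnp e hlev
  refine ⟨cE M j', cE M j, inferInstance, nK', inferInstance, nK, inferInstance, aKK, inferInstance, n,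
    e7_real M (cE M j) ?_ hre, p6_disc hC hF.hp hn1 (cE M j) hlX, h1, h3,
    cE N₀ j, inferInstance, nL, aF, aKL, hdKL, e7_galQ N₀ B (cE N₀ j) hL, ⟨_, hdF⟩, e7_subq (F := F) (N := N₀) (L := cE N₀ j) H hH⟩
  rw [hcyc.deg]
  exact (hF.hp.odd_of_ne_two h2).pow

theorem p6_existR (hF : FctS (F := F) W p) (h2 : p ≠ 2) (hE : ∀ (H : Type) [Group H] [Finite H] (k : ℕ), Nat.card H = p ^ k →
    RealG (W⁄(𝓞 F)) p H) : ExistRealP F p W := by
  intro H _ _ k hk A _ _ m hA X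
  obtain ⟨M, i1, i2, hre, -, N₀, j1, j2, j3, j4, hMN, hQ, hN, hH⟩ := hE H k hk
  obtain ⟨ι, hι, f, t, ht, hf, ⟨eA⟩, -⟩ := e6_grp hF.hp A m hA
  obtain ⟨K', K, a1, a2, a3, a4, a5, a6, a7, n, h1, hX, h3, ⟨e⟩, h5⟩ := p6_real hF h2 M N₀ hN hQ hMN hre H hH ι f t ht hf X
  exact ⟨M, K', K, i1, i2, a1, a2, a3, a4, a5, a6, a7, n, t, h1, hX, h3,
    ⟨Module.finrank ℚ M, Module.finrank_pos, ⟨e.trans (AddEquiv.piCongrRight fun _ => eA.symm)⟩⟩, h5⟩

/-- The facts for the curves with complex multiplication by the maximal order. -/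
theorem p6_fct {Om : ℂ} {m : Ideal (𝓞 F)} {ψ : Ideal (𝓞 F) →*₀ 𝓞 F} (hH : BaseH F (W⁄(𝓞 F)) Om m ψ) (hp : PrimeH F (W⁄(𝓞 F)) p)
    (hA : AnUnitG p W ℚ) : FctS (F := F) W p where
  toFct := H57N.e6_fct hH hp hA
  many := fun t N _ _ => p4_many hH hp t N

open H28I in
/-- The facts for the isogenous curves. -/
theorem p6_fct_iso {W' : WeierstrassCurve ℤ} {Om : ℂ} {m : Ideal (𝓞 F)}
    {ψ : Ideal (𝓞 F) →*₀ 𝓞 F} {kap : ℤ} {e s u lam : ℚ} (h : TW F W W' Om m ψ kap e s u lam) (hp' : PrimeH F (W'⁄(𝓞 F)) p)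
    (hA : AnUnitG p W' ℚ) : FctS (F := F) W' p where
  toFct := H57N.e6_fct_iso h hp' hA
  many := fun t N _ _ => p4_many_iso h hp' t N

theorem existHP_main {Om : ℂ} {m : Ideal (𝓞 F)} {ψ : Ideal (𝓞 F) →*₀ 𝓞 F} (hH : BaseH F (W⁄(𝓞 F)) Om m ψ)
    (hp : PrimeH F (W⁄(𝓞 F)) p) (hA : AnUnitG p W ℚ) : ExistHP F p W :=
  p6_existHP (p6_fct hH hp hA) (rich_of hH hp).emb

open H28I in
theorem existHP_iso {W' : WeierstrassCurve ℤ} {Om : ℂ} {m : Ideal (𝓞 F)}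
    {ψ : Ideal (𝓞 F) →*₀ 𝓞 F} {kap : ℤ} {e s u lam : ℚ} (h : TW F W W' Om m ψ kap e s u lam) (hp' : PrimeH F (W'⁄(𝓞 F)) p)
    (hA : AnUnitG p W' ℚ) : ExistHP F p W' :=
  p6_existHP (p6_fct_iso h hp' hA) (rich_iso h hp').1.emb

theorem existRealP_main {Om : ℂ} {m : Ideal (𝓞 F)} {ψ : Ideal (𝓞 F) →*₀ 𝓞 F} (hH : BaseH F (W⁄(𝓞 F)) Om m ψ)
    (hp : PrimeH F (W⁄(𝓞 F)) p) (hA : AnUnitG p W ℚ) : ExistRealP F p W :=
  p6_existR (p6_fct hH hp hA) (by have := hp.five; omega) (fun H _ _ k hk => real_Q hH hp H k hk)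

open H28I in
theorem existRealP_iso {W' : WeierstrassCurve ℤ} {Om : ℂ} {m : Ideal (𝓞 F)}
    {ψ : Ideal (𝓞 F) →*₀ 𝓞 F} {kap : ℤ} {e s u lam : ℚ} (h : TW F W W' Om m ψ kap e s u lam) (hp' : PrimeH F (W'⁄(𝓞 F)) p)
    (hA : AnUnitG p W' ℚ) : ExistRealP F p W' :=
  p6_existR (p6_fct_iso h hp' hA) (by have := hp'.five; omega) (rich_iso h hp').2

end H57TX
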