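import Pool.Agent.Lib.H57TX.Defs
import Pool.Agent.Lib.H57N.C1

/-! # H57TX, chunk C1: characters of the cyclotomic group -/

open NumberField IsDedekindDomain

namespace H57TX

open H57N (md Cg c1_aux c1_crt c1_val c1_one)

/-- An element of order p^i in the cyclic group of order p^N. -/
theorem c1_elt {p N i : ℕ} (hp : p.Prime) (hi : i ≤ N) : ∃ c : Cg (p ^ N), orderOf c = p ^ i := by
  have : NeZero (p ^ N) := ⟨pow_ne_zero _ hp.ne_zero⟩
  have hcard : Nat.card (Cg (p ^ N)) = p ^ N := by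
    rw [Nat.card_congr (Multiplicative.toAdd (α := ZMod (p ^ N))), Nat.card_zmod]
  obtain ⟨g, hg⟩ := IsCyclic.exists_generator (α := Cg (p ^ N))
  have ho : orderOf g = p ^ N := by
    rw [orderOf_eq_card_of_forall_mem_zpowers hg, hcard]
  refine ⟨g ^ (p ^ (N - i)), ?_⟩
  have h1 : p ^ N = p ^ (N - i) * p ^ i := by rw [← pow_add]; congr 1; omega
  rw [orderOf_pow_of_dvd (pow_ne_zero _ hp.ne_zero) (by rw [ho, h1]; exact Dvd.intro _ rfl), ho, h1]
  exact Nat.mul_div_cancel_left _ (Nat.pow_pos hp.pos)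

theorem c1_char {p n t l : ℕ} {Q : Finset ℕ} {lev : ℕ → ℕ} (h : Prm p n t l Q lev) : ∃ Θ : (ZMod (md l Q))ˣ →* Cg (p ^ (n + t)),
    Function.Surjective Θ ∧
    (∀ a : (ZMod (md l Q))ˣ, (a : ZMod (md l Q)).val ≡ 1 [MOD l] → Θ a ^ p ^ t = 1) ∧
    ∀ q ∈ Q, (∃ a : (ZMod (md l Q))ˣ, (a : ZMod (md l Q)).val ≡ 1 [MOD (md l Q / q)] ∧ orderOf (Θ a) = p ^ lev q) ∧
      ∀ a : (ZMod (md l Q))ˣ, (a : ZMod (md l Q)).val ≡ 1 [MOD (md l Q / q)] → Θ a ^ p ^ lev q = 1 := by
  classical
  have hp := h.hp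
  have hl := h.hl
  have : NeZero (p ^ (n + t)) := ⟨pow_ne_zero _ hp.ne_zero⟩
  have hχ : ∀ q : {q // q ∈ Q}, ∃ (c : Cg (p ^ (n + t))) (u : (ZMod (q : ℕ))ˣ) (φ : (ZMod (q : ℕ))ˣ →* Cg (p ^ (n + t))),
      orderOf c = p ^ lev (q : ℕ) ∧ φ u = c ∧ ∀ x, φ x ^ p ^ lev (q : ℕ) = 1 := by
    intro q
    have h1 := h.hq q.1 q.2
    have hle := h.hlev q.1 q.2
    obtain ⟨c, hc⟩ := c1_elt (N := n + t) (i := lev (q : ℕ)) hp (by omega)
    have hcp : c ^ p ^ lev (q : ℕ) = 1 := by rw [← hc]; exact pow_orderOf_eq_one c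
    have h2 : c ^ ((q : ℕ) - 1) = 1 := by
      obtain ⟨k, hk⟩ := (Nat.pow_dvd_pow p hle.2).trans h1.2.1
      rw [hk, pow_mul, hcp, one_pow]
    obtain ⟨u, φ, h3, h4⟩ := c1_aux h1.1 c h2
    refine ⟨c, u, φ, hc, h3, fun x => ?_⟩
    obtain ⟨k, hk⟩ := h4 x
    rw [hk, ← zpow_natCast, ← zpow_mul, mul_comm, zpow_mul, zpow_natCast, hcp, one_zpow]
  choose c u χ hc hu hχp using hχ
  obtain ⟨θ, hθ⟩ := c1_one hl h.hpl
  -- the family of the primes
  let L : Option {q // q ∈ Q} → ℕ := fun i => i.elim l (fun q => (q : ℕ))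
  have hLp : ∀ i, (L i).Prime := by
    intro i
    cases i with
    | none => exact hl
    | some q => exact (h.hq q.1 q.2).1
  have hLinj : Function.Injective L := by
    intro i j hij
    cases i with
    | none =>
      cases j with
      | none => rfl
      | some q => exact absurd (show l = (q : ℕ) from hij).symm (h.hq q.1 q.2).2.2.1
    | some q =>
      cases j with
      | none => exact absurd (show (q : ℕ) = l from hij) (h.hq q.1 q.2).2.2.1
      | some q' => exact congrArg some (Subtype.ext (show (q : ℕ) = (q' : ℕ) from hij))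
  have hcop : Pairwise (Function.onFun Nat.Coprime L) := by
    intro a b hab
    exact (Nat.coprime_primes (hLp a) (hLp b)).2 (fun h1 => hab (hLinj h1))
  have hm : md l Q = ∏ i, L i := by
    rw [Fintype.prod_option]
    have h1 : ∏ i : {q // q ∈ Q}, L (some i) = ∏ i : {q // q ∈ Q}, (i : ℕ) := rfl
    rw [h1, Finset.prod_coe_sort Q (fun q => q)]
    rfl
  have hm0 : md l Q ≠ 0 := by
    rw [hm]
    exact Finset.prod_ne_zero_iff.2 fun i _ => (hLp i).ne_zero
  have : NeZero (md l Q) := ⟨hm0⟩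
  have hdvd : ∀ i, L i ∣ md l Q := by
    intro i
    rw [hm]
    exact Finset.dvd_prod_of_mem L (Finset.mem_univ i)
  have hdl : l ∣ md l Q := hdvd none
  have hdq : ∀ q : {q // q ∈ Q}, (q : ℕ) ∣ md l Q := fun q => hdvd (some q)
  let Θ : (ZMod (md l Q))ˣ →* Cg (p ^ (n + t)) :=
    (θ.comp (ZMod.unitsMap hdl)) * ∏ q : {q // q ∈ Q}, (χ q).comp (ZMod.unitsMap (hdq q))
  have hΘ : ∀ x, Θ x = θ (ZMod.unitsMap hdl x) * ∏ q : {q // q ∈ Q}, χ q (ZMod.unitsMap (hdq q) x) := by
    intro x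
    have h1 : Θ x = θ (ZMod.unitsMap hdl x) *
      (∏ q : {q // q ∈ Q}, (χ q).comp (ZMod.unitsMap (hdq q)) : (ZMod (md l Q))ˣ →* Cg (p ^ (n + t))) x := rfl
    rw [h1, MonoidHom.finsetProd_apply]
    rfl
  refine ⟨Θ, ?_, ?_, ?_⟩
  · intro z
    obtain ⟨w, hw⟩ := hθ z
    let y : ∀ i, (ZMod (L i))ˣ := fun i => match i with
      | none => w
      | some _ => 1
    obtain ⟨x, hx⟩ := c1_crt L hcop hm hdvd y
    refine ⟨x, ?_⟩
    rw [hΘ]
    have h1 : ZMod.unitsMap hdl x = w := hx none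
    have h2 : ∏ q : {q // q ∈ Q}, χ q (ZMod.unitsMap (hdq q) x) = 1 := by
      refine Finset.prod_eq_one fun q _ => ?_
      have h3 : ZMod.unitsMap (hdq q) x = 1 := hx (some q)
      rw [h3, map_one]
    rw [h1, h2, mul_one, hw]
  · intro a ha
    have h1 := (c1_val hdl a).1 ha
    rw [hΘ, h1, map_one, one_mul, ← Finset.prod_pow]
    refine Finset.prod_eq_one fun q _ => ?_
    obtain ⟨k, hk⟩ := Nat.pow_dvd_pow p (h.hlev q.1 q.2).2
    rw [hk, pow_mul, hχp q, one_pow]
  · intro q hq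
    let q' : {q // q ∈ Q} := ⟨q, hq⟩
    have hmq : md l Q / q = ∏ i ∈ Finset.univ.erase (some q'), L i := by
      have h2 : L (some q') * ∏ i ∈ Finset.univ.erase (some q'), L i = ∏ i, L i :=
        Finset.mul_prod_erase Finset.univ L (Finset.mem_univ _)
      have h3 : L (some q') = q := rfl
      rw [hm, ← h2, h3]
      exact Nat.mul_div_cancel_left _ (h.hq q hq).1.pos
    have hdv : ∀ i, i ≠ some q' → L i ∣ md l Q / q := by
      intro i hi
      rw [hmq]
      exact Finset.dvd_prod_of_mem L (Finset.mem_erase.2 ⟨hi, Finset.mem_univ i⟩)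
    have hred : ∀ x : (ZMod (md l Q))ˣ, (∀ i, i ≠ some q' → ZMod.unitsMap (hdvd i) x = 1) →
        Θ x = χ q' (ZMod.unitsMap (hdq q') x) := by
      intro x hx
      rw [hΘ]
      have h1 : ZMod.unitsMap hdl x = 1 := hx none (fun h3 => Option.some_ne_none _ h3.symm)
      rw [h1, map_one, one_mul, Finset.prod_eq_single q']
      · intro b _ hb
        have h2 : ZMod.unitsMap (hdq b) x = 1 := hx (some b) (fun h4 => hb (Option.some_injective _ h4))
        rw [h2, map_one]
      · intro h2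
        exact absurd (Finset.mem_univ _) h2
    refine ⟨?_, ?_⟩
    · let y : ∀ i, (ZMod (L i))ˣ := Function.update (fun _ => 1) (some q') (u q')
      obtain ⟨x, hx⟩ := c1_crt L hcop hm hdvd y
      have hy : ∀ i, i ≠ some q' → y i = 1 := fun i hi => Function.update_of_ne hi _ _
      have hyq : y (some q') = u q' := Function.update_self _ _ _
      refine ⟨x, ?_, ?_⟩
      · rw [hmq, Nat.modEq_iff_dvd, Nat.cast_prod]
        refine Finset.prod_dvd_of_coprime ?_ ?_
        · intro i _ j _ hij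
          exact Nat.isCoprime_iff_coprime.2 (hcop hij)
        · intro i hi
          have h2 : ZMod.unitsMap (hdvd i) x = 1 := by
            rw [hx i, hy i (Finset.mem_erase.1 hi).1]
          exact (Nat.modEq_iff_dvd.1 ((c1_val (hdvd i) x).2 h2))
      · rw [hred x fun i hi => by rw [hx i, hy i hi]]
        have h2 : ZMod.unitsMap (hdq q') x = u q' := by
          have h3 := hx (some q')
          rw [hyq] at h3
          exact h3
        rw [h2, hu]
        exact hc q'
    · intro a ha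
      rw [hred a fun i hi => (c1_val (hdvd i) a).1 (ha.of_dvd (hdv i hi))]
      exact hχp q' _

end H57TX
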