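import Pool.Agent.Lib.H57TX.C1
import Pool.Agent.Lib.H57N.C2

/-! # H57TX, chunk C2: the character of the Galois group of the cyclotomic field; its fields -/

open NumberField IsDedekindDomain

namespace H57TX

open H57N (md Cg Zf c2_pow)

theorem md_ne {p n t l : ℕ} {Q : Finset ℕ} {lev : ℕ → ℕ} (h : Prm p n t l Q lev) : NeZero (md l Q) :=
  ⟨Nat.mul_ne_zero h.hl.ne_zero (Finset.prod_ne_zero_iff.2 fun q hq => (h.hq q hq).1.ne_zero)⟩

/-- A Galois automorphism which fixes the roots of unity of order d corresponds to a residue congruent to 1 modulo d. -/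
theorem c2_one {m d : ℕ} [NeZero m] [IsCyclotomicExtension {m} ℚ (Zf m)] (hd : d ∣ m) (σ : Zf m ≃ₐ[ℚ] Zf m)
    (hσ : ∀ x : Zf m, x ^ d = 1 → σ x = x) :
    ((IsCyclotomicExtension.Rat.galEquivZMod m (Zf m) σ : (ZMod m)ˣ) : ZMod m).val ≡ 1 [MOD d] := by
  have hd0 : d ≠ 0 := by
    rintro rfl
    exact (NeZero.ne m) (Nat.eq_zero_of_zero_dvd hd)
  have hζ := IsCyclotomicExtension.zeta_spec m ℚ (Zf m)
  have hx : IsPrimitiveRoot (IsCyclotomicExtension.zeta m ℚ (Zf m) ^ (m / d)) d :=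
    hζ.pow (NeZero.pos m) (Nat.div_mul_cancel hd).symm
  have h1 := hσ _ hx.pow_eq_one
  have hxm : (IsCyclotomicExtension.zeta m ℚ (Zf m) ^ (m / d)) ^ m = 1 := c2_pow hd hx.pow_eq_one
  have h2 := IsCyclotomicExtension.Rat.galEquivZMod_apply_of_pow_eq m (Zf m) σ hxm
  rw [h1] at h2
  have hfo : IsOfFinOrder (IsCyclotomicExtension.zeta m ℚ (Zf m) ^ (m / d)) :=
    isOfFinOrder_iff_pow_eq_one.2 ⟨d, Nat.pos_of_ne_zero hd0, hx.pow_eq_one⟩
  have h3 := hfo.pow_eq_pow_iff_modEq.1 (h2.symm.trans (pow_one _).symm)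
  rw [← hx.eq_orderOf] at h3
  exact h3

theorem c2_gal {p n t l : ℕ} {Q : Finset ℕ} {lev : ℕ → ℕ} (h : Prm p n t l Q lev) :
    ∃ ρ : (Zf (md l Q) ≃ₐ[ℚ] Zf (md l Q)) →* Cg (p ^ (n + t)),
    Function.Surjective ρ ∧
    (∀ σ, (∀ x : Zf (md l Q), x ^ l = 1 → σ x = x) → ρ σ ^ p ^ t = 1) ∧
    ∀ q ∈ Q, (∃ σ, (∀ x : Zf (md l Q), x ^ (md l Q / q) = 1 → σ x = x) ∧ orderOf (ρ σ) = p ^ lev q) ∧
      ∀ σ, (∀ x : Zf (md l Q), x ^ (md l Q / q) = 1 → σ x = x) → ρ σ ^ p ^ lev q = 1 := by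
  obtain ⟨Θ, hΘ, hl1, hq1⟩ := c1_char h
  have hne : NeZero (md l Q) := md_ne h
  have hcyc : IsCyclotomicExtension {md l Q} ℚ (Zf (md l Q)) := CyclotomicField.isCyclotomicExtension (md l Q) ℚ
  have hdl : l ∣ md l Q := Dvd.intro _ rfl
  let e := IsCyclotomicExtension.Rat.galEquivZMod (md l Q) (Zf (md l Q))
  refine ⟨Θ.comp e.toMonoidHom, hΘ.comp e.surjective, ?_, ?_⟩
  · intro σ hσ
    exact hl1 (e σ) (c2_one hdl σ hσ)
  · intro q hq
    have hdq : q ∣ md l Q := Dvd.dvd.mul_left (Finset.dvd_prod_of_mem (fun q => q) hq) _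
    obtain ⟨⟨a, ha, hne1⟩, hall⟩ := hq1 q hq
    refine ⟨⟨e.symm a, ?_, ?_⟩, ?_⟩
    · intro x hx
      have hxm : x ^ (md l Q) = 1 := by
        exact c2_pow (Nat.div_dvd_of_dvd hdq) hx
      have h2 := IsCyclotomicExtension.Rat.galEquivZMod_apply_of_pow_eq (md l Q) (Zf (md l Q)) (e.symm a) hxm
      have h3 : IsCyclotomicExtension.Rat.galEquivZMod (md l Q) (Zf (md l Q)) (e.symm a) = a := e.apply_symm_apply a
      rw [h2, h3, pow_eq_pow_mod _ hx, ha, ← pow_eq_pow_mod _ hx, pow_one]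
    · have h3 : e (e.symm a) = a := e.apply_symm_apply a
      have h4 : (Θ.comp e.toMonoidHom) (e.symm a) = Θ (e (e.symm a)) := rfl
      rw [h4, h3]
      exact hne1
    · intro σ hσ
      exact hall (e σ) (c2_one (Nat.div_dvd_of_dvd hdq) σ hσ)

/-- The fields of a character: B cyclic of degree p^N and, for every i ≤ N, its subfield of degree p^(N-i), fixed by the elements σ with ρ(σ)^(p^i) = 1. -/
theorem c2_fields {p N : ℕ} (hp : p.Prime) (Z : Type) [Field Z] [NumberField Z] [IsGalois ℚ Z] (ρ : (Z ≃ₐ[ℚ] Z) →* Cg (p ^ N))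
    (hρ : Function.Surjective ρ) : ∃ (B : IntermediateField ℚ Z),
      IsGalois ℚ B ∧ IsCyclic (B ≃ₐ[ℚ] B) ∧ Module.finrank ℚ B = p ^ N ∧
      (∀ σ : Z ≃ₐ[ℚ] Z, (∀ x : B, σ (x : Z) = x) ↔ ρ σ = 1) ∧
      ∀ i : ℕ, i ≤ N → ∃ B' : IntermediateField ℚ B, IsGalois ℚ B' ∧ Module.finrank ℚ B' = p ^ (N - i) ∧
        ∀ σ : Z ≃ₐ[ℚ] Z, ρ σ ^ p ^ i = 1 → ∀ x : B', σ ((x : B) : Z) = ((x : B) : Z) := by
  have hp0 : NeZero (p ^ N) := ⟨pow_ne_zero _ hp.ne_zero⟩
  have hnor : ρ.ker.Normal := ρ.normal_ker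
  have hgal : IsGalois ℚ (IntermediateField.fixedField ρ.ker) := IsGalois.of_fixedField_normal_subgroup ρ.ker
  let e : Gal((IntermediateField.fixedField ρ.ker)/ℚ) ≃* Cg (p ^ N) :=
    (IsGalois.normalAutEquivQuotient ρ.ker).symm.trans (QuotientGroup.quotientKerEquivOfSurjective ρ hρ)
  have hcyc : IsCyclic Gal((IntermediateField.fixedField ρ.ker)/ℚ) := e.isCyclic.2 inferInstance
  have hcard : Nat.card (Cg (p ^ N)) = p ^ N := by
    rw [Nat.card_congr (Multiplicative.toAdd (α := ZMod (p ^ N))), Nat.card_zmod]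
  have hdeg : Module.finrank ℚ (IntermediateField.fixedField ρ.ker) = p ^ N := by
    rw [← IsGalois.card_aut_eq_finrank, Nat.card_congr e.toEquiv, hcard]
  have hfix : ∀ σ : Z ≃ₐ[ℚ] Z, (∀ x : IntermediateField.fixedField ρ.ker, σ (x : Z) = x) ↔ ρ σ = 1 := by
    intro σ
    constructor
    · intro h
      have h1 : σ ∈ (IntermediateField.fixedField ρ.ker).fixingSubgroup :=
        (IntermediateField.mem_fixingSubgroup_iff _ _).2 fun x hx => h ⟨x, hx⟩
      rw [IntermediateField.fixingSubgroup_fixedField] at h1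
      exact h1
    · intro h x
      have h1 : σ ∈ ρ.ker := h
      rw [← IntermediateField.fixingSubgroup_fixedField ρ.ker] at h1
      exact (IntermediateField.mem_fixingSubgroup_iff _ _).1 h1 x x.2
  refine ⟨IntermediateField.fixedField ρ.ker, hgal, hcyc, hdeg, hfix, ?_⟩
  intro i hi
  let P : Subgroup Gal((IntermediateField.fixedField ρ.ker)/ℚ) :=
    (powMonoidHom (p ^ i) : Cg (p ^ N) →* Cg (p ^ N)).ker.comap e.toMonoidHom
  have hPn : P.Normal := Subgroup.Normal.comap (MonoidHom.normal_ker _) _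
  have hPcard : Nat.card P = p ^ i := by
    have h1 : Nat.card P = Nat.card (powMonoidHom (p ^ i) : Cg (p ^ N) →* Cg (p ^ N)).ker := by
      refine Nat.card_congr ?_
      exact (e.toEquiv.subtypeEquiv fun a => Iff.rfl)
    rw [h1, IsCyclic.card_powMonoidHom_ker, hcard]
    exact Nat.gcd_eq_right (Nat.pow_dvd_pow p hi)
  have hgal' : IsGalois ℚ (IntermediateField.fixedField P) := IsGalois.of_fixedField_normal_subgroup P
  have hdeg' : Module.finrank ℚ (IntermediateField.fixedField P) = p ^ (N - i) := by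
    have h1 := Module.finrank_mul_finrank ℚ (IntermediateField.fixedField P) (IntermediateField.fixedField ρ.ker)
    rw [IntermediateField.finrank_fixedField_eq_card, hPcard, hdeg] at h1
    have h2 : p ^ N = p ^ (N - i) * p ^ i := by rw [← pow_add]; congr 1; omega
    exact Nat.eq_of_mul_eq_mul_right (Nat.pow_pos hp.pos) (h1.trans h2)
  refine ⟨IntermediateField.fixedField P, hgal', hdeg', ?_⟩
  intro σ hσ x
  have h1 : ρ (σ ^ p ^ i) = 1 := by rw [map_pow, hσ]
  have h2 := (hfix (σ ^ p ^ i)).2 h1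
  let g : Gal((IntermediateField.fixedField ρ.ker)/ℚ) :=
    AlgEquiv.restrictNormalHom (IntermediateField.fixedField ρ.ker) σ
  have hg : g ^ p ^ i = 1 := by
    have h3 : g ^ p ^ i = AlgEquiv.restrictNormalHom (IntermediateField.fixedField ρ.ker) (σ ^ p ^ i) := by
      rw [map_pow]
    rw [h3]
    ext y
    have h4 := AlgEquiv.restrictNormal_commutes (σ ^ p ^ i) (IntermediateField.fixedField ρ.ker) y
    exact h4.trans (h2 y)
  have hgP : g ∈ P := by
    have h5 : (e g) ^ p ^ i = 1 := by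
      rw [← map_pow, hg, map_one]
    exact h5
  have h6 : g (x : IntermediateField.fixedField ρ.ker) = x := by
    have h7 := x.2
    rw [IntermediateField.mem_fixedField_iff] at h7
    exact h7 g hgP
  have h8 := AlgEquiv.restrictNormal_commutes σ (IntermediateField.fixedField ρ.ker) (x : IntermediateField.fixedField ρ.ker)
  have h9 : ((g (x : IntermediateField.fixedField ρ.ker) : IntermediateField.fixedField ρ.ker) : Z) = σ ((x : IntermediateField.fixedField ρ.ker) : Z) := h8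
  rw [← h9, h6]

end H57TX
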