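import Pool.Agent.Lib.H57TX.C2
import Pool.Agent.Lib.H57N.C4

/-! # H57TX, chunk C4: ramification in the subfields of the cyclotomic field -/

open NumberField IsDedekindDomain

namespace H57TX

open H57N (md Cg Zf c4_over c4_lies c4_mem c4_le c4_card c3_inertia p4_towerZ)

theorem c4_div {p n t l : ℕ} {Q : Finset ℕ} {lev : ℕ → ℕ} (h : Prm p n t l Q lev) {q : ℕ} (hq : q ∈ Q) :
    md l Q = q * (md l Q / q) ∧ ¬ q ∣ md l Q / q ∧ md l Q / q ≠ 0 := by
  have hq1 := (h.hq q hq).1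
  have h1 : md l Q = q * (l * ∏ r ∈ Q.erase q, r) := by
    unfold md
    rw [← Finset.mul_prod_erase Q (fun r => r) hq]
    ring
  have h2 : md l Q / q = l * ∏ r ∈ Q.erase q, r := by
    rw [h1, Nat.mul_div_cancel_left _ hq1.pos]
  rw [h2]
  refine ⟨h1, ?_, ?_⟩
  · intro hd
    rcases (hq1.dvd_mul).1 hd with h3 | h3
    · exact (h.hq q hq).2.2.1 ((Nat.prime_dvd_prime_iff_eq hq1 h.hl).1 h3)
    · obtain ⟨r, hr, h4⟩ := (hq1.prime.dvd_finsetProd_iff _).1 h3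
      have h5 := (Nat.prime_dvd_prime_iff_eq hq1 (h.hq r (Finset.mem_of_mem_erase hr)).1).1 h4
      exact (Finset.ne_of_mem_erase hr) h5.symm
  · exact Nat.mul_ne_zero h.hl.ne_zero
      (Finset.prod_ne_zero_iff.2 fun r hr => (h.hq r (Finset.mem_of_mem_erase hr)).1.ne_zero)

/-- The ramification index of q is divisible by p^(lev q). -/
theorem c4_ram {p n t l : ℕ} {Q : Finset ℕ} {lev : ℕ → ℕ} (h : Prm p n t l Q lev) (ρ : (Zf (md l Q) ≃ₐ[ℚ] Zf (md l Q)) →* Cg (p ^ (n + t)))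
    (hρ : ∀ q ∈ Q, ∃ σ, (∀ x : Zf (md l Q), x ^ (md l Q / q) = 1 → σ x = x) ∧ orderOf (ρ σ) = p ^ lev q)
    (B : IntermediateField ℚ (Zf (md l Q))) [IsGalois ℚ B] (hfix : ∀ σ : Zf (md l Q) ≃ₐ[ℚ] Zf (md l Q), (∀ x : B, σ (x : Zf (md l Q)) = x) → ρ σ = 1)
    (w : HeightOneSpectrum (𝓞 B)) (q : ℕ) (hq : q ∈ Q) (hw : (q : 𝓞 B) ∈ w.asIdeal) : p ^ lev q ∣ w.asIdeal.ramificationIdx ℤ := by
  obtain ⟨σ, hσ1, hσ2⟩ := hρ q hq
  obtain ⟨W, hW⟩ := c4_over (Z := Zf (md l Q)) w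
  have hqW := c4_mem w W hW hw
  obtain ⟨d1, d2, d3⟩ := c4_div h hq
  have hin := c3_inertia d1 (h.hq q hq).1 d2 d3 W hqW σ hσ1
  obtain ⟨g, hgdef, hg⟩ : ∃ g : B ≃ₐ[ℚ] B, g = AlgEquiv.restrictNormalHom B σ ∧ ∀ x : B, ((g x : B) : Zf (md l Q)) = σ (x : Zf (md l Q)) :=
    ⟨AlgEquiv.restrictNormalHom B σ, rfl, fun x => AlgEquiv.restrictNormal_commutes σ B x⟩
  have hg1 : ∀ k : ℕ, g ^ k = 1 → ρ σ ^ k = 1 := by
    intro k hk
    rw [← map_pow]
    refine hfix (σ ^ k) fun x => ?_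
    have h1 : AlgEquiv.restrictNormalHom B (σ ^ k) = 1 := by
      rw [map_pow, ← hgdef, hk]
    have h2 := AlgEquiv.restrictNormal_commutes (σ ^ k) B x
    have h3 : (AlgEquiv.restrictNormal (σ ^ k) B) = AlgEquiv.restrictNormalHom B (σ ^ k) := rfl
    rw [h3, h1] at h2
    exact h2.symm
  have hgI : g ∈ w.asIdeal.inertia (B ≃ₐ[ℚ] B) := by
    intro y
    show g • y - y ∈ w.asIdeal
    rw [hW, Ideal.under_def, Ideal.mem_comap, map_sub]
    have h1 : algebraMap (𝓞 B) (𝓞 (Zf (md l Q))) (g • y) = σ • algebraMap (𝓞 B) (𝓞 (Zf (md l Q))) y := by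
      apply RingOfIntegers.ext
      exact hg _
    rw [h1]
    exact hin _
  have h2 := c4_card B inferInstance w
  have h3 : p ^ lev q ∣ orderOf g := by
    rw [← hσ2]
    exact orderOf_dvd_of_pow_eq_one (hg1 _ (pow_orderOf_eq_one g))
  refine h3.trans ?_
  rw [← h2]
  exact Subgroup.orderOf_dvd_natCard _ hgI

/-- The ramification index of w is at most the degree over a subfield which is unramified over the rationals at w. -/
theorem c4_up {B B1 : Type} [Field B] [NumberField B] [Field B1] [NumberField B1] [Algebra B1 B] (w : HeightOneSpectrum (𝓞 B))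
    (u : HeightOneSpectrum (𝓞 B1)) (hu : u.asIdeal = w.asIdeal.under (𝓞 B1)) (h1 : u.asIdeal.ramificationIdx ℤ = 1) :
    w.asIdeal.ramificationIdx ℤ ≤ Module.finrank B1 B := by
  have hwp := w.isPrime
  rw [(p4_towerZ w u hu).1, h1, one_mul]
  exact (Nat.le_mul_of_pos_right _ (Ideal.inertiaDeg_pos w.asIdeal (𝓞 B1))).trans (c4_le w)

end H57TX
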