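import Pool.Agent.Lib.H57N.Defs

/-!
# H57TX: base fields with cyclic p-extensions in which many anomalous primes ramify, with prescribed ramification indices (module EXISTENCE of theorem (T), MP_f50388_nt)

Adaptation of H57N to inertia groups of order p^i, 1 ≤ i ≤ t. Definitions (only Mathlib and H57N.Defs).
-/

open NumberField IsDedekindDomain

namespace H57TX

/-- The prime numbers: p^(n+t) divides l - 1; the q in Q are 1 modulo p^t and primitive roots modulo l; the level of q is between 1 and t. -/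
structure Prm (p n t l : ℕ) (Q : Finset ℕ) (lev : ℕ → ℕ) : Prop where
  hp : p.Prime
  hl : l.Prime
  hpl : p ^ (n + t) ∣ l - 1
  hq : ∀ q ∈ Q, q.Prime ∧ p ^ t ∣ q - 1 ∧ q ≠ l ∧ orderOf (q : ZMod l) = l - 1
  hlev : ∀ q ∈ Q, 1 ≤ lev q ∧ lev q ≤ t

/-- B/Q is cyclic of degree p^(n+t), unramified outside l and Q, with ramification index p^(lev q) at the q in Q; B' is the subfield of degree p^n, unramified outside l;
the q in Q are inert in B'. -/
structure Cy (p n t l : ℕ) (Q : Finset ℕ) (lev : ℕ → ℕ) (B : Type) [Field B] [NumberField B] (B' : IntermediateField ℚ B) : Prop where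
  gal : IsGalois ℚ B
  cyc : IsCyclic (B ≃ₐ[ℚ] B)
  deg : Module.finrank ℚ B = p ^ (n + t)
  gal' : IsGalois ℚ B'
  deg' : Module.finrank ℚ B' = p ^ n
  unr : ∀ (w : HeightOneSpectrum (𝓞 B)) (r : ℕ), r.Prime → (r : 𝓞 B) ∈ w.asIdeal → r ≠ l → r ∉ Q → w.asIdeal.ramificationIdx ℤ = 1
  unr' : ∀ (w : HeightOneSpectrum (𝓞 B')) (r : ℕ), r.Prime → (r : 𝓞 B') ∈ w.asIdeal → r ≠ l → w.asIdeal.ramificationIdx ℤ = 1
  ram : ∀ (w : HeightOneSpectrum (𝓞 B)) (q : ℕ), q ∈ Q → (q : 𝓞 B) ∈ w.asIdeal → w.asIdeal.ramificationIdx ℤ = p ^ lev q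
  ine : ∀ (w : HeightOneSpectrum (𝓞 B')) (q : ℕ), q ∈ Q → (q : 𝓞 B') ∈ w.asIdeal → p ^ n ≤ w.asIdeal.inertiaDeg ℤ

end H57TX
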